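import Pool.Agent.H93.HM.Rlh
import Pool.Agent.H93.HU.Cub
import Pool.Agent.H18.AR.HcD

/-!
# [H93 HM CLR] Collars

PROOFS (complete). `collar_cube`: `NB = {c}ᶜ`, `c = fun _ => 1/2`. For `y ≠ c` put `M y = sup_i |2 y_i - 1| > 0` (for `k = 0` there is no such `y`; `M y = ‖2 y - 1‖` in the sup norm of `Fin k → ℝ`), `ρ y i = 1/2 + (y_i - 1/2) / M y`, it lies in `I^k`, some coordinate
is `0` or `1`, so `ρ y ∈ Bd k`; `ρ y = y` if `y ∈ Bd k` (`M y = 1`). `dB (y, t) i = (1 - t) y_i + t ρ y i = 1/2 + (y_i - 1/2) ((1 - t) + t / M y)`, never `c` (`(1 - t) + t / M y > 0`), continuous for `y ≠ c` (define the real number with `projIcc` or `Set.projIcc 0 1`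
so that it is a total function; on `NB` it is in `[0, 1]`).
`collar_prod`: `NB' = {x | x.2 ∈ NB}`, `dB' (x, t) = (x.1, dB (x.2, t))`.
`collar_hc`: `NB = {x | (x.2 : ℝ) ≠ 1/2}`; `dB ((e, t), s) = (e, t * symm s)` if `(t : ℝ) < 1/2`, `(e, symm (symm t * symm s))` otherwise (`Set.Icc` / `unitInterval.symm`); continuous on `NB ×ˢ univ` since both pieces are relatively open; for `t < 1/2` the value stays `< 1/2`,
for `t > 1/2` it stays `> 1/2`; at `s = 1` it is `0` resp. `1`; for `t = 0`: `0 * _ = 0`; for `t = 1`: `symm (0 * _) = 1`.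
`bd_closed`: `Bd k = ⋃ i, {y | y i = 0 ∨ y i = 1}` (`Cube.boundary`), finite union of closed sets.
-/

set_option autoImplicit false

namespace Pool.H93.HM

open Pool.Agent.H4.CU Pool.Agent.H18.AR

theorem bd_closed (k : ℕ) : IsClosed (Pool.H93.HU.Bd k) := by
  have h : Pool.H93.HU.Bd k = ⋃ i : Fin k, ({y : Pool.H93.HU.Cb k | y i = 0} ∪
      {y : Pool.H93.HU.Cb k | y i = 1}) := by
    ext y
    simp only [Set.mem_iUnion, Set.mem_union, Set.mem_setOf_eq]
    rfl
  rw [h]
  refine isClosed_iUnion_of_finite fun i => ?_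
  exact (isClosed_singleton.preimage (continuous_apply i)).union
    (isClosed_singleton.preimage (continuous_apply i))

/-- the vector `2 y - 1` -/
private noncomputable def vv {k : ℕ} (y : Pool.H93.HU.Cb k) : Fin k → ℝ :=
  fun i => 2 * (y i : ℝ) - 1

/-- the size of `2 y - 1` -/
private noncomputable def MM {k : ℕ} (y : Pool.H93.HU.Cb k) : ℝ := ‖vv y‖

private theorem MM_cont (k : ℕ) : Continuous (MM : Pool.H93.HU.Cb k → ℝ) := by
  unfold MM vv
  refine Continuous.norm (continuous_pi fun i => ?_)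
  exact (continuous_const.mul (continuous_subtype_val.comp (continuous_apply i))).sub
    continuous_const

private theorem MM_nonneg {k : ℕ} (y : Pool.H93.HU.Cb k) : 0 ≤ MM y := norm_nonneg _

private theorem MM_le {k : ℕ} (y : Pool.H93.HU.Cb k) : MM y ≤ 1 := by
  unfold MM
  rw [pi_norm_le_iff_of_nonneg zero_le_one]
  intro i
  have h0 : (0 : ℝ) ≤ y i := (y i).2.1
  have h1 : (y i : ℝ) ≤ 1 := (y i).2.2
  rw [Real.norm_eq_abs, abs_le]
  unfold vv
  constructor <;> linarith

private theorem le_MM {k : ℕ} (y : Pool.H93.HU.Cb k) (i : Fin k) :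
    |2 * (y i : ℝ) - 1| ≤ MM y := by
  have h := norm_le_pi_norm (vv y) i
  rw [Real.norm_eq_abs] at h
  exact h

private theorem MM_bd {k : ℕ} {y : Pool.H93.HU.Cb k} (hy : y ∈ Pool.H93.HU.Bd k) : MM y = 1 := by
  refine le_antisymm (MM_le y) ?_
  obtain ⟨i, h | h⟩ := hy
  · have h1 := le_MM y i
    rw [h] at h1
    refine le_trans (le_of_eq ?_) h1
    simp
  · have h1 := le_MM y i
    rw [h] at h1
    refine le_trans (le_of_eq ?_) h1
    norm_num

private theorem bd_of_MM {k : ℕ} {y : Pool.H93.HU.Cb k} (hy : MM y = 1) :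
    y ∈ Pool.H93.HU.Bd k := by
  by_contra hn
  have hlt : ‖vv y‖ < 1 := by
    rw [pi_norm_lt_iff zero_lt_one]
    intro i
    have h0 : (0 : ℝ) ≤ y i := (y i).2.1
    have h1 : (y i : ℝ) ≤ 1 := (y i).2.2
    have h2 : (y i : ℝ) ≠ 0 := by
      intro h
      exact hn ⟨i, Or.inl (Subtype.ext h)⟩
    have h3 : (y i : ℝ) ≠ 1 := by
      intro h
      exact hn ⟨i, Or.inr (Subtype.ext h)⟩
    have h4 : (0 : ℝ) < y i := lt_of_le_of_ne h0 (Ne.symm h2)
    have h5 : (y i : ℝ) < 1 := lt_of_le_of_ne h1 h3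
    rw [Real.norm_eq_abs, abs_lt]
    unfold vv
    constructor <;> linarith
  exact absurd hy (ne_of_lt hlt)

/-- the factor -/
private noncomputable def sf {k : ℕ} (x : Pool.H93.HU.Cb k × J) : ℝ :=
  (1 - (x.2 : ℝ)) + (x.2 : ℝ) / MM x.1

/-- the radial deformation -/
private noncomputable def rad (k : ℕ) (x : Pool.H93.HU.Cb k × J) : Pool.H93.HU.Cb k :=
  fun i => Set.projIcc (0 : ℝ) 1 zero_le_one (1 / 2 + ((x.1 i : ℝ) - 1 / 2) * sf x)

private theorem sf_pos {k : ℕ} (y : Pool.H93.HU.Cb k) (t : J) (h : MM y ≠ 0) : 0 < sf (y, t) := by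
  have hM : 0 < MM y := lt_of_le_of_ne (MM_nonneg y) (Ne.symm h)
  have ht0 : (0 : ℝ) ≤ t := t.2.1
  have ht1 : (t : ℝ) ≤ 1 := t.2.2
  change 0 < (1 - (t : ℝ)) + (t : ℝ) / MM y
  rcases eq_or_lt_of_le ht0 with h0 | h0
  · rw [← h0]
    norm_num
  · have := div_pos h0 hM
    linarith

private theorem sf_mul {k : ℕ} (y : Pool.H93.HU.Cb k) (t : J) (h : MM y ≠ 0) :
    sf (y, t) * MM y ≤ 1 ∧ sf (y, t) * MM y = MM y * (1 - (t : ℝ)) + t := by
  have ht1 : (t : ℝ) ≤ 1 := t.2.2
  have e : sf (y, t) * MM y = MM y * (1 - (t : ℝ)) + t := by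
    change ((1 - (t : ℝ)) + (t : ℝ) / MM y) * MM y = MM y * (1 - (t : ℝ)) + t
    rw [add_mul, div_mul_cancel₀ _ h]
    ring
  refine ⟨?_, e⟩
  rw [e]
  have := mul_le_mul_of_nonneg_right (MM_le y) (sub_nonneg.2 ht1)
  linarith

private theorem rad_coe {k : ℕ} (y : Pool.H93.HU.Cb k) (t : J) (h : MM y ≠ 0) (i : Fin k) :
    (rad k (y, t) i : ℝ) = 1 / 2 + ((y i : ℝ) - 1 / 2) * sf (y, t) := by
  have h1 := le_MM y i
  have hs := sf_pos y t h
  obtain ⟨h2, -⟩ := sf_mul y t h
  have h3 : |2 * (y i : ℝ) - 1| * sf (y, t) ≤ 1 :=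
    le_trans (mul_le_mul_of_nonneg_right h1 hs.le) (by rw [mul_comm]; exact h2)
  have h4 : |(2 * (y i : ℝ) - 1) * sf (y, t)| ≤ 1 := by
    rw [abs_mul, abs_of_pos hs]
    exact h3
  rw [abs_le] at h4
  have hmem : 1 / 2 + ((y i : ℝ) - 1 / 2) * sf (y, t) ∈ Set.Icc (0 : ℝ) 1 := by
    constructor <;> linarith [h4.1, h4.2]
  change ((Set.projIcc (0 : ℝ) 1 zero_le_one
    (1 / 2 + ((y i : ℝ) - 1 / 2) * sf (y, t)) : Set.Icc (0 : ℝ) 1) : ℝ) = _
  rw [Set.projIcc_of_mem zero_le_one hmem]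

private theorem MM_rad {k : ℕ} (y : Pool.H93.HU.Cb k) (t : J) (h : MM y ≠ 0) :
    MM (rad k (y, t)) = sf (y, t) * MM y := by
  have e : vv (rad k (y, t)) = sf (y, t) • vv y := by
    funext i
    change 2 * (rad k (y, t) i : ℝ) - 1 = sf (y, t) * (2 * (y i : ℝ) - 1)
    rw [rad_coe y t h i]
    ring
  unfold MM
  rw [e, norm_smul, Real.norm_eq_abs, abs_of_pos (sf_pos y t h)]

theorem collar_cube (k : ℕ) : Collar (Pool.H93.HU.Bd k) := by
  refine ⟨{y | MM y ≠ 0}, rad k, ?_, ?_, ?_, ?_, ?_, ?_, ?_⟩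
  · exact isOpen_ne_fun (MM_cont k) continuous_const
  · intro y hy
    change MM y ≠ 0
    rw [MM_bd hy]
    exact one_ne_zero
  · have hM : ContinuousOn (fun x : Pool.H93.HU.Cb k × J => MM x.1)
        ({y : Pool.H93.HU.Cb k | MM y ≠ 0} ×ˢ Set.univ) :=
      ((MM_cont k).comp continuous_fst).continuousOn
    have ht : ContinuousOn (fun x : Pool.H93.HU.Cb k × J => (x.2 : ℝ))
        ({y : Pool.H93.HU.Cb k | MM y ≠ 0} ×ˢ Set.univ) :=
      (continuous_subtype_val.comp continuous_snd).continuousOn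
    have hs : ContinuousOn (fun x : Pool.H93.HU.Cb k × J => sf x)
        ({y : Pool.H93.HU.Cb k | MM y ≠ 0} ×ˢ Set.univ) := by
      unfold sf
      exact (continuousOn_const.sub ht).add (ht.div hM fun x hx => hx.1)
    refine continuousOn_pi.2 fun i => ?_
    refine continuous_projIcc.comp_continuousOn ?_
    have hy : ContinuousOn (fun x : Pool.H93.HU.Cb k × J => (x.1 i : ℝ))
        ({y : Pool.H93.HU.Cb k | MM y ≠ 0} ×ˢ Set.univ) :=
      (continuous_subtype_val.comp ((continuous_apply i).comp continuous_fst)).continuousOn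
    exact continuousOn_const.add ((hy.sub continuousOn_const).mul hs)
  · intro y hy t
    change MM (rad k (y, t)) ≠ 0
    rw [MM_rad y t hy]
    exact mul_ne_zero (sf_pos y t hy).ne' hy
  · intro y hy
    funext i
    apply Subtype.ext
    rw [rad_coe y 0 hy i]
    have e : sf (y, (0 : J)) = 1 := by
      change (1 - ((0 : J) : ℝ)) + ((0 : J) : ℝ) / MM y = 1
      simp
    rw [e]
    ring
  · intro y hy
    apply bd_of_MM
    rw [MM_rad y 1 hy, (sf_mul y 1 hy).2]
    simp
  · intro y hy t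
    have hM := MM_bd hy
    have hne : MM y ≠ 0 := by
      rw [hM]
      exact one_ne_zero
    funext i
    apply Subtype.ext
    rw [rad_coe y t hne i]
    have e : sf (y, t) = 1 := by
      change (1 - (t : ℝ)) + (t : ℝ) / MM y = 1
      rw [hM]
      ring
    rw [e]
    ring

theorem collar_prod {D B : Type} [TopologicalSpace D] [TopologicalSpace B] {A : Set B}
    (h : Collar A) : Collar {x : D × B | x.2 ∈ A} := by
  obtain ⟨NB, dB, h1, h2, h3, h4, h5, h6, h7⟩ := h
  refine ⟨{x | x.2 ∈ NB}, fun z => (z.1.1, dB (z.1.2, z.2)), h1.preimage continuous_snd, ?_, ?_,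
    ?_, ?_, ?_, ?_⟩
  · intro x hx
    exact h2 hx
  · have hm : Continuous (fun z : (D × B) × J => (z.1.2, z.2)) :=
      (continuous_snd.comp continuous_fst).prodMk continuous_snd
    refine (continuous_fst.comp continuous_fst).continuousOn.prodMk ?_
    exact h3.comp hm.continuousOn fun z hz => ⟨hz.1, Set.mem_univ _⟩
  · intro x hx t
    exact h4 x.2 hx t
  · intro x hx
    exact Prod.ext rfl (h5 x.2 hx)
  · intro x hx
    exact h6 x.2 hx
  · intro x hx t
    exact Prod.ext rfl (h7 x.2 hx t)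

/-- the collar of the two ends of the cylinder -/
private noncomputable def dd (E : Type) (z : (E × unitInterval) × J) :
    E × unitInterval :=
  (z.1.1, if (z.1.2 : ℝ) < 1 / 2 then z.1.2 * unitInterval.symm z.2
    else unitInterval.symm (unitInterval.symm z.1.2 * unitInterval.symm z.2))

private theorem dd_lt {E : Type} (x : E × unitInterval) (s : J) (h : (x.2 : ℝ) < 1 / 2) :
    dd E (x, s) = (x.1, x.2 * unitInterval.symm s) := by
  simp only [dd]
  rw [if_pos h]

private theorem dd_ge {E : Type} (x : E × unitInterval) (s : J) (h : ¬ (x.2 : ℝ) < 1 / 2) :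
    dd E (x, s) =
      (x.1, unitInterval.symm (unitInterval.symm x.2 * unitInterval.symm s)) := by
  simp only [dd]
  rw [if_neg h]

private theorem dd_cont (E : Type) [TopologicalSpace E] : ContinuousOn (dd E)
    ({x : E × unitInterval | (x.2 : ℝ) ≠ 1 / 2} ×ˢ Set.univ) := by
  have hc : Continuous fun z : (E × unitInterval) × unitInterval => ((z.1.2 : unitInterval) : ℝ) :=
    continuous_subtype_val.comp (continuous_snd.comp continuous_fst)
  rintro ⟨x, s⟩ ⟨hx, -⟩
  apply ContinuousAt.continuousWithinAt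
  have hx' : (x.2 : ℝ) ≠ 1 / 2 := hx
  rcases lt_or_gt_of_ne hx' with h | h
  · have hU : IsOpen {z : (E × unitInterval) × unitInterval | ((z.1.2 : unitInterval) : ℝ) < 1 / 2} :=
      isOpen_lt hc continuous_const
    have hg : Continuous fun z : (E × unitInterval) × unitInterval =>
        ((z.1.1, z.1.2 * unitInterval.symm z.2) : E × unitInterval) := by
      fun_prop
    refine hg.continuousAt.congr ?_
    filter_upwards [hU.mem_nhds (show (x, s) ∈ _ from h)] with z hz
    exact (dd_lt z.1 z.2 hz).symm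
  · have hU : IsOpen {z : (E × unitInterval) × unitInterval | 1 / 2 < ((z.1.2 : unitInterval) : ℝ)} :=
      isOpen_lt continuous_const hc
    have hg : Continuous fun z : (E × unitInterval) × unitInterval =>
        ((z.1.1, unitInterval.symm (unitInterval.symm z.1.2 * unitInterval.symm z.2)) :
          E × unitInterval) := by
      fun_prop
    refine hg.continuousAt.congr ?_
    filter_upwards [hU.mem_nhds (show (x, s) ∈ _ from h)] with z hz
    exact (dd_ge z.1 z.2 (not_lt.mpr (le_of_lt hz))).symm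

theorem collar_hc (E : Type) [TopologicalSpace E] : Collar (hcA E) := by
  refine ⟨{x : E × unitInterval | (x.2 : ℝ) ≠ 1 / 2}, dd E, ?_, ?_, dd_cont E, ?_, ?_, ?_, ?_⟩
  · exact isOpen_ne_fun (continuous_subtype_val.comp continuous_snd) continuous_const
  · rintro x (hx | hx)
    · change (x.2 : ℝ) ≠ 1 / 2
      rw [hx]
      norm_num
    · change (x.2 : ℝ) ≠ 1 / 2
      rw [hx]
      norm_num
  · intro x hx s
    have hx' : (x.2 : ℝ) ≠ 1 / 2 := hx
    have hx0 : (0 : ℝ) ≤ x.2 := x.2.2.1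
    have hx1 : (x.2 : ℝ) ≤ 1 := x.2.2.2
    have hs0 : (0 : ℝ) ≤ s := s.2.1
    have hs1 : (s : ℝ) ≤ 1 := s.2.2
    by_cases h : (x.2 : ℝ) < 1 / 2
    · rw [dd_lt x s h]
      change ((x.2 * unitInterval.symm s : unitInterval) : ℝ) ≠ 1 / 2
      rw [Set.Icc.coe_mul, unitInterval.coe_symm_eq]
      refine ne_of_lt ?_
      have := mul_le_mul_of_nonneg_left (show 1 - (s : ℝ) ≤ 1 by linarith) hx0
      linarith
    · rw [dd_ge x s h]
      have h' : 1 / 2 < (x.2 : ℝ) := lt_of_le_of_ne (not_lt.1 h) (Ne.symm hx')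
      change ((unitInterval.symm (unitInterval.symm x.2 * unitInterval.symm s) : unitInterval)
        : ℝ) ≠ 1 / 2
      rw [unitInterval.coe_symm_eq, Set.Icc.coe_mul, unitInterval.coe_symm_eq,
        unitInterval.coe_symm_eq]
      refine ne_of_gt ?_
      have := mul_le_mul_of_nonneg_left (show 1 - (s : ℝ) ≤ 1 by linarith)
        (show (0 : ℝ) ≤ 1 - x.2 by linarith)
      linarith
  · intro b _
    by_cases h : (b.2 : ℝ) < 1 / 2
    · rw [dd_lt b 0 h, unitInterval.symm_zero, mul_one]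
    · rw [dd_ge b 0 h, unitInterval.symm_zero, mul_one, unitInterval.symm_symm]
  · intro b _
    by_cases h : (b.2 : ℝ) < 1 / 2
    · left
      rw [dd_lt b 1 h, unitInterval.symm_one, mul_zero]
    · right
      rw [dd_ge b 1 h, unitInterval.symm_one, mul_zero, unitInterval.symm_zero]
  · rintro ⟨e, t⟩ ha s
    rcases ha with ha | ha
    · have ht : t = 0 := ha
      subst ht
      rw [dd_lt _ s (by norm_num)]
      simp
    · have ht : t = 1 := ha
      subst ht
      rw [dd_ge _ s (by norm_num)]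
      simp

end Pool.H93.HM
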