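import Pool.Agent.H93.HM.Pch
import Pool.Agent.H18.AR.Prd

/-!
# [H93 HM LHM] The homology of a wedge of spheres

`LW F k`: the wedge of `k`-spheres indexed by the finite discrete space `F`.

PROOFS (complete). `lw_data : POData`: closed (`bd_closed`, preimage under `snd`), the constant map is continuous, compact: `bF F k` is a closed subset of the compact space `F × Qb k`. `LCS Unit`, `LCS (F × Qb k)`: `lcs_compact` (compact metrizable) or the instances.
A cube of `LW F k` with values in `range jY` (one point) is constant, so degenerate in dimension `≥ 1`: `subC R (n + 1) (range jY) = ⊥`. So `Zc ⊤ (subCF (range jY)) (n + 1)` is contained in..: for a cycle `z` of degree `n + 1` use `pc_ne` resp. `pc_eq`: `z = d w + a`, `a = 0`.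
`lw_inj`: `∑ c_f gC χ_f = d w ∈ Bd`, `pc_inj`.
`chr_cyc`: the faces of `χ_f` are constant, so (`k ≥ 2`) degenerate, or (`k = 1`) equal: in any case `d (gC χ_f) = 0`: `∑ (-1)^i (gC const - gC const) = 0`.
-/

set_option autoImplicit false

namespace Pool.H93.HM

open Pool.Agent.H4.CU Pool.Agent.H18.AR

/-- the wedge of `k`-spheres -/
abbrev LW (F : Type) (k : ℕ) : Type := PO (bF F k) (fun _ : F × Qb k => ())

variable (R : Type) [CommRing R] {F : Type} [TopologicalSpace F] [DiscreteTopology F] [Finite F]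
  {k : ℕ}

theorem lw_data (F : Type) [TopologicalSpace F] [DiscreteTopology F] [Finite F] (k : ℕ) :
    POData (bF F k) (fun _ : F × Qb k => ()) where
  closed := (bd_closed k).preimage continuous_snd
  cont := continuousOn_const
  proper := by
    intro K _
    have h1 : IsClosed (bF F k) := (bd_closed k).preimage continuous_snd
    have h2 : IsClosed ((fun _ : F × Qb k => ()) ⁻¹' K) :=
      (isClosed_discrete K).preimage continuous_const
    exact (h1.inter h2).isCompact

theorem lcs_unit : LCS Unit := lcs_compact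

theorem lcs_cells (F : Type) [TopologicalSpace F] [DiscreteTopology F] [Countable F] (k : ℕ) :
    LCS (F × Qb k) := lcs_prod lcs_discrete lcs_compact

/-- the base point -/
noncomputable def lw0 (F : Type) (k : ℕ) : LW F k := PO.jY (bF F k) (fun _ : F × Qb k => ()) ()

/-- the characteristic cube of the sphere `f` -/
noncomputable def lch (f : F) : Cb (LW F k) k := chr (fun _ : F × Qb k => ()) f

theorem lch_bd (f : F) (y : Qb k) (hy : y ∈ Pool.H93.HU.Bd k) :
    (lch f : Cb (LW F k) k) y = lw0 F k := by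
  have h1 : ((f, y) : F × Qb k) ∈ bF F k := hy
  have h2 : (lch f : Cb (LW F k) k) y = PO.jB (bF F k) (fun _ : F × Qb k => ()) (f, y) := rfl
  rw [h2, PO.jB_mem h1]
  rfl

private theorem ins_bd {n : ℕ} (i : Fin (n + 1)) (e : J) (he : e = 0 ∨ e = 1) (x : Qb n) :
    (i.insertNth e x : Qb (n + 1)) ∈ Pool.H93.HU.Bd (n + 1) := by
  refine ⟨i, ?_⟩
  rcases he with rfl | rfl
  · left
    exact Fin.insertNth_apply_same _ _ _
  · right
    exact Fin.insertNth_apply_same _ _ _

theorem chr_cyc (f : F) : dC R (LW F (k + 1)) k (gC R (lch f)) = 0 := by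
  rw [dC_gC]
  refine Finset.sum_eq_zero fun i _ => ?_
  have h1 : face i 0 (lch f : Cb (LW F (k + 1)) (k + 1)) = face i 1 (lch f) := by
    ext x
    rw [face_apply, face_apply, lch_bd f _ (ins_bd i 0 (Or.inl rfl) x),
      lch_bd f _ (ins_bd i 1 (Or.inr rfl) x)]
  rw [h1, sub_self, smul_zero]

private theorem sub_bot (n : ℕ) : subC R (n + 1) (Set.range (PO.jY (bF F k) (fun _ : F × Qb k => ()))) = ⊥ := by
  unfold subC
  rw [Submodule.span_eq_bot]
  rintro c ⟨σ, hσ, rfl⟩
  refine gC_deg R ⟨0, fun x t => ?_⟩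
  obtain ⟨u, hu⟩ := hσ ⟨Function.update x 0 t, rfl⟩
  obtain ⟨v, hv⟩ := hσ ⟨x, rfl⟩
  rw [← hu, ← hv]

private theorem mem_range_of_bd (n : ℕ) {z : Ch R (LW F k) (n + 1)}
    (h : z ∈ Bd (CC R (LW F k)) ⊤ (subCF R (Set.range (PO.jY (bF F k) (fun _ : F × Qb k => ())))) (n + 1)) :
    z ∈ LinearMap.range (dC R (LW F k) (n + 1)) := by
  obtain ⟨b, -, a, ha, hz⟩ := mem_bd.1 h
  have h0 : ∀ a' : Ch R (LW F k) (n + 1),
      a' ∈ subC R (n + 1) (Set.range (PO.jY (bF F k) (fun _ : F × Qb k => ()))) → a' = 0 := by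
    intro a' ha'
    rw [sub_bot, Submodule.mem_bot] at ha'
    exact ha'
  have ha' : a = 0 := h0 a ha
  refine ⟨b, ?_⟩
  rw [← hz, ha']
  exact (add_zero _).symm

private theorem zc_of_cyc (n : ℕ) {z : Ch R (LW F k) (n + 1)} (hz : dC R (LW F k) n z = 0) :
    z ∈ Zc (CC R (LW F k)) ⊤ (subCF R (Set.range (PO.jY (bF F k) (fun _ : F × Qb k => ())))) (n + 1) := by
  refine mem_zc_succ.2 ⟨Submodule.mem_top, ?_⟩
  have h1 : (CC R (LW F k)).d n z = 0 := hz
  rw [h1]
  exact Submodule.zero_mem _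

theorem lw_ne (n : ℕ) (hn : n + 1 ≠ k) (z : Ch R (LW F k) (n + 1))
    (hz : dC R (LW F k) n z = 0) : z ∈ LinearMap.range (dC R (LW F k) (n + 1)) :=
  mem_range_of_bd R n (pc_ne R (lw_data F k) lcs_unit (lcs_cells F k) (n + 1) hn (zc_of_cyc R n hz))

theorem lw_eq (z : Ch R (LW F (k + 1)) (k + 1)) (hz : dC R (LW F (k + 1)) k z = 0) :
    ∃ c : F →₀ R, z - (c.sum fun f a => a • gC R (lch f)) ∈
      LinearMap.range (dC R (LW F (k + 1)) (k + 1)) := by
  obtain ⟨c, hc⟩ := pc_eq R (lw_data F (k + 1)) lcs_unit (lcs_cells F (k + 1)) z (zc_of_cyc R k hz)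
  exact ⟨c, mem_range_of_bd R k hc⟩

theorem lw_inj (c : F →₀ R) (h : (c.sum fun f a => a • gC R (lch f)) ∈
    LinearMap.range (dC R (LW F (k + 1)) (k + 1))) : c = 0 := by
  obtain ⟨w, hw⟩ := h
  refine pc_inj R (lw_data F (k + 1)) lcs_unit (lcs_cells F (k + 1)) c ?_
  refine mem_bd.2 ⟨w, Submodule.mem_top, 0, Submodule.zero_mem _, ?_⟩
  rw [add_zero]
  exact hw

end Pool.H93.HM
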