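import Pool.Agent.H93.HM.Hhb

/-!
# [H93 HM HHC] The Hurewicz homomorphism: combinations of pointed cubes

PROOF (complete). The set of the `x : Ch R X (q + 1)` such that some pointed cube `w` (at `x₀`) has `gC w - x ∈ range d` is an additive subgroup:
zero: the constant cube (`gC_const`). Sum: `w₁`, `w₂` for `x₁`, `x₂`; let `w` be `GenLoop.transAt 0 w₁ w₂` (as a continuous map; it is pointed and has the form required in `hh_mul`, by definition of `transAt`: `if (y 0 : ℝ) ≤ 1/2 then .. else ..`). Negative: for `w₁` let `w₂` be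
`GenLoop.symmAt 0 w₁` (`y ↦ w₁ (update y 0 (σ (y 0)))`); `w = transAt 0 w₁ w₂` has `cl w = cl w₂ * cl w₁ = (cl w₁)⁻¹ * cl w₁ = 1` (`HU.cl_mul`, `HU.cl_inv`) `= cl const` (`HU.cl_const`), so `gC w - gC const ∈ range d` (`hh_hom`), `gC const = 0`, and
`gC w - (gC w₁ + gC w₂) ∈ range d`: so `gC w₂ + gC w₁ ∈ range d`.
It contains `gC (s f)` for all `f` (`w = s f`), so all the integral combinations (`(a : R) • x = a • x`, `Finsupp.sum` induction or `AddSubgroup.sum_mem`, `zsmul_mem`).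
-/

set_option autoImplicit false

namespace Pool.H93.HM

open Pool.Agent.H4.CU

open scoped Topology Topology.Homotopy in
private theorem tr_ex {X : Type} [TopologicalSpace X] {x₀ : X} {q : ℕ} (s t : Cb X (q + 1))
    (hs : ∀ y ∈ Pool.H93.HU.Bd (q + 1), s y = x₀) (ht : ∀ y ∈ Pool.H93.HU.Bd (q + 1), t y = x₀) :
    ∃ w : Cb X (q + 1), (∀ y ∈ Pool.H93.HU.Bd (q + 1), w y = x₀) ∧
      (∀ y : Qb (q + 1), (y 0 : ℝ) ≤ 1 / 2 →
        w y = s (Function.update y 0 (Set.projIcc 0 1 zero_le_one (2 * (y 0 : ℝ))))) ∧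
      (∀ y : Qb (q + 1), (1 : ℝ) / 2 < y 0 →
        w y = t (Function.update y 0 (Set.projIcc 0 1 zero_le_one (2 * (y 0 : ℝ) - 1)))) := by
  have hf : ∀ y : Qb (q + 1), (GenLoop.transAt 0 (⟨s, hs⟩ : GenLoop (Fin (q + 1)) X x₀) ⟨t, ht⟩).1 y =
      if (y 0 : ℝ) ≤ 1 / 2 then s (Function.update y 0 (Set.projIcc 0 1 zero_le_one (2 * (y 0 : ℝ))))
      else t (Function.update y 0 (Set.projIcc 0 1 zero_le_one (2 * (y 0 : ℝ) - 1))) := fun y => rfl
  refine ⟨(GenLoop.transAt 0 (⟨s, hs⟩ : GenLoop (Fin (q + 1)) X x₀) ⟨t, ht⟩).1,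
    (GenLoop.transAt 0 (⟨s, hs⟩ : GenLoop (Fin (q + 1)) X x₀) ⟨t, ht⟩).2, ?_, ?_⟩
  · intro y hy
    rw [hf, if_pos hy]
  · intro y hy
    rw [hf, if_neg (not_le.2 hy)]

open scoped Topology Topology.Homotopy in
private theorem sy_ex {X : Type} [TopologicalSpace X] {x₀ : X} {q : ℕ} (s : Cb X (q + 1))
    (hs : ∀ y ∈ Pool.H93.HU.Bd (q + 1), s y = x₀) :
    ∃ w : Cb X (q + 1), (∀ y ∈ Pool.H93.HU.Bd (q + 1), w y = x₀) ∧
      ∀ y : Qb (q + 1), w y = s (Function.update y 0 (unitInterval.symm (y 0))) := by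
  refine ⟨(GenLoop.symmAt 0 (⟨s, hs⟩ : GenLoop (Fin (q + 1)) X x₀)).1,
    (GenLoop.symmAt 0 (⟨s, hs⟩ : GenLoop (Fin (q + 1)) X x₀)).2, ?_⟩
  intro y
  have h1 : (GenLoop.symmAt 0 (⟨s, hs⟩ : GenLoop (Fin (q + 1)) X x₀)).1 y =
      s fun j => if j = 0 then unitInterval.symm (y 0) else y j := rfl
  rw [h1]
  congr 1
  funext j
  rw [Function.update_apply]

/-- the classes of the pointed cubes -/
private def hhS (R : Type) [CommRing R] {X : Type} [TopologicalSpace X] (x₀ : X) (q : ℕ) :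
    AddSubgroup (Ch R X (q + 1)) where
  carrier := {x | ∃ w : Cb X (q + 1), (∀ y ∈ Pool.H93.HU.Bd (q + 1), w y = x₀) ∧
    gC R w - x ∈ LinearMap.range (dC R X (q + 1))}
  zero_mem' := by
    refine ⟨ContinuousMap.const (Qb (q + 1)) x₀, fun _ _ => rfl, ?_⟩
    rw [gC_const R q x₀, sub_zero]
    exact Submodule.zero_mem _
  add_mem' := by
    rintro a b ⟨w1, h1, k1⟩ ⟨w2, h2, k2⟩
    obtain ⟨w, hw, e1, e2⟩ := tr_ex w1 w2 h1 h2
    refine ⟨w, hw, ?_⟩
    have h3 := hh_mul R w1 w2 w h1 h2 hw e1 e2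
    have h4 := Submodule.add_mem _ (Submodule.add_mem _ h3 k1) k2
    have h5 : gC R w - (a + b) = gC R w - (gC R w1 + gC R w2) + (gC R w1 - a) + (gC R w2 - b) := by
      abel
    rw [h5]
    exact h4
  neg_mem' := by
    rintro a ⟨w1, h1, k1⟩
    obtain ⟨w2, h2, e⟩ := sy_ex w1 h1
    obtain ⟨w, hw, e1, e2⟩ := tr_ex w1 w2 h1 h2
    refine ⟨w2, h2, ?_⟩
    have h3 := hh_mul R w1 w2 w h1 h2 hw e1 e2
    have h4 : Pool.H93.HU.cl w hw =
        Pool.H93.HU.cl (ContinuousMap.const (Qb (q + 1)) x₀) (fun _ _ => rfl) := by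
      rw [Pool.H93.HU.cl_mul 0 w1 w2 w h1 h2 hw e1 e2, Pool.H93.HU.cl_inv 0 w1 w2 h1 h2 e,
        inv_mul_cancel]
      exact (Pool.H93.HU.cl_const _).symm
    have h5 := hh_hom R w _ hw (fun _ _ => rfl) h4
    rw [gC_const R q x₀, sub_zero] at h5
    have h6 := Submodule.sub_mem _ (Submodule.sub_mem _ h5 h3) k1
    have h7 : gC R w2 - -a = gC R w - (gC R w - (gC R w1 + gC R w2)) - (gC R w1 - a) := by
      abel
    rw [h7]
    exact h6

theorem hh_comb (R : Type) [CommRing R] {X F : Type} [TopologicalSpace X] {x₀ : X} {q : ℕ}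
    (c : F →₀ ℤ) (s : F → Cb X (q + 1)) (hs : ∀ f, ∀ y ∈ Pool.H93.HU.Bd (q + 1), s f y = x₀) :
    ∃ w : Cb X (q + 1), (∀ y ∈ Pool.H93.HU.Bd (q + 1), w y = x₀) ∧
      gC R w - (c.sum fun f a => (a : R) • gC R (s f)) ∈ LinearMap.range (dC R X (q + 1)) := by
  have key : (c.sum fun f a => (a : R) • gC R (s f)) ∈ hhS R x₀ q := by
    refine AddSubgroup.sum_mem _ fun f _ => ?_
    have h1 : gC R (s f) ∈ hhS R x₀ q := by
      refine ⟨s f, hs f, ?_⟩
      rw [sub_self]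
      exact Submodule.zero_mem _
    have h2 : (fun (f : F) (a : ℤ) => (a : R) • gC R (s f)) f (c f) = c f • gC R (s f) :=
      Int.cast_smul_eq_zsmul R (c f) (gC R (s f))
    rw [h2]
    exact AddSubgroup.zsmul_mem _ h1 _
  exact key

end Pool.H93.HM
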