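import Pool.Agent.H93.HM.Hhc
import Pool.Agent.H93.HU.Sys

/-!
# [H93 HM HSU] The Hurewicz theorem, surjectivity

PROOF (complete). As in `Pool/Agent/H93/HU/Sys.lean` (private theorem `tower`, copy it; `base`, `step`) there are `H₀`, `H₁`, `H₂` in dimensions `p`, `p + 1`, `p + 2` with `St (p + 2) x₀` and `Rl H₀ H₁`, `Rl H₁ H₂`.
`P₁ : Ch ℤ X (p + 1) → Ch ℤ X (p + 2)`, `gC u ↦ gC (x ↦ H₁ u (tail x, x 0))`, `P₂ : Ch ℤ X (p + 2) → Ch ℤ X (p + 3)` the same with `H₂`, `tail x = fun i => x i.succ` (`liftC`): if `u` is degenerate, `u = v.comp (HU.pr i)` (`v = u.comp (HU.fc i 0)`), `Rl` (second part) says that `H₁ u (y, t)` depends only on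
`pr i y`, so the cube is degenerate. `e : Ch ℤ X (p + 2) → Ch ℤ X (p + 2)`, `gC s ↦ gC (H₂ s (·, 1))`, the same. Faces: `face 0 0` of the prism of `s` is `s`, `face 0 1` is `H₂ s (·, 1)`, `face i.succ ε` is the prism of `face i ε s` for `H₁` (`Rl`, first part; `ε = 0, 1`
is `HU.ep false`, `HU.ep true`; `face i ε s = HU.Fc s i ε`). So `d (P₂ x) + P₁ (d x) = x - e x` (`dC_gC`, `Fin.sum_univ_succ`, generators), and for the cycle `z`: `z - e z ∈ range d`.
`H₂ s (·, 1)` is pointed at `x₀`: on the boundary it is `H₁ (Fc s i _) (·, 1) = x₀` (`HU.mem_Bd`, `p + 1 < p + 2`). `z` is the class of some `f : Cb X (p + 2) →₀ ℤ`, `e z = f.sum fun s a => a • gC (H₂ s (·, 1))`; `hh_comb` with `F = Cb X (p + 2)`, `c = f`.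
-/

set_option autoImplicit false

namespace Pool.H93.HM

open Pool.Agent.H4.CU

section

variable {X : Type} [TopologicalSpace X]

private theorem tower {q : ℕ} (hq : 2 ≤ q) (hF : ∀ j < q, Pool.H93.HU.Fil X j) (x₀ : X) :
    ∀ k : ℕ, ∃ (H₀ : C(Pool.H93.HU.Cb k, X) → C(Pool.H93.HU.Cb k × unitInterval, X))
      (H₁ : C(Pool.H93.HU.Cb (k + 1), X) → C(Pool.H93.HU.Cb (k + 1) × unitInterval, X)),
      Pool.H93.HU.St q x₀ H₀ ∧ Pool.H93.HU.St q x₀ H₁ ∧ Pool.H93.HU.Rl H₀ H₁ := by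
  intro k
  induction k with
  | zero =>
    obtain ⟨H₀, H₁, h0, h1, hR, _⟩ := Pool.H93.HU.base hq (hF 0 (by omega)) (hF 1 (by omega)) x₀
    exact ⟨H₀, H₁, h0, h1, hR⟩
  | succ k ih =>
    obtain ⟨H₀, H₁, h0, h1, hR⟩ := ih
    obtain ⟨H₂, h2, hR2⟩ := Pool.H93.HU.step (fun h => hF _ h) h1 hR
    exact ⟨H₁, H₂, h1, h2, hR2⟩

/-- the prism of a homotopy of cubes -/
private def pri {n : ℕ} (K : C(Pool.H93.HU.Cb n × unitInterval, X)) : Cb X (n + 1) where
  toFun x := K (fun i => x i.succ, x 0)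
  continuous_toFun := by fun_prop

/-- the map at a time of a homotopy of cubes -/
private def en {n : ℕ} (K : C(Pool.H93.HU.Cb n × unitInterval, X)) (t : J) : Cb X n where
  toFun x := K (x, t)
  continuous_toFun := by fun_prop

private theorem pri_zero {n : ℕ} (K : C(Pool.H93.HU.Cb n × unitInterval, X)) (ε : J) :
    face 0 ε (pri K) = en K ε := by
  ext x
  have h0 : (Fin.insertNth (α := fun _ => J) 0 ε x) 0 = ε := Fin.insertNth_apply_same _ _ _
  have h1 : (fun i : Fin n => (Fin.insertNth (α := fun _ => J) 0 ε x) i.succ) = x := by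
    funext i
    have h2 := Fin.insertNth_apply_succAbove (α := fun _ => J) 0 ε x i
    rw [Fin.succAbove_zero] at h2
    exact h2
  show K (fun i => (Fin.insertNth (α := fun _ => J) 0 ε x) i.succ,
    (Fin.insertNth (α := fun _ => J) 0 ε x) 0) = K (x, ε)
  rw [h0, h1]

private theorem pri_succ {n : ℕ} (K : C(Pool.H93.HU.Cb (n + 1) × unitInterval, X))
    (K' : C(Pool.H93.HU.Cb n × unitInterval, X)) (i : Fin (n + 1)) (ε : J)
    (h : ∀ y t, K (Pool.H93.HU.fc i ε y, t) = K' (y, t)) :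
    face i.succ ε (pri K) = pri K' := by
  ext x
  have h0 : (Fin.insertNth (α := fun _ => J) i.succ ε x) 0 = x 0 := by
    have h2 := Fin.insertNth_apply_succAbove (α := fun _ => J) i.succ ε x 0
    rw [Fin.succ_succAbove_zero] at h2
    exact h2
  have h1 : (fun j : Fin (n + 1) => (Fin.insertNth (α := fun _ => J) i.succ ε x) j.succ) =
      Pool.H93.HU.fc i ε (fun j => x j.succ) := by
    funext j
    show _ = Fin.insertNth (α := fun _ => J) i ε (fun j => x j.succ) j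
    refine i.succAboveCases ?_ (fun k => ?_) j
    · rw [Fin.insertNth_apply_same, Fin.insertNth_apply_same]
    · rw [Fin.insertNth_apply_succAbove]
      have h2 := Fin.insertNth_apply_succAbove (α := fun _ => J) i.succ ε x k.succ
      rw [Fin.succ_succAbove_succ] at h2
      exact h2
  show K (fun j => (Fin.insertNth (α := fun _ => J) i.succ ε x) j.succ,
    (Fin.insertNth (α := fun _ => J) i.succ ε x) 0) = K' (fun j => x j.succ, x 0)
  rw [h0, h1, h]

/-- degenerate cubes are compositions with a projection -/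
private theorem deg_pr {n : ℕ} {σ : Cb X (n + 1)} (h : Deg σ) :
    ∃ (i : Fin (n + 1)) (v : Cb X n), σ = v.comp (Pool.H93.HU.pr i) := by
  obtain ⟨i, hi⟩ := h
  refine ⟨i, face i 0 σ, ?_⟩
  ext x
  show σ x = σ (Fin.insertNth (α := fun _ => J) i 0 (fun j => x (i.succAbove j)))
  have h1 : Fin.insertNth (α := fun _ => J) i 0 (fun j => x (i.succAbove j)) =
      Function.update x i 0 := by
    funext j
    refine i.succAboveCases ?_ (fun k => ?_) j
    · rw [Fin.insertNth_apply_same, Function.update_self]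
    · rw [Fin.insertNth_apply_succAbove, Function.update_of_ne (Fin.succAbove_ne i k)]
  rw [h1, hi]

private theorem pr_update {n : ℕ} (i : Fin (n + 1)) (y : Pool.H93.HU.Cb (n + 1)) (t : J) :
    Pool.H93.HU.pr i (Function.update y i t) = Pool.H93.HU.pr i y := by
  funext j
  show Function.update y i t (i.succAbove j) = y (i.succAbove j)
  rw [Function.update_of_ne (Fin.succAbove_ne i j)]

private theorem en_deg {k : ℕ} {H₀ : C(Pool.H93.HU.Cb k, X) → C(Pool.H93.HU.Cb k × unitInterval, X)}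
    {H₁ : C(Pool.H93.HU.Cb (k + 1), X) → C(Pool.H93.HU.Cb (k + 1) × unitInterval, X)}
    (hR : Pool.H93.HU.Rl H₀ H₁) (t : J) {σ : Cb X (k + 1)} (h : Deg σ) : Deg (en (H₁ σ) t) := by
  obtain ⟨i, v, rfl⟩ := deg_pr h
  refine ⟨i, fun x s => ?_⟩
  show H₁ (v.comp (Pool.H93.HU.pr i)) (Function.update x i s, t) =
    H₁ (v.comp (Pool.H93.HU.pr i)) (x, t)
  rw [hR.2, hR.2, pr_update]

private theorem pri_deg {k : ℕ} {H₀ : C(Pool.H93.HU.Cb k, X) → C(Pool.H93.HU.Cb k × unitInterval, X)}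
    {H₁ : C(Pool.H93.HU.Cb (k + 1), X) → C(Pool.H93.HU.Cb (k + 1) × unitInterval, X)}
    (hR : Pool.H93.HU.Rl H₀ H₁) {σ : Cb X (k + 1)} (h : Deg σ) : Deg (pri (H₁ σ)) := by
  obtain ⟨i, v, rfl⟩ := deg_pr h
  refine ⟨i.succ, fun x s => ?_⟩
  have h0 : Function.update x i.succ s 0 = x 0 :=
    Function.update_of_ne (Fin.succ_ne_zero i).symm _ _
  have h1 : (fun j : Fin (k + 1) => Function.update x i.succ s j.succ) =
      Function.update (fun j : Fin (k + 1) => x j.succ) i s := by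
    funext j
    by_cases hj : j = i
    · subst hj
      rw [Function.update_self, Function.update_self]
    · rw [Function.update_of_ne hj, Function.update_of_ne (fun h => hj (Fin.succ_injective _ h))]
  show H₁ (v.comp (Pool.H93.HU.pr i)) (fun j => Function.update x i.succ s j.succ,
    Function.update x i.succ s 0) = H₁ (v.comp (Pool.H93.HU.pr i)) (fun j => x j.succ, x 0)
  rw [h0, h1, hR.2, hR.2, pr_update]

private theorem ep_zero : Pool.H93.HU.ep false = 0 := rfl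

private theorem ep_one : Pool.H93.HU.ep true = 1 := rfl

end

theorem hur_surj {X : Type} [TopologicalSpace X] {p : ℕ} (hF : ∀ j < p + 2, Pool.H93.HU.Fil X j)
    (x₀ : X) (z : Ch ℤ X (p + 2)) (hz : dC ℤ X (p + 1) z = 0) :
    ∃ s : Cb X (p + 2), (∀ y ∈ Pool.H93.HU.Bd (p + 2), s y = x₀) ∧
      z - gC ℤ s ∈ LinearMap.range (dC ℤ X (p + 2)) := by
  obtain ⟨H₀, H₁, h0, h1, hR⟩ := tower (q := p + 2) (by omega) hF x₀ p
  obtain ⟨H₂, h2, hR2⟩ := Pool.H93.HU.step (fun h => hF _ h) h1 hR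
  let P₁ : Ch ℤ X (p + 1) →ₗ[ℤ] Ch ℤ X (p + 2) :=
    liftC (fun u => gC ℤ (pri (H₁ u))) fun _ h => gC_deg ℤ (pri_deg hR h)
  let P₂ : Ch ℤ X (p + 2) →ₗ[ℤ] Ch ℤ X (p + 3) :=
    liftC (fun u => gC ℤ (pri (H₂ u))) fun _ h => gC_deg ℤ (pri_deg hR2 h)
  let e : Ch ℤ X (p + 2) →ₗ[ℤ] Ch ℤ X (p + 2) :=
    liftC (fun u => gC ℤ (en (H₂ u) 1)) fun _ h => gC_deg ℤ (en_deg hR2 1 h)
  have hP1 : ∀ u, P₁ (gC ℤ u) = gC ℤ (pri (H₁ u)) := fun u => liftC_gC _ _ _
  have hP2 : ∀ u, P₂ (gC ℤ u) = gC ℤ (pri (H₂ u)) := fun u => liftC_gC _ _ _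
  have he : ∀ u, e (gC ℤ u) = gC ℤ (en (H₂ u) 1) := fun u => liftC_gC _ _ _
  have hen : ∀ u : Cb X (p + 2), en (H₂ u) 0 = u := by
    intro u
    ext y
    exact h2.1 u y
  have key : dC ℤ X (p + 2) ∘ₗ P₂ + P₁ ∘ₗ dC ℤ X (p + 1) = LinearMap.id - e := by
    refine ch_ext fun σ => ?_
    rw [LinearMap.add_apply, LinearMap.comp_apply, LinearMap.comp_apply, LinearMap.sub_apply,
      LinearMap.id_apply, hP2, he, dC_gC, dC_gC, Fin.sum_univ_succ, map_sum, pri_zero,
      pri_zero, hen]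
    have h3 : ∑ i : Fin (p + 2), (-1 : ℤ) ^ ((i.succ : Fin (p + 3)) : ℕ) •
        (gC ℤ (face i.succ 0 (pri (H₂ σ))) - gC ℤ (face i.succ 1 (pri (H₂ σ)))) +
        ∑ i : Fin (p + 2), P₁ ((-1 : ℤ) ^ (i : ℕ) • (gC ℤ (face i 0 σ) - gC ℤ (face i 1 σ))) =
          0 := by
      rw [← Finset.sum_add_distrib]
      refine Finset.sum_eq_zero fun i _ => ?_
      have e0 : face i.succ 0 (pri (H₂ σ)) = pri (H₁ (face i 0 σ)) :=
        pri_succ _ _ i 0 fun y t => hR2.1 σ i false y t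
      have e1 : face i.succ 1 (pri (H₂ σ)) = pri (H₁ (face i 1 σ)) :=
        pri_succ _ _ i 1 fun y t => hR2.1 σ i true y t
      rw [e0, e1, map_smul, map_sub, hP1, hP1, Fin.val_succ, pow_succ,
        mul_neg_one, neg_smul, neg_add_cancel]
    rw [add_assoc, h3, add_zero, Fin.val_zero, pow_zero, one_smul]
  have hze : z - e z ∈ LinearMap.range (dC ℤ X (p + 2)) := by
    refine ⟨P₂ z, ?_⟩
    have h3 := congrArg (fun f => f z) key
    have h4 : dC ℤ X (p + 2) (P₂ z) + P₁ (dC ℤ X (p + 1) z) = z - e z := h3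
    rw [hz, map_zero, add_zero] at h4
    exact h4
  obtain ⟨f, hf⟩ := Submodule.Quotient.mk_surjective _ z
  have hs : ∀ s : Cb X (p + 2), ∀ y ∈ Pool.H93.HU.Bd (p + 2), en (H₂ s) 1 y = x₀ := by
    intro s y hy
    obtain ⟨i, b, x, rfl⟩ := Pool.H93.HU.mem_Bd.1 hy
    show H₂ s (Pool.H93.HU.fc i (Pool.H93.HU.ep b) x, 1) = x₀
    rw [hR2.1]
    exact h1.2 (by omega) _ x
  obtain ⟨w, hw, hw2⟩ := hh_comb ℤ (q := p + 1) f (fun s => en (H₂ s) 1) hs
  have hez : e z = f.sum fun s a => ((a : ℤ) : ℤ) • gC ℤ (en (H₂ s) 1) := by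
    rw [← hf]
    show Finsupp.linearCombination ℤ (fun u => gC ℤ (en (H₂ u) 1)) f = _
    rw [Finsupp.linearCombination_apply]
  refine ⟨w, hw, ?_⟩
  have h5 : z - gC ℤ w = (z - e z) - (gC ℤ w - e z) := by abel
  rw [h5]
  refine sub_mem hze ?_
  rw [hez]
  simp only [Int.cast_id] at hw2
  exact hw2

end Pool.H93.HM
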