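import Pool.Agent.H4.CU.DD
import Pool.Agent.H93.HU.Defs

/-!
# [H93 HM BRG] The two definitions of cubical homology

PROOF (complete). `HU.Ch X n = C(Cb n, X) →₀ ℤ` (not divided by the degenerate cubes), `H4.CU.Ch ℤ X n = HU.Ch X n ⧸ degs ℤ X n`. `HU.DCh X n = degs ℤ X n` (as submodules): a cube is degenerate in the sense of `HU.Deg` (`s = t.comp (pr i)`) iff it is in the sense of
`H4.CU.Deg` (`σ (update x i t) = σ x`): for the second direction take `t = σ.comp (fc i 0)`, `σ x = σ (update x i 0) = σ (fc i 0 (pr i x))`; in dimension `0` both are false.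
`mk (HU.bd z) = - dC (mk z)` (`HU.bd` has the sign `face 1 - face 0`; `HU.Fc s i e = face i e s` by `rfl` or `ext`), both linear, check on `single`.
Let `z` with `bd z ∈ DCh`: `dC (mk z) = 0`, so `mk z = dC w'`, `w' = mk w` (`Submodule.Quotient.mk_surjective`), so `mk (z + bd w) = 0`, i.e. `z - bd (-w) ∈ DCh`.
-/

set_option autoImplicit false

namespace Pool.H93.HM

open Pool.Agent.H4.CU

private theorem deg_iff {X : Type} [TopologicalSpace X] : ∀ {n : ℕ} (s : C(Pool.H93.HU.Cb n, X)),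
    Pool.H93.HU.Deg s ↔ Pool.Agent.H4.CU.Deg (Z := X) (n := n) s
  | 0, s => ⟨fun h => h.elim, fun ⟨i, _⟩ => i.elim0⟩
  | n + 1, s => by
    constructor
    · rintro ⟨i, t, rfl⟩
      refine ⟨i, fun x u => ?_⟩
      rw [ContinuousMap.comp_apply, ContinuousMap.comp_apply]
      congr 1
      funext j
      show Function.update x i u (i.succAbove j) = x (i.succAbove j)
      rw [Function.update_of_ne (Fin.succAbove_ne i j)]
    · rintro ⟨i, hi⟩
      refine ⟨i, s.comp (Pool.H93.HU.fc i 0), ?_⟩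
      ext x
      rw [ContinuousMap.comp_apply, ContinuousMap.comp_apply, ← hi x 0]
      congr 1
      funext j
      by_cases hj : j = i
      · subst hj
        rw [Function.update_self]
        exact (Fin.insertNth_apply_same (α := fun _ => unitInterval) j 0 _).symm
      · obtain ⟨k, rfl⟩ := Fin.exists_succAbove_eq hj
        rw [Function.update_of_ne hj]
        exact (Fin.insertNth_apply_succAbove (α := fun _ => unitInterval) i 0
          (Pool.H93.HU.pr i x) k).symm

private theorem dch_eq {X : Type} [TopologicalSpace X] (n : ℕ) :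
    Pool.H93.HU.DCh X n = degs ℤ X n := by
  unfold Pool.H93.HU.DCh degs
  congr 1
  ext c
  constructor
  · rintro ⟨s, hs, rfl⟩
    exact ⟨s, (deg_iff s).1 hs, rfl⟩
  · rintro ⟨s, hs, rfl⟩
    exact ⟨s, (deg_iff s).2 hs, rfl⟩

private theorem mk_bd {X : Type} [TopologicalSpace X] (n : ℕ) (z : Pool.H93.HU.Ch X (n + 1)) :
    (Submodule.Quotient.mk (Pool.H93.HU.bd z) : Ch ℤ X n) =
      - dC ℤ X n (Submodule.Quotient.mk z) := by
  have h : (degs ℤ X n).mkQ ∘ₗ (Pool.H93.HU.bd (X := X) (n := n)) =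
      - (dC ℤ X n ∘ₗ (degs ℤ X (n + 1)).mkQ) := by
    refine Finsupp.lhom_ext' fun s => LinearMap.ext_ring ?_
    simp only [LinearMap.comp_apply, LinearMap.neg_apply, Finsupp.lsingle_apply,
      Submodule.mkQ_apply]
    have h1 : (Submodule.Quotient.mk (Finsupp.single s (1 : ℤ)) : Ch ℤ X (n + 1)) = gC ℤ s := rfl
    rw [h1, dC_gC]
    unfold Pool.H93.HU.bd
    rw [Finsupp.linearCombination_single, one_smul, ← Submodule.mkQ_apply, map_sum,
      ← Finset.sum_neg_distrib]
    refine Finset.sum_congr rfl fun i _ => ?_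
    rw [map_smul, map_sub, ← smul_neg, neg_sub]
    rfl
  exact congrArg (fun f => f z) h

theorem acyc_of {X : Type} [TopologicalSpace X] {p : ℕ}
    (h : ∀ z : Ch ℤ X (p + 1), dC ℤ X p z = 0 → z ∈ LinearMap.range (dC ℤ X (p + 1))) :
    Pool.H93.HU.Acyc X p := by
  intro z hz
  rw [dch_eq] at hz
  have h1 : (Submodule.Quotient.mk (Pool.H93.HU.bd z) : Ch ℤ X p) = 0 :=
    (Submodule.Quotient.mk_eq_zero _).2 hz
  rw [mk_bd, neg_eq_zero] at h1
  obtain ⟨w', hw'⟩ := h _ h1
  obtain ⟨w, rfl⟩ := Submodule.Quotient.mk_surjective _ w'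
  refine ⟨-w, ?_⟩
  rw [dch_eq]
  have h2 : (Submodule.Quotient.mk (z - Pool.H93.HU.bd (-w)) : Ch ℤ X (p + 1)) = 0 := by
    rw [map_neg, sub_neg_eq_add, Submodule.Quotient.mk_add, mk_bd, hw', add_neg_cancel]
  exact (Submodule.Quotient.mk_eq_zero _).1 h2

end Pool.H93.HM
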