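import Pool.Agent.H93.HM.Qis

/-!
# [H93 HM FIV] The five lemma

PROOF (complete; `mem_zc_succ`, `mem_bd`; in degree `0` there is no condition on `d`; `⊥ n = ⊥`).
sur: `z ∈ B' n`, `d z = 0`. By `h2.sur`: `z - j β = d b' + a'`, `d β ∈ A`, `j (d β) = - d a'`, so by `h1.inj` (`d β` is a cycle in `A`) `d β = d α`, `α ∈ A n`. `β - α` is a cycle and
`z - j (β - α) = d b' + (a' + j α)`, `a' + j α ∈ A' n` is a cycle; by `h1.sur` `a' + j α - j α' = d a''`, `α'` a cycle in `A`. So `z - j (β - α + α') ∈ d B'`.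
inj: `β ∈ B n`, `d β = 0`, `j β = d b'`. `h2.inj`: `β = d b + a`, `d a = 0`, `j a = d (b' - j b)`. `b' - j b ∈ Zc B' A' (n + 1)`; `h2.sur`: `b' - j b - j γ = d b'' + a''`, `γ ∈ B (n + 1)`, `d γ ∈ A n`. So
`j a = j (d γ) + d a''`, `h1.inj` for the cycle `a - d γ`: `a - d γ = d α`. `β = d (b + γ + α)`.
-/

set_option autoImplicit false

namespace Pool.H93.HM

open Pool.Agent.H4.CU

variable {R : Type} [CommRing R]

private theorem zc_d {K : Cx R} {A B : Fam K} {n : ℕ} {y : K.M (n + 1)} (h : K.d n y ∈ A n) :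
    K.d n y ∈ Zc K A B n := by
  cases n with
  | zero => exact h
  | succ n =>
    rw [mem_zc_succ]
    refine ⟨h, ?_⟩
    rw [K.dd]
    exact zero_mem _

private theorem zc_le {K : Cx R} {A B : Fam K} {n : ℕ} {x : K.M n} (h : x ∈ Zc K B ⊥ n) :
    x ∈ Zc K B A n := by
  cases n with
  | zero => exact h
  | succ n =>
    rw [mem_zc_succ] at h ⊢
    refine ⟨h.1, ?_⟩
    have h1 : K.d n x = 0 := (Submodule.mem_bot R).1 h.2
    rw [h1]
    exact zero_mem _

private theorem zc_diff {K : Cx R} {A B : Fam K} {n : ℕ} {x a : K.M n} {b : K.M (n + 1)}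
    (h : x ∈ Zc K B ⊥ n) (ha : a ∈ A n) (e : K.d n b + a = x) : a ∈ Zc K A ⊥ n := by
  cases n with
  | zero => exact ha
  | succ n =>
    rw [mem_zc_succ] at h ⊢
    refine ⟨ha, ?_⟩
    have h1 : K.d n x = 0 := (Submodule.mem_bot R).1 h.2
    have h2 : K.d n a = 0 := by
      rw [← e, map_add, K.dd, zero_add] at h1
      exact h1
    rw [h2]
    exact zero_mem _

theorem five {K K' : Cx R} {j : ∀ n, K.M n →ₗ[R] K'.M n}
    (hj : ∀ n x, j n (K.d n x) = K'.d n (j (n + 1) x)) {A B : Fam K} {A' B' : Fam K'}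
    (hA : Sc K A) (hB : Sc K B) (hA' : Sc K' A') (hB' : Sc K' B') (hAB : A ≤ B) (hAB' : A' ≤ B')
    (jA : ∀ n, ∀ x ∈ A n, j n x ∈ A' n) (jB : ∀ n, ∀ x ∈ B n, j n x ∈ B' n)
    (h1 : Qis j A ⊥ A' ⊥) (h2 : Qis j B A B' A') : Qis j B ⊥ B' ⊥ := by
  refine ⟨fun n z hz => ?_, fun n β hβ h3 => ?_⟩
  · cases n with
    | zero =>
      obtain ⟨β, hβ, hb⟩ := h2.sur 0 z hz
      obtain ⟨b', hb', a', ha', e⟩ := mem_bd.1 hb
      obtain ⟨α, hα, hc⟩ := h1.sur 0 a' ha'
      obtain ⟨a'', ha'', c, hc0, e2⟩ := mem_bd.1 hc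
      have hc1 : c = 0 := (Submodule.mem_bot R).1 hc0
      rw [hc1, add_zero] at e2
      refine ⟨β + α, add_mem hβ (hAB 0 hα), mem_bd.2 ⟨b' + a'', add_mem hb' (hAB' _ ha''), 0,
        zero_mem _, ?_⟩⟩
      calc K'.d 0 (b' + a'') + 0 = (K'.d 0 b' + a') + (K'.d 0 a'') - a' := by
            rw [map_add]; abel
        _ = (z - j 0 β) + (a' - j 0 α) - a' := by rw [e, e2]
        _ = z - j 0 (β + α) := by rw [map_add]; abel
    | succ n =>
      rw [mem_zc_succ] at hz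
      have hz0 : K'.d n z = 0 := (Submodule.mem_bot R).1 hz.2
      have hz' : z ∈ Zc K' B' A' (n + 1) := by
        rw [mem_zc_succ, hz0]
        exact ⟨hz.1, zero_mem _⟩
      obtain ⟨β, hβ, hb⟩ := h2.sur (n + 1) z hz'
      obtain ⟨b', hb', a', ha', e⟩ := mem_bd.1 hb
      rw [mem_zc_succ] at hβ
      have e1 : j n (K.d n β) = K'.d n (-a') := by
        have h4 := congrArg (K'.d n) e
        rw [map_add, K'.dd, zero_add, map_sub, hz0, zero_sub, ← hj] at h4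
        rw [map_neg, h4, neg_neg]
      have h5 : j n (K.d n β) ∈ Bd K' A' ⊥ n :=
        mem_bd.2 ⟨-a', neg_mem ha', 0, zero_mem _, by rw [add_zero, e1]⟩
      obtain ⟨α, hα, c, hc0, e2⟩ := mem_bd.1 (h1.inj n (K.d n β) (zc_d hβ.2) h5)
      have hc1 : c = 0 := (Submodule.mem_bot R).1 hc0
      rw [hc1, add_zero] at e2
      have h6 : a' + j (n + 1) α ∈ Zc K' A' ⊥ (n + 1) := by
        rw [mem_zc_succ]
        refine ⟨add_mem ha' (jA _ _ hα), ?_⟩
        have h7 : K'.d n (a' + j (n + 1) α) = 0 := by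
          rw [map_add, ← hj, e2, e1, map_neg, add_neg_cancel]
        rw [h7]
        exact zero_mem _
      obtain ⟨α', hα', hd⟩ := h1.sur (n + 1) _ h6
      obtain ⟨a'', ha'', c', hc0', e3⟩ := mem_bd.1 hd
      have hc1' : c' = 0 := (Submodule.mem_bot R).1 hc0'
      rw [hc1', add_zero] at e3
      rw [mem_zc_succ] at hα'
      have hα0 : K.d n α' = 0 := (Submodule.mem_bot R).1 hα'.2
      refine ⟨β - α + α', ?_, mem_bd.2 ⟨b' + a'', add_mem hb' (hAB' _ ha''), 0, zero_mem _, ?_⟩⟩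
      · rw [mem_zc_succ]
        refine ⟨add_mem (sub_mem hβ.1 (hAB _ hα)) (hAB _ hα'.1), ?_⟩
        have h7 : K.d n (β - α + α') = 0 := by
          rw [map_add, map_sub, e2, hα0, sub_self, add_zero]
        rw [h7]
        exact zero_mem _
      · calc K'.d (n + 1) (b' + a'') + 0
            = (K'.d (n + 1) b' + a') + K'.d (n + 1) a'' - a' := by rw [map_add]; abel
          _ = (z - j (n + 1) β) + (a' + j (n + 1) α - j (n + 1) α') - a' := by rw [e, e3]
          _ = z - j (n + 1) (β - α + α') := by rw [map_add, map_sub]; abel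
  · obtain ⟨b', hb', c, hc0, e⟩ := mem_bd.1 h3
    have hc1 : c = 0 := (Submodule.mem_bot R).1 hc0
    rw [hc1, add_zero] at e
    obtain ⟨b, hb, a, ha, e1⟩ := mem_bd.1 (h2.inj n β (zc_le hβ)
      (mem_bd.2 ⟨b', hb', 0, zero_mem _, by rw [add_zero, e]⟩))
    have ha1 : a ∈ Zc K A ⊥ n := zc_diff hβ ha e1
    have e2 : K'.d n (b' - j (n + 1) b) = j n a := by
      rw [map_sub, e, ← hj, ← map_sub, ← e1, add_sub_cancel_left]
    have h4 : b' - j (n + 1) b ∈ Zc K' B' A' (n + 1) := by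
      rw [mem_zc_succ, e2]
      exact ⟨sub_mem hb' (jB _ _ hb), jA _ _ ha⟩
    obtain ⟨g, hg, h5⟩ := h2.sur (n + 1) _ h4
    rw [mem_zc_succ] at hg
    obtain ⟨b'', hb'', a'', ha'', e3⟩ := mem_bd.1 h5
    have e4 : j n (a - K.d n g) = K'.d n a'' := by
      have h6 := congrArg (K'.d n) e3
      rw [map_add, K'.dd, zero_add, map_sub, e2, ← hj] at h6
      rw [map_sub, h6]
    have h7 : a - K.d n g ∈ Zc K A ⊥ n := sub_mem ha1 (zc_d hg.2)
    obtain ⟨α, hα, c', hc0', e5⟩ := mem_bd.1 (h1.inj n _ h7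
      (mem_bd.2 ⟨a'', ha'', 0, zero_mem _, by rw [add_zero, e4]⟩))
    have hc1' : c' = 0 := (Submodule.mem_bot R).1 hc0'
    rw [hc1', add_zero] at e5
    refine mem_bd.2 ⟨b + g + α, add_mem (add_mem hb hg.1) (hAB _ hα), 0, zero_mem _, ?_⟩
    rw [map_add, map_add, e5, ← e1]
    abel

end Pool.H93.HM
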