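import Pool.Agent.H93.HM.Poq
import Pool.Agent.H93.HM.Clr
import Pool.Agent.H4.CU.HTP
import Pool.Agent.H18.AR.HcT

/-!
# [H93 HM HCH] The homology of the double mapping cylinder

`H_(n+2)(HC d₀ d₁) = 0` if `d₁ - d₀` is surjective on `H_(n+2)` and injective on `H_(n+1)`.

PROOF (complete). `N = HC d0 d1`, `vt : C(V, N)`, `ed : C(E × I, N)`, `i₀, i₁ : C(E, E × I)` the two ends, `π : C(E × I, E)`; `ed ∘ i₀ = vt ∘ d₀`, `ed ∘ i₁ = vt ∘ d₁`. All maps on chains are `mapC`, chain maps (`dC_mapC`).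
`K = PC` of the homotopy `J × E → E × J`, `(t, e) ↦ (e, t)`: `d K u + K d u = i₀ u - i₁ u`; `π K u = 0` (the prism of a constant homotopy is degenerate: `mapC π (PC ..)` of a cube does not depend on the coordinate `0`).
`H = PC` of the homotopy `J × (E × J) → E × J`, `(s, (e, t)) ↦ (e, t * symm s)`: `d H x + H d x = x - i₀ π x`.
Let `z ∈ Ch N (n + 2)`, `d z = 0`. `po_qis` (`hc_data`, `collar_hc`, `LCS (E × unitInterval)` by `lcs_prod`): `z - ed β = d w + a`, `a ∈ subC (range vt)`, so `a = vt v` (`lift` with `V = univ`, or `PO.jY` is an embedding `vt_closedEmbedding`), `d β ∈ subC (hcA E)`.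
(1) `d β = i₀ x₀ + i₁ x₁` with `x₀ x₁ ∈ Ch E (n + 1)`: a cube in `hcA E = {t = 0} ∪ {t = 1}` lies in one of the two (the cube is preconnected), so it is `i₀ ∘ π ∘ σ` or `i₁ ∘ π ∘ σ`; span induction. `d x₀ = 0`, `d x₁ = 0`: `0 = d d β = i₀ d x₀ + i₁ d x₁`;
apply `toFun` which keeps the cubes inside `{t = 1}` (`subC_inf`: `i₁ d x₁ = - i₀ d x₀ ∈ subC {t = 1} ⊓ subC {t = 0} = subC ∅ = ⊥`, and `π i₁ = id`).
(2) `0 = d z = ed (d β) + vt (d v) = vt (d₀ x₀ + d₁ x₁ + d v)`, `vt` is injective on chains (`inj` with `V = univ`): `d₀ x₀ + d₁ x₁ = - d v`. `x₀ + x₁ = π (d β) = d (π β)`. So `d₁ x₁ - d₀ x₁ = - d v - d₀ (x₀ + x₁) = d (- v - d₀ π β)`; by `hi` `x₁ = d u`.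
(3) `γ = β + K x₁ - i₀ π β`: `d γ = i₀ x₀ + i₁ x₁ + (i₀ x₁ - i₁ x₁) - i₀ (x₀ + x₁) = 0`, `π γ = 0`, so `γ = γ - i₀ π γ = d H γ`. So `β = - K x₁ + i₀ π β + d H γ`, `K x₁ = K d u = i₀ u - i₁ u - d K u`.
`z = d(...) + ed β + vt v = d(...) + vt v'`, `v' = v + d₀ π β - d₀ u + d₁ u`. `vt (d v') = 0`, so `d v' = 0`; by `hs` `v' = d₁ e - d₀ e + d y`, `vt (d₁ e - d₀ e) = ed (i₁ e - i₀ e) = - ed (d K e)` (`d e = 0`). So `z ∈ range d`.
-/

set_option autoImplicit false

namespace Pool.H93.HM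

open Pool.Agent.H4.CU Pool.Agent.H18.AR

private theorem dm {R : Type} [CommRing R] {Z Z' : Type} [TopologicalSpace Z]
    [TopologicalSpace Z'] {n : ℕ} (f : C(Z, Z')) (x : Ch R Z (n + 1)) :
    dC R Z' n (mapC R (n + 1) f x) = mapC R n f (dC R Z n x) :=
  congrArg (fun g => g x) (dC_mapC (R := R) (n := n) f)

private theorem mm {R : Type} [CommRing R] {Z Z' Z'' : Type} [TopologicalSpace Z]
    [TopologicalSpace Z'] [TopologicalSpace Z''] {n : ℕ} (f : C(Z, Z')) (g : C(Z', Z''))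
    (x : Ch R Z n) : mapC R n g (mapC R n f x) = mapC R n (g.comp f) x :=
  (congrArg (fun h => h x) (mapC_comp (R := R) (n := n) f g)).symm

private theorem mid {R : Type} [CommRing R] {Z : Type} [TopologicalSpace Z] {n : ℕ}
    (x : Ch R Z n) : mapC R n (ContinuousMap.id Z) x = x :=
  congrArg (fun h => h x) (mapC_id (R := R) (Z := Z) (n := n))

private theorem m_range {R : Type} [CommRing R] {Z Z' : Type} [TopologicalSpace Z]
    [TopologicalSpace Z'] {n : ℕ} (f : C(Z, Z')) (S : Set Z') (h : ∀ z, f z ∈ S)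
    (x : Ch R Z n) : mapC R n f x ∈ subC R n S := by
  have h1 : x ∈ Submodule.span R (Set.range (gC R : Cb Z n → Ch R Z n)) := by
    rw [ch_span]
    exact Submodule.mem_top
  induction h1 using Submodule.span_induction with
  | mem y hy =>
    obtain ⟨σ, rfl⟩ := hy
    rw [mapC_gC]
    refine gC_mem ?_
    rintro _ ⟨t, rfl⟩
    exact h _
  | zero =>
    rw [map_zero]
    exact zero_mem _
  | add a b _ _ ha hb =>
    rw [map_add]
    exact add_mem ha hb
  | smul c a _ ha =>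
    rw [map_smul]
    exact Submodule.smul_mem _ _ ha

section

variable {R : Type} [CommRing R] {E : Type} [TopologicalSpace E]

/-- the end `0` -/
private def i0 (E : Type) [TopologicalSpace E] : C(E, E × J) := ⟨fun e => (e, 0), by fun_prop⟩

/-- the end `1` -/
private def i1 (E : Type) [TopologicalSpace E] : C(E, E × J) := ⟨fun e => (e, 1), by fun_prop⟩

/-- the projection -/
private def pi1 (E : Type) [TopologicalSpace E] : C(E × J, E) := ⟨fun x => x.1, by fun_prop⟩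

/-- the homotopy between the two ends -/
private def kh (E : Type) [TopologicalSpace E] : C(J × E, E × J) :=
  ⟨fun x => (x.2, x.1), by fun_prop⟩

/-- the homotopy to the end `0` -/
private def hh (E : Type) [TopologicalSpace E] : C(J × (E × J), E × J) :=
  ⟨fun x => (x.2.1, x.2.2 * unitInterval.symm x.1), by fun_prop⟩

private theorem pi_i0 {n : ℕ} (x : Ch R E n) : mapC R n (pi1 E) (mapC R n (i0 E) x) = x := by
  rw [mm]
  exact mid x

private theorem pi_i1 {n : ℕ} (x : Ch R E n) : mapC R n (pi1 E) (mapC R n (i1 E) x) = x := by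
  rw [mm]
  exact mid x

private theorem kh_d {n : ℕ} (x : Ch R E (n + 1)) :
    dC R (E × J) (n + 1) (PC R (n + 1) (kh E) x) + PC R n (kh E) (dC R E n x) =
      mapC R (n + 1) (i0 E) x - mapC R (n + 1) (i1 E) x :=
  dC_PC (kh E) x

private theorem hh_d {n : ℕ} (x : Ch R (E × J) (n + 1)) :
    dC R (E × J) (n + 1) (PC R (n + 1) (hh E) x) + PC R n (hh E) (dC R (E × J) n x) =
      x - mapC R (n + 1) (i0 E) (mapC R (n + 1) (pi1 E) x) := by
  have h := dC_PC (R := R) (hh E) x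
  have e0 : slice (hh E) 0 = ContinuousMap.id (E × J) := by
    ext y
    · rfl
    · change ((y.2 * unitInterval.symm 0 : J) : ℝ) = (y.2 : ℝ)
      rw [unitInterval.symm_zero, mul_one]
  have e1 : slice (hh E) 1 = (i0 E).comp (pi1 E) := by
    ext y
    · rfl
    · change ((y.2 * unitInterval.symm 1 : J) : ℝ) = ((0 : J) : ℝ)
      rw [unitInterval.symm_one, mul_zero]
  rw [h, e0, e1, mid, mm]

private theorem pi_kh {n : ℕ} (x : Ch R E n) :
    mapC R (n + 1) (pi1 E) (PC R n (kh E) x) = 0 := by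
  have h : mapC R (n + 1) (pi1 E) ∘ₗ PC R n (kh E) = 0 := by
    refine ch_ext fun σ => ?_
    rw [LinearMap.comp_apply, PC_gC, mapC_gC, LinearMap.zero_apply]
    refine gC_deg R ⟨0, fun x t => ?_⟩
    change σ (fun i => Function.update x 0 t i.succ) = σ (fun i => x i.succ)
    congr 1
  exact congrArg (fun g => g x) h

private theorem ends {n : ℕ} (c : Ch R (E × J) n) (hc : c ∈ subC R n (hcA E)) :
    ∃ a b : Ch R E n, c = mapC R n (i0 E) a + mapC R n (i1 E) b := by
  unfold subC at hc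
  induction hc using Submodule.span_induction with
  | mem y hy =>
    obtain ⟨σ, hσ, rfl⟩ := hy
    have hs : Continuous (fun x : Qb n => (σ x).2) := continuous_snd.comp σ.continuous
    have hcl0 : IsClosed {x : Qb n | (σ x).2 = 0} := isClosed_eq hs continuous_const
    have hcl1 : IsClosed {x : Qb n | (σ x).2 = 1} := isClosed_eq hs continuous_const
    have hcomp : {x : Qb n | (σ x).2 = 0}ᶜ = {x : Qb n | (σ x).2 = 1} := by
      ext x
      constructor
      · intro hx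
        rcases hσ ⟨x, rfl⟩ with h | h
        · exact absurd h hx
        · exact h
      · intro hx h0
        have h1 : (σ x).2 = 1 := hx
        have h0' : (σ x).2 = 0 := h0
        rw [h1] at h0'
        exact one_ne_zero h0'
    have hclop : IsClopen {x : Qb n | (σ x).2 = 0} := by
      refine ⟨hcl0, ?_⟩
      rw [← isClosed_compl_iff, hcomp]
      exact hcl1
    rcases isClopen_iff.1 hclop with h | h
    · refine ⟨0, gC R ((pi1 E).comp σ), ?_⟩
      rw [map_zero, zero_add, mapC_gC]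
      congr 1
      have h1 : ∀ x, (σ x).2 = 1 := by
        intro x
        have hx : x ∈ {x : Qb n | (σ x).2 = 0}ᶜ := by
          rw [h]
          exact Set.notMem_empty x
        rw [hcomp] at hx
        exact hx
      apply ContinuousMap.ext
      intro x
      exact Prod.ext rfl (h1 x)
    · refine ⟨gC R ((pi1 E).comp σ), 0, ?_⟩
      rw [map_zero, add_zero, mapC_gC]
      congr 1
      have h1 : ∀ x, (σ x).2 = 0 := by
        intro x
        have hx : x ∈ {x : Qb n | (σ x).2 = 0} := by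
          rw [h]
          exact Set.mem_univ x
        exact hx
      apply ContinuousMap.ext
      intro x
      exact Prod.ext rfl (h1 x)
  | zero => exact ⟨0, 0, by rw [map_zero, map_zero, add_zero]⟩
  | add x y _ _ hx hy =>
    obtain ⟨a, b, rfl⟩ := hx
    obtain ⟨a', b', rfl⟩ := hy
    exact ⟨a + a', b + b', by rw [map_add, map_add]; abel⟩
  | smul r x _ hx =>
    obtain ⟨a, b, rfl⟩ := hx
    exact ⟨r • a, r • b, by rw [map_smul, map_smul, smul_add]⟩

private theorem ends_inj {n : ℕ} (a b : Ch R E n)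
    (h : mapC R n (i0 E) a + mapC R n (i1 E) b = 0) : a = 0 ∧ b = 0 := by
  have h0 : mapC R n (i0 E) a ∈ subC R n {x : E × J | x.2 = 0} :=
    m_range (i0 E) _ (fun _ => rfl) a
  have h1 : mapC R n (i1 E) b ∈ subC R n {x : E × J | x.2 = 1} :=
    m_range (i1 E) _ (fun _ => rfl) b
  have h2 : mapC R n (i1 E) b = - mapC R n (i0 E) a := (neg_eq_of_add_eq_zero_right h).symm
  have h3 : mapC R n (i1 E) b ∈ subC R n {x : E × J | x.2 = 0} := by
    rw [h2]
    exact neg_mem h0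
  have h4 : mapC R n (i1 E) b ∈ subC R n {x : E × J | x.2 = 0} ⊓
      subC R n {x : E × J | x.2 = 1} := ⟨h3, h1⟩
  have he : {x : E × J | x.2 = 0} ∩ {x : E × J | x.2 = 1} = ∅ := by
    ext x
    constructor
    · rintro ⟨hx0, hx1⟩
      have hx0' : x.2 = 0 := hx0
      have hx1' : x.2 = 1 := hx1
      rw [hx0'] at hx1'
      exact absurd hx1' zero_ne_one
    · intro hx
      exact absurd hx (Set.notMem_empty x)
  rw [subC_inf, he, subC_empty, Submodule.mem_bot] at h4
  have hb : b = 0 := by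
    rw [← pi_i1 b, h4, map_zero]
  have ha : a = 0 := by
    rw [h4, add_zero] at h
    rw [← pi_i0 a, h, map_zero]
  exact ⟨ha, hb⟩

end

theorem hc_acyc (R : Type) [CommRing R] {V E : Type} [TopologicalSpace V] [TopologicalSpace E]
    (d₀ d₁ : C(E, V)) (hV : LCS V) (hE : LCS E) (h0 : IsProperMap d₀) (h1 : IsProperMap d₁) (n : ℕ)
    (hs : ∀ v : Ch R V (n + 2), dC R V (n + 1) v = 0 → ∃ e : Ch R E (n + 2),
      dC R E (n + 1) e = 0 ∧
        v - (mapC R (n + 2) d₁ e - mapC R (n + 2) d₀ e) ∈ LinearMap.range (dC R V (n + 2)))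
    (hi : ∀ e : Ch R E (n + 1), dC R E n e = 0 →
      mapC R (n + 1) d₁ e - mapC R (n + 1) d₀ e ∈ LinearMap.range (dC R V (n + 1)) →
        e ∈ LinearMap.range (dC R E (n + 1)))
    (z : Ch R (HC d₀ d₁) (n + 2)) (hz : dC R (HC d₀ d₁) (n + 1) z = 0) :
    z ∈ LinearMap.range (dC R (HC d₀ d₁) (n + 2)) := by
  have hD : POData (hcA E) (hcφ d₀ d₁) := HC.hc_data hV hE h0 h1
  have hB : LCS (E × unitInterval) := lcs_prod hE lcs_compact
  let vt : C(V, HC d₀ d₁) := jYc (hcA E) (hcφ d₀ d₁)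
  let ed : C(E × J, HC d₀ d₁) := jBc (hcA E) (hcφ d₀ d₁)
  have c0 : ed.comp (i0 E) = vt.comp d₀ := by
    apply ContinuousMap.ext
    intro e
    exact HC.ed_zero (d0 := d₀) (d1 := d₁) e
  have c1 : ed.comp (i1 E) = vt.comp d₁ := by
    apply ContinuousMap.ext
    intro e
    exact HC.ed_one (d0 := d₀) (d1 := d₁) e
  have m0 : ∀ (m : ℕ) (x : Ch R E m), mapC R m ed (mapC R m (i0 E) x) =
      mapC R m vt (mapC R m d₀ x) := by
    intro m x
    rw [mm, mm, c0]
  have m1 : ∀ (m : ℕ) (x : Ch R E m), mapC R m ed (mapC R m (i1 E) x) =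
      mapC R m vt (mapC R m d₁ x) := by
    intro m x
    rw [mm, mm, c1]
  have hemb : Topology.IsEmbedding (fun v : (Set.univ : Set V) => vt v) :=
    (PO.jY_closedEmbedding hD hV hB).isEmbedding.comp Topology.IsEmbedding.subtypeVal
  have vinj : ∀ (m : ℕ) (x : Ch R V m), mapC R m vt x = 0 → x = 0 := by
    intro m x hx
    refine inj R vt Set.univ hemb m x ?_ hx
    rw [subC_univ]
    exact Submodule.mem_top
  have q := po_qis R hD hV hB (collar_hc E)
  have key : ∃ (β : Ch R (E × J) (n + 2)) (w : Ch R (HC d₀ d₁) (n + 3))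
      (a : Ch R (HC d₀ d₁) (n + 2)), dC R (E × J) (n + 1) β ∈ subC R (n + 1) (hcA E) ∧
        a ∈ subC R (n + 2) (Set.range vt) ∧
        dC R (HC d₀ d₁) (n + 2) w + a = z - mapC R (n + 2) ed β := by
    obtain ⟨β, hβ, hzβ⟩ := q.sur (n + 2) z (mem_zc_succ.2 ⟨Submodule.mem_top, by
      change dC R (HC d₀ d₁) (n + 1) z ∈ _
      rw [hz]
      exact zero_mem _⟩)
    obtain ⟨w, -, a, ha, e1⟩ := mem_bd.1 hzβ
    exact ⟨β, w, a, (mem_zc_succ.1 hβ).2, ha, e1⟩
  obtain ⟨β, w, a, hdβ, ha, e2⟩ := key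
  have ha' : a ∈ subC R (n + 2) (vt '' Set.univ) := by
    rw [Set.image_univ]
    exact ha
  obtain ⟨v, -, hv⟩ := lift R vt Set.univ hemb (n + 2) a ha'
  have hzz : z = dC R (HC d₀ d₁) (n + 2) w + mapC R (n + 2) vt v + mapC R (n + 2) ed β := by
    rw [hv, e2]
    abel
  obtain ⟨x₀, x₁, hx⟩ := ends (dC R (E × J) (n + 1) β) hdβ
  have hdd : mapC R n (i0 E) (dC R E n x₀) + mapC R n (i1 E) (dC R E n x₁) = 0 := by
    have h2 := dC_dC R (E × J) n β
    rw [hx, map_add, dm, dm] at h2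
    exact h2
  obtain ⟨hd0, hd1⟩ := ends_inj _ _ hdd
  have hv0 : dC R V (n + 1) v + mapC R (n + 1) d₀ x₀ + mapC R (n + 1) d₁ x₁ = 0 := by
    apply vinj
    have h2 : dC R (HC d₀ d₁) (n + 1) z = 0 := hz
    rw [hzz, map_add, map_add, dC_dC, zero_add, dm, dm, hx, map_add, m0, m1] at h2
    rw [map_add, map_add, ← h2]
    abel
  have hsum : x₀ + x₁ = dC R E (n + 1) (mapC R (n + 2) (pi1 E) β) := by
    rw [dm, hx, map_add, pi_i0, pi_i1]
  obtain ⟨u, hu⟩ := hi x₁ hd1 ⟨- v - mapC R (n + 2) d₀ (mapC R (n + 2) (pi1 E) β), by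
    rw [map_sub, map_neg, dm, ← hsum, map_add]
    have h3 : dC R V (n + 1) v = - (mapC R (n + 1) d₀ x₀ + mapC R (n + 1) d₁ x₁) := by
      rw [eq_neg_iff_add_eq_zero, ← add_assoc]
      exact hv0
    rw [h3]
    abel⟩
  let K1 : Ch R (E × J) (n + 2) := PC R (n + 1) (kh E) x₁
  have hK1 : dC R (E × J) (n + 1) K1 = mapC R (n + 1) (i0 E) x₁ - mapC R (n + 1) (i1 E) x₁ := by
    have h3 := kh_d (R := R) x₁
    rw [hd1, map_zero, add_zero] at h3
    exact h3
  let Ku : Ch R (E × J) (n + 3) := PC R (n + 2) (kh E) u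
  have hKu : dC R (E × J) (n + 2) Ku + K1 =
      mapC R (n + 2) (i0 E) u - mapC R (n + 2) (i1 E) u := by
    have h3 := kh_d (R := R) u
    rw [hu] at h3
    exact h3
  let Bp : Ch R E (n + 2) := mapC R (n + 2) (pi1 E) β
  let γ : Ch R (E × J) (n + 2) := β + K1 - mapC R (n + 2) (i0 E) Bp
  have hdγ : dC R (E × J) (n + 1) γ = 0 := by
    change dC R (E × J) (n + 1) (β + K1 - mapC R (n + 2) (i0 E) Bp) = 0
    rw [map_sub, map_add, hx, hK1, dm, ← hsum, map_add]
    abel
  have hpγ : mapC R (n + 2) (pi1 E) γ = 0 := by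
    change mapC R (n + 2) (pi1 E) (β + K1 - mapC R (n + 2) (i0 E) Bp) = 0
    have h3 : mapC R (n + 2) (pi1 E) K1 = 0 := pi_kh x₁
    rw [map_sub, map_add, h3, pi_i0, add_zero]
    exact sub_self _
  let Hγ : Ch R (E × J) (n + 3) := PC R (n + 2) (hh E) γ
  have hHγ : dC R (E × J) (n + 2) Hγ = γ := by
    have h3 := hh_d (R := R) γ
    rw [hdγ, hpγ, map_zero, map_zero, add_zero, sub_zero] at h3
    exact h3
  have hβe : β = dC R (E × J) (n + 2) (Hγ + Ku) - mapC R (n + 2) (i0 E) u +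
      mapC R (n + 2) (i1 E) u + mapC R (n + 2) (i0 E) Bp := by
    have h3 : dC R (E × J) (n + 2) Ku =
        mapC R (n + 2) (i0 E) u - mapC R (n + 2) (i1 E) u - K1 := eq_sub_of_add_eq hKu
    rw [map_add, hHγ, h3]
    change β = (β + K1 - mapC R (n + 2) (i0 E) Bp) +
      (mapC R (n + 2) (i0 E) u - mapC R (n + 2) (i1 E) u - K1) - mapC R (n + 2) (i0 E) u +
      mapC R (n + 2) (i1 E) u + mapC R (n + 2) (i0 E) Bp
    abel
  let v' : Ch R V (n + 2) := v - mapC R (n + 2) d₀ u + mapC R (n + 2) d₁ u + mapC R (n + 2) d₀ Bp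
  have hz2 : z = dC R (HC d₀ d₁) (n + 2) (w + mapC R (n + 3) ed (Hγ + Ku)) +
      mapC R (n + 2) vt v' := by
    have h3 : mapC R (n + 2) ed β =
        dC R (HC d₀ d₁) (n + 2) (mapC R (n + 3) ed (Hγ + Ku)) -
        mapC R (n + 2) vt (mapC R (n + 2) d₀ u) + mapC R (n + 2) vt (mapC R (n + 2) d₁ u) +
        mapC R (n + 2) vt (mapC R (n + 2) d₀ Bp) := by
      rw [dm, ← m0, ← m1, ← m0, ← map_sub, ← map_add, ← map_add]
      exact congrArg _ hβe
    have h4 : mapC R (n + 2) vt v' = mapC R (n + 2) vt v -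
        mapC R (n + 2) vt (mapC R (n + 2) d₀ u) + mapC R (n + 2) vt (mapC R (n + 2) d₁ u) +
        mapC R (n + 2) vt (mapC R (n + 2) d₀ Bp) := by
      change mapC R (n + 2) vt (v - mapC R (n + 2) d₀ u + mapC R (n + 2) d₁ u +
        mapC R (n + 2) d₀ Bp) = _
      rw [map_add, map_add, map_sub]
    rw [map_add, h4]
    refine hzz.trans ?_
    rw [h3]
    abel
  have hdv' : dC R V (n + 1) v' = 0 := by
    apply vinj
    have h3 := hz
    rw [hz2, map_add, dC_dC, zero_add, dm] at h3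
    exact h3
  obtain ⟨e, he, y, hy⟩ := hs v' hdv'
  have hke : dC R (E × J) (n + 2) (PC R (n + 2) (kh E) e) =
      mapC R (n + 2) (i0 E) e - mapC R (n + 2) (i1 E) e := by
    have h3 := kh_d (R := R) e
    rw [he, map_zero, add_zero] at h3
    exact h3
  refine ⟨w + mapC R (n + 3) ed (Hγ + Ku) + mapC R (n + 3) vt y -
    mapC R (n + 3) ed (PC R (n + 2) (kh E) e), ?_⟩
  have h5 : mapC R (n + 2) vt v' = dC R (HC d₀ d₁) (n + 2) (mapC R (n + 3) vt y) -
      dC R (HC d₀ d₁) (n + 2) (mapC R (n + 3) ed (PC R (n + 2) (kh E) e)) := by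
    have h6 : mapC R (n + 2) ed (mapC R (n + 2) (i0 E) e - mapC R (n + 2) (i1 E) e) =
        mapC R (n + 2) vt (mapC R (n + 2) d₀ e) - mapC R (n + 2) vt (mapC R (n + 2) d₁ e) := by
      rw [map_sub, m0, m1]
    rw [dm, dm, hy, hke, h6, map_sub, map_sub]
    abel
  rw [map_sub, map_add]
  refine Eq.symm (hz2.trans ?_)
  rw [h5]
  abel

end Pool.H93.HM
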