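import Pool.Agent.H4.CU.ICJ

/-!
# [H93 HM DIS] Chains on the product with a discrete space

`toD : Ch R (D × Z) n → (D →₀ Ch R Z n)`, `gC σ ↦ single (σ 0).1 (gC (snd ∘ σ))` and its inverse `ofD`, `single d y ↦ mapC (inD d) y`.

PROOFS (complete). For `σ : C(Qb n, D × Z)` the function `x ↦ (σ x).1` is constant (`Qb n` is preconnected, `D` discrete: `IsPreconnected.constant` or `IsLocallyConstant`), so `σ = (inD d).comp (snd.comp σ)`, `d = (σ 0).1`.
`toD_deg`: `σ` degenerate implies `snd ∘ σ` degenerate (`Deg.comp`). `toD_ofD`, `ofD_toD`: on generators (`ch_ext`, `Finsupp.lhom_ext'`). `toD_dC`: on generators, `dC_gC`; the faces of `σ` have the same first coordinate. `toD_mapC`: generators.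
`toD_mem`: if `range σ ⊆ {x | x.2 ∈ A}` then `range (snd ∘ σ) ⊆ A`; conversely `x = ofD (toD x)` and `mapC (inD d)` maps `subC A` into `subC {x | x.2 ∈ A}` (span inductions; `Finsupp.sum` of elements of a submodule).
-/

set_option autoImplicit false

namespace Pool.H93.HM

open Pool.Agent.H4.CU

noncomputable section

variable (R : Type) [CommRing R] {D Z : Type} [TopologicalSpace D] [DiscreteTopology D]
  [TopologicalSpace Z]

/-- the inclusion of the fibre over `d` -/
def inD {D Z : Type} [TopologicalSpace D] [TopologicalSpace Z] (d : D) : C(Z, D × Z) :=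
  ⟨fun z => (d, z), by fun_prop⟩

/-- the second projection -/
def sndD {D Z : Type} [TopologicalSpace D] [TopologicalSpace Z] : C(D × Z, Z) :=
  ⟨Prod.snd, continuous_snd⟩

/-- the components of a chain -/
def toD (n : ℕ) : Ch R (D × Z) n →ₗ[R] (D →₀ Ch R Z n) :=
  liftC (fun σ => Finsupp.single (σ 0).1 (gC R ((sndD : C(D × Z, Z)).comp σ)))
    fun σ h => by rw [gC_deg R (h.comp sndD), Finsupp.single_zero]

theorem toD_gC (n : ℕ) (σ : Cb (D × Z) n) :
    toD R n (gC R σ) = Finsupp.single (σ 0).1 (gC R ((sndD : C(D × Z, Z)).comp σ)) :=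
  liftC_gC _ _ _

/-- the chain with given components -/
def ofD (n : ℕ) : (D →₀ Ch R Z n) →ₗ[R] Ch R (D × Z) n :=
  Finsupp.lsum R fun d => mapC R n (inD d)

private theorem fst_const {n : ℕ} (σ : Cb (D × Z) n) (x : Qb n) : (σ x).1 = (σ 0).1 := by
  have h1 : IsLocallyConstant fun x : Qb n => (σ x).1 :=
    (IsLocallyConstant.iff_continuous _).2 (continuous_fst.comp σ.continuous)
  exact h1.apply_eq_of_preconnectedSpace x 0

private theorem cb_eq {n : ℕ} (σ : Cb (D × Z) n) :
    (inD (σ 0).1 : C(Z, D × Z)).comp ((sndD : C(D × Z, Z)).comp σ) = σ := by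
  refine ContinuousMap.ext fun x => ?_
  exact Prod.ext (fst_const σ x).symm rfl

omit [DiscreteTopology D] in
private theorem snd_in (d : D) {n : ℕ} (σ : Cb Z n) :
    (sndD : C(D × Z, Z)).comp ((inD d : C(Z, D × Z)).comp σ) = σ := rfl

omit [DiscreteTopology D] in
private theorem ofD_single (n : ℕ) (d : D) (y : Ch R Z n) : ofD R n (Finsupp.single d y) = mapC R n (inD d) y := by
  unfold ofD
  rw [Finsupp.lsum_single]

theorem toD_mapC (n : ℕ) (d : D) (y : Ch R Z n) :
    toD R n (mapC R n (inD d) y) = Finsupp.single d y := by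
  have h1 : toD R n ∘ₗ mapC R n (inD d : C(Z, D × Z)) = Finsupp.lsingle d := by
    refine ch_ext fun σ => ?_
    rw [LinearMap.comp_apply, mapC_gC, toD_gC, Finsupp.lsingle_apply]
    rfl
  exact congrArg (fun f => f y) h1

theorem toD_ofD (n : ℕ) (c : D →₀ Ch R Z n) : toD R n (ofD R n c) = c := by
  induction c using Finsupp.induction_linear with
  | zero => rw [map_zero, map_zero]
  | add x y hx hy => rw [map_add, map_add, hx, hy]
  | single d y => rw [ofD_single, toD_mapC]

theorem ofD_toD (n : ℕ) (x : Ch R (D × Z) n) : ofD R n (toD R n x) = x := by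
  have h1 : ofD R n ∘ₗ toD R n = (LinearMap.id : Ch R (D × Z) n →ₗ[R] Ch R (D × Z) n) := by
    refine ch_ext fun σ => ?_
    rw [LinearMap.comp_apply, toD_gC, ofD_single, mapC_gC, cb_eq, LinearMap.id_apply]
  exact congrArg (fun f => f x) h1

theorem toD_dC (n : ℕ) (x : Ch R (D × Z) (n + 1)) (d : D) :
    toD R n (dC R (D × Z) n x) d = dC R Z n (toD R (n + 1) x d) := by
  have h1 : (Finsupp.lapply d ∘ₗ toD R n) ∘ₗ dC R (D × Z) n =
      dC R Z n ∘ₗ (Finsupp.lapply d ∘ₗ toD R (n + 1)) := by
    refine ch_ext fun σ => ?_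
    rw [LinearMap.comp_apply, LinearMap.comp_apply, LinearMap.comp_apply, LinearMap.comp_apply, toD_gC, dC_gC,
      map_sum, map_sum]
    by_cases hd : (σ 0).1 = d
    · rw [Finsupp.lapply_apply, hd, Finsupp.single_eq_same, dC_gC]
      refine Finset.sum_congr rfl fun i _ => ?_
      rw [map_smul, map_smul, map_sub, map_sub, toD_gC, toD_gC]
      have e0 : ∀ ε : J, ((face i ε σ) 0).1 = d := fun ε => (fst_const σ _).trans hd
      rw [e0, e0, Finsupp.lapply_apply, Finsupp.lapply_apply, Finsupp.single_eq_same, Finsupp.single_eq_same]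
      rfl
    · rw [Finsupp.lapply_apply, Finsupp.single_eq_of_ne (Ne.symm hd), map_zero]
      refine Finset.sum_eq_zero fun i _ => ?_
      rw [map_smul, map_smul, map_sub, map_sub, toD_gC, toD_gC]
      have e0 : ∀ ε : J, ((face i ε σ) 0).1 ≠ d := fun ε => by
        rw [show ((face i ε σ) 0).1 = (σ 0).1 from fst_const σ _]
        exact hd
      rw [Finsupp.lapply_apply, Finsupp.lapply_apply, Finsupp.single_eq_of_ne (e0 0).symm,
        Finsupp.single_eq_of_ne (e0 1).symm, sub_self, smul_zero]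
  exact congrArg (fun f => f x) h1

theorem toD_mem (n : ℕ) (A : Set Z) (x : Ch R (D × Z) n) :
    x ∈ subC R n {z : D × Z | z.2 ∈ A} ↔ ∀ d, toD R n x d ∈ subC R n A := by
  constructor
  · intro hx d
    have h1 : subC R n {z : D × Z | z.2 ∈ A} ≤ (subC R n A).comap (Finsupp.lapply d ∘ₗ toD R n) := by
      conv_lhs => unfold subC
      rw [Submodule.span_le]
      rintro c ⟨σ, hσ, rfl⟩
      rw [SetLike.mem_coe, Submodule.mem_comap, LinearMap.comp_apply, toD_gC, Finsupp.lapply_apply]
      by_cases hd : (σ 0).1 = d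
      · rw [hd, Finsupp.single_eq_same]
        refine gC_mem ?_
        rintro z ⟨y, rfl⟩
        exact hσ ⟨y, rfl⟩
      · rw [Finsupp.single_eq_of_ne (Ne.symm hd)]
        exact zero_mem _
    exact h1 hx
  · intro hx
    rw [← ofD_toD R n x]
    unfold ofD
    rw [Finsupp.lsum_apply]
    refine Submodule.sum_mem _ fun d _ => ?_
    have h1 : subC R n A ≤ (subC R n {z : D × Z | z.2 ∈ A}).comap (mapC R n (inD d)) := by
      conv_lhs => unfold subC
      rw [Submodule.span_le]
      rintro c ⟨σ, hσ, rfl⟩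
      rw [SetLike.mem_coe, Submodule.mem_comap, mapC_gC]
      refine gC_mem ?_
      rintro z ⟨y, rfl⟩
      exact hσ ⟨y, rfl⟩
    exact h1 (hx d)

end

end Pool.H93.HM
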