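import Pool.Agent.H93.HM.Cus
import Pool.Agent.H93.HM.Dis

/-!
# [H93 HM CEL] The homology of a family of cells

PROOFS (complete). Everything componentwise by `toD` (`toD_dC`, `toD_mem`, `toD_mapC`): `x ∈ Zc` iff all components `toD R n x f ∈ Zc` for `(Qb k, Bd k)`. `cells_ne`: for every `f` in the support choose `w f`, `a f` by `(pk R k).1`, and put `w = ofD (Finsupp.onFinset ..)`
(or: `x = ∑ f ∈ support, mapC (inD f) (toD x f)` by `ofD_toD`, and each summand is in the submodule `Bd`: `mapC (inD f)` maps `Bd` of `(Qb k, Bd k)` into `Bd`). `cells_eq`: the same with `(pk R k).2.1`: `toD x f - c_f • gC id ∈ Bd`, `c f = 0` outside the support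
of `toD x` (`Finsupp.onFinset` or choose `c f = 0` if `toD x f = 0`), `mapC (inD f) (gC id) = gC (inD f)` (`mapC_gC`, `ContinuousMap.comp_id`). `cells_inj`: component `f` of the sum is `c f • gC id` (`toD_gC`; `toD` of `gC (inD f)` is `single f (gC id)`), it is in
`Bd` of `(Qb k, Bd k)` (`toD_dC`, `toD_mem`), so `c f = 0` by `(pk R k).2.2`.
-/

set_option autoImplicit false

namespace Pool.H93.HM

open Pool.Agent.H4.CU

variable (R : Type) [CommRing R] {F : Type} [TopologicalSpace F] [DiscreteTopology F] (k : ℕ)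

/-- the boundary of the family of cells -/
def bF (F : Type) (k : ℕ) : Set (F × Qb k) := {x | x.2 ∈ Pool.H93.HU.Bd k}

variable {R k}

section aux

variable {Z : Type} [TopologicalSpace Z] {A : Set Z} {n : ℕ}

private theorem mem_bdT {x : Ch R Z n} : x ∈ Bd (CC R Z) ⊤ (subCF R A) n ↔
    ∃ (b : Ch R Z (n + 1)) (a : Ch R Z n), a ∈ subC R n A ∧ dC R Z n b + a = x := by
  refine Iff.trans (mem_bd (K := CC R Z) (x := x)) ?_
  constructor
  · rintro ⟨b, -, a, ha, h⟩
    exact ⟨b, a, ha, h⟩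
  · rintro ⟨b, a, ha, h⟩
    exact ⟨b, Submodule.mem_top, a, ha, h⟩

private theorem zcT {x : Ch R Z (n + 1)} : x ∈ Zc (CC R Z) ⊤ (subCF R A) (n + 1) ↔
    dC R Z n x ∈ subC R n A :=
  ⟨fun h => h.2, fun h => ⟨Submodule.mem_top, h⟩⟩

/-- the components of a relative cycle are relative cycles -/
private theorem comp_zc (x : Ch R (F × Z) n) (hx : x ∈ Zc (CC R (F × Z)) ⊤ (subCF R {z : F × Z | z.2 ∈ A}) n)
    (f : F) : toD R n x f ∈ Zc (CC R Z) ⊤ (subCF R A) n := by
  cases n with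
  | zero =>
    have h1 : toD R 0 x f ∈ (⊤ : Submodule R (Ch R Z 0)) := Submodule.mem_top
    exact h1
  | succ n =>
    refine zcT.2 ?_
    rw [← toD_dC]
    exact (toD_mem R n A _).1 (zcT.1 hx) f

omit [DiscreteTopology F] in
/-- the chain with components relative boundaries is a relative boundary -/
private theorem in_bd (f : F) (y : Ch R Z n) (hy : y ∈ Bd (CC R Z) ⊤ (subCF R A) n) :
    mapC R n (inD f) y ∈ Bd (CC R (F × Z)) ⊤ (subCF R {z : F × Z | z.2 ∈ A}) n := by
  obtain ⟨b, a, ha, rfl⟩ := mem_bdT.1 hy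
  refine mem_bdT.2 ⟨mapC R (n + 1) (inD f) b, mapC R n (inD f) a, ?_, ?_⟩
  · have h1 : subC R n A ≤ (subC R n {z : F × Z | z.2 ∈ A}).comap (mapC R n (inD f)) := by
      conv_lhs => unfold subC
      rw [Submodule.span_le]
      rintro c ⟨σ, hσ, rfl⟩
      rw [SetLike.mem_coe, Submodule.mem_comap, mapC_gC]
      refine gC_mem ?_
      rintro z ⟨y, rfl⟩
      exact hσ ⟨y, rfl⟩
    exact h1 ha
  · rw [map_add]
    congr 1
    exact congrArg (fun g => g b) (dC_mapC (R := R) (n := n) (inD f : C(Z, F × Z)))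

private theorem bd_comp (x : Ch R (F × Z) n)
    (hx : x ∈ Bd (CC R (F × Z)) ⊤ (subCF R {z : F × Z | z.2 ∈ A}) n)
    (f : F) : toD R n x f ∈ Bd (CC R Z) ⊤ (subCF R A) n := by
  obtain ⟨b, a, ha, rfl⟩ := mem_bdT.1 hx
  refine mem_bdT.2 ⟨toD R (n + 1) b f, toD R n a f, (toD_mem R n A a).1 ha f, ?_⟩
  rw [← toD_dC, map_add, Finsupp.add_apply]

private theorem bd_of_comp (x : Ch R (F × Z) n)
    (hx : ∀ f, toD R n x f ∈ Bd (CC R Z) ⊤ (subCF R A) n) :
    x ∈ Bd (CC R (F × Z)) ⊤ (subCF R {z : F × Z | z.2 ∈ A}) n := by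
  rw [← ofD_toD R n x]
  unfold ofD
  rw [Finsupp.lsum_apply]
  exact Submodule.sum_mem (Bd (CC R (F × Z)) ⊤ (subCF R {z : F × Z | z.2 ∈ A}) n)
    fun f _ => in_bd f _ (hx f)

end aux

private theorem toD_sum (c : F →₀ R) :
    toD R k (c.sum fun f a => a • gC R (inD f : Cb (F × Qb k) k)) =
      c.mapRange (fun a => a • gC R (ContinuousMap.id (Qb k))) (zero_smul _ _) := by
  induction c using Finsupp.induction_linear with
  | zero => rw [Finsupp.sum_zero_index, map_zero, Finsupp.mapRange_zero]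
  | add x y hx hy =>
    have h0 : ∀ f : F, (0 : R) • gC R (inD f : Cb (F × Qb k) k) = 0 := fun f => zero_smul R _
    have h1 : ∀ (f : F) (a b : R), (a + b) • gC R (inD f : Cb (F × Qb k) k) =
        a • gC R (inD f : Cb (F × Qb k) k) + b • gC R (inD f : Cb (F × Qb k) k) := fun f a b => add_smul a b _
    have h2 : (x + y).sum (fun f a => a • gC R (inD f : Cb (F × Qb k) k)) =
        x.sum (fun f a => a • gC R (inD f : Cb (F × Qb k) k)) +
          y.sum (fun f a => a • gC R (inD f : Cb (F × Qb k) k)) := Finsupp.sum_add_index' h0 h1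
    rw [h2, map_add, hx, hy]
    exact (Finsupp.mapRange_add (fun a b => add_smul a b _) x y).symm
  | single f a =>
    have h2 : (Finsupp.single f a).sum (fun f a => a • gC R (inD f : Cb (F × Qb k) k)) =
        a • gC R (inD f : Cb (F × Qb k) k) := Finsupp.sum_single_index (zero_smul R _)
    rw [h2, map_smul, toD_gC, Finsupp.mapRange_single, Finsupp.smul_single]
    rfl

variable (R k)

theorem cells_ne (n : ℕ) (h : n ≠ k) : Zc (CC R (F × Qb k)) ⊤ (subCF R (bF F k)) n ≤
    Bd (CC R (F × Qb k)) ⊤ (subCF R (bF F k)) n := by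
  intro x hx
  exact bd_of_comp x fun f => (pk R k).1 n h (comp_zc x hx f)

theorem cells_eq (x : Ch R (F × Qb k) k) (hx : x ∈ Zc (CC R (F × Qb k)) ⊤ (subCF R (bF F k)) k) :
    ∃ c : F →₀ R, x - (c.sum fun f a => a • gC R (inD f : Cb (F × Qb k) k)) ∈
      Bd (CC R (F × Qb k)) ⊤ (subCF R (bF F k)) k := by
  classical
  have h1 : ∀ f : F, ∃ c : R, toD R k x f - c • gC R (ContinuousMap.id (Qb k)) ∈
      Bd (CC R (Qb k)) ⊤ (subCF R (Pool.H93.HU.Bd k)) k ∧ (toD R k x f = 0 → c = 0) := by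
    intro f
    by_cases hf : toD R k x f = 0
    · refine ⟨0, ?_, fun _ => rfl⟩
      rw [hf, zero_smul, sub_zero]
      exact Submodule.zero_mem _
    · obtain ⟨c, hc⟩ := (pk R k).2.1 (toD R k x f) (comp_zc x hx f)
      exact ⟨c, hc, fun h => absurd h hf⟩
  choose c hc hc0 using h1
  refine ⟨Finsupp.onFinset (toD R k x).support c fun f hf => ?_, bd_of_comp _ fun f => ?_⟩
  · rw [Finsupp.mem_support_iff]
    exact fun h => hf (hc0 f h)
  · rw [map_sub, toD_sum, Finsupp.sub_apply, Finsupp.mapRange_apply, Finsupp.onFinset_apply]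
    exact hc f

theorem cells_inj (c : F →₀ R) (h : (c.sum fun f a => a • gC R (inD f : Cb (F × Qb k) k)) ∈
    Bd (CC R (F × Qb k)) ⊤ (subCF R (bF F k)) k) : c = 0 := by
  refine Finsupp.ext fun f => ?_
  have h1 := bd_comp _ h f
  rw [toD_sum, Finsupp.mapRange_apply] at h1
  exact (pk R k).2.2 _ h1

end Pool.H93.HM
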