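import Pool.Agent.H93.HM.Jka
import Pool.Agent.H93.HM.Clr

/-!
# [H93 HM TOP] The top face of the cube

PROOF (complete). `relhom` with `B = Qb k`, `Z = Qb (k + 1)`, `j = fc (last k) 1`, `A = Bd k` (`bd_closed`), the collar from `collar_cube k` (an open `NB ⊇ Bd k`, `dB`), `T = Bd (k + 1)`, `Y = Jk k`.
* `Jk k ⊆ Bd (k + 1)`, `j b ∈ Bd (k + 1)` (`fc_mem`). `hcov`: `x ∈ Bd (k + 1)` (`mem_Bd`), `x i = ep b`; if `x ∉ Jk` then `i = last`, `b = true`, so `x = fc last 1 (pr last x)` (`fc_pr`), and `pr last x ∉ Bd k`.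
* `hjA`: `fc last 1 b ∈ Jk k` iff some coordinate `i ≠ last` is `0` or `1`, i.e. `b ∈ Bd k` (`Fin.last k = succAbove`-complement: `i = (Fin.last k).succAbove i'`; `fc_same`, `fc_succAbove`; `fc last 1 b last = 1 ≠ 0`).
* `hemb`: `fc last 1` is an embedding of `Qb k` (left inverse `pr last`), so its restriction is one.
* `O₁ = {x | x last > 1/2 ∧ pr last x ∉ Bd k}` (open), `O₁ ∩ T = j '' (Bd k)ᶜ`. `O₂ = {x | x last < 1} ∪ {x | pr last x ∈ NB}` (open), `O₂ ∩ T = Jk k ∪ j '' NB`.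
* `D (x, t) = x` if `x ∈ Jk k`, else `fc last 1 (dB (pr last x, t))`. On `(Jk ∪ j '' NB) × univ` it is continuous: it is so on the closed set `Jk × univ` (`fst`) and on `(j '' NB) × univ`, which is relatively closed in
`(Jk ∪ j '' NB) × univ` (`j '' NB = {x | x last = 1} ∩ (Jk ∪ j '' NB)`...: a point of `Jk` with last coordinate `1` is `fc last 1 b` with `b ∈ Bd k ⊆ NB`); both formulas agree on the intersection (`dB (b, t) = b` for `b ∈ Bd k`).
(`ContinuousOn.union_of_isClosed` or `ContinuousOn.union_continuousAt`, or `continuousOn` of `Set.piecewise`.)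
-/

set_option autoImplicit false

namespace Pool.H93.HM

open Pool.Agent.H4.CU

open Pool.H93.HU (fc pr fc_same fc_succAbove pr_apply pr_fc fc_pr)

private theorem jk_closed (k : ℕ) : IsClosed (Jk k) := by
  have h : Jk k = ⋃ p : Fin (k + 1) × Bool,
      {x : Qb (k + 1) | ¬ (p.1 = Fin.last k ∧ p.2 = true) ∧ x p.1 = Pool.H93.HU.ep p.2} := by
    ext x
    rw [Set.mem_iUnion]
    constructor
    · rintro ⟨i, b, h1, h2⟩
      exact ⟨(i, b), h1, h2⟩
    · rintro ⟨⟨i, b⟩, h1, h2⟩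
      exact ⟨i, b, h1, h2⟩
  rw [h]
  refine isClosed_iUnion_of_finite fun p => ?_
  by_cases hp : p.1 = Fin.last k ∧ p.2 = true
  · have e : {x : Qb (k + 1) | ¬ (p.1 = Fin.last k ∧ p.2 = true) ∧
        x p.1 = Pool.H93.HU.ep p.2} = ∅ := by
      ext x
      exact ⟨fun hx => absurd hp hx.1, fun hx => absurd hx (Set.notMem_empty x)⟩
    rw [e]
    exact isClosed_empty
  · have e : {x : Qb (k + 1) | ¬ (p.1 = Fin.last k ∧ p.2 = true) ∧
        x p.1 = Pool.H93.HU.ep p.2} = {x : Qb (k + 1) | x p.1 = Pool.H93.HU.ep p.2} := by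
      ext x
      exact ⟨fun hx => hx.2, fun hx => ⟨hp, hx⟩⟩
    rw [e]
    exact isClosed_eq (continuous_apply p.1) continuous_const

private theorem jk_of_succ {k : ℕ} {x : Qb (k + 1)} (h : pr (Fin.last k) x ∈ Pool.H93.HU.Bd k) :
    x ∈ Jk k := by
  obtain ⟨i, h | h⟩ := h
  · exact ⟨(Fin.last k).succAbove i, false, fun h' => Fin.succAbove_ne _ _ h'.1, h⟩
  · exact ⟨(Fin.last k).succAbove i, true, fun h' => Fin.succAbove_ne _ _ h'.1, h⟩

private theorem jk_sub {k : ℕ} {x : Qb (k + 1)} (h : x ∈ Jk k) : x ∈ Pool.H93.HU.Bd (k + 1) := by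
  obtain ⟨i, b, -, h⟩ := h
  cases b
  · exact ⟨i, Or.inl h⟩
  · exact ⟨i, Or.inr h⟩

private theorem j_last {k : ℕ} (b : Qb k) : fc (Fin.last k) 1 b (Fin.last k) = 1 := fc_same _ _ _

private theorem j_bd {k : ℕ} (b : Qb k) : fc (Fin.last k) 1 b ∈ Pool.H93.HU.Bd (k + 1) :=
  ⟨Fin.last k, Or.inr (j_last b)⟩

private theorem j_of_last {k : ℕ} {x : Qb (k + 1)} (h : x (Fin.last k) = 1) :
    fc (Fin.last k) 1 (pr (Fin.last k) x) = x := by
  have h1 := fc_pr (Fin.last k) x
  rw [h] at h1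
  exact h1

private theorem j_jk {k : ℕ} (b : Qb k) :
    fc (Fin.last k) 1 b ∈ Jk k ↔ b ∈ Pool.H93.HU.Bd k := by
  constructor
  · rintro ⟨i, c, h1, h2⟩
    by_cases hi : i = Fin.last k
    · subst hi
      cases c
      · rw [j_last] at h2
        exact absurd h2 one_ne_zero
      · exact absurd ⟨rfl, rfl⟩ h1
    · obtain ⟨i', rfl⟩ := Fin.exists_succAbove_eq hi
      rw [fc_succAbove] at h2
      cases c
      · exact ⟨i', Or.inl h2⟩
      · exact ⟨i', Or.inr h2⟩
  · intro h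
    apply jk_of_succ
    rw [pr_fc]
    exact h

private theorem cov {k : ℕ} {x : Qb (k + 1)} (hx : x ∈ Pool.H93.HU.Bd (k + 1)) :
    x ∈ Jk k ∨ ∃ b, b ∉ Pool.H93.HU.Bd k ∧ fc (Fin.last k) 1 b = x := by
  by_cases hJ : x ∈ Jk k
  · exact Or.inl hJ
  · right
    have hl : x (Fin.last k) = 1 := by
      obtain ⟨i, h | h⟩ := hx
      · exact absurd ⟨i, false, fun h' => Bool.false_ne_true h'.2, h⟩ hJ
      · by_cases hi : i = Fin.last k
        · rw [← hi]
          exact h
        · exact absurd ⟨i, true, fun h' => hi h'.1, h⟩ hJ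
    exact ⟨pr (Fin.last k) x, fun hb => hJ (jk_of_succ hb), j_of_last hl⟩

theorem top_qis (R : Type) [CommRing R] (k : ℕ) :
    Qis (K := CC R (Qb k)) (K' := CC R (Qb (k + 1)))
      (fun n => mapC R n (Pool.H93.HU.fc (Fin.last k) 1)) ⊤ (subCF R (Pool.H93.HU.Bd k))
      (subCF R (Pool.H93.HU.Bd (k + 1))) (subCF R (Jk k)) := by
  classical
  obtain ⟨NB, dB, hNB, hAN, hd, hdN, hd0, hd1, hdA⟩ := collar_cube k
  let D : Qb (k + 1) × J → Qb (k + 1) := fun z =>
    if z.1 ∈ Jk k then z.1 else fc (Fin.last k) 1 (dB (pr (Fin.last k) z.1, z.2))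
  have hDY : ∀ y ∈ Jk k, ∀ t, D (y, t) = y := fun y hy t => if_pos hy
  have hDj : ∀ b ∈ NB, ∀ t, D (fc (Fin.last k) 1 b, t) = fc (Fin.last k) 1 (dB (b, t)) := by
    intro b hb t
    by_cases hj : fc (Fin.last k) 1 b ∈ Jk k
    · rw [hDY _ hj t, hdA b ((j_jk b).1 hj) t]
    · change (if fc (Fin.last k) 1 b ∈ Jk k then fc (Fin.last k) 1 b else
        fc (Fin.last k) 1 (dB (pr (Fin.last k) (fc (Fin.last k) 1 b), t))) = _
      rw [if_neg hj, pr_fc]
  have hcl : IsClosed ((Jk k) ×ˢ (Set.univ : Set J)) := (jk_closed k).prod isClosed_univ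
  have hone : IsClosed ({x : Qb (k + 1) | x (Fin.last k) = 1} ×ˢ (Set.univ : Set J)) :=
    (isClosed_eq (continuous_apply (Fin.last k)) continuous_const).prod isClosed_univ
  have hsub : (fc (Fin.last k) 1 '' NB) ×ˢ (Set.univ : Set J) ⊆
      {x : Qb (k + 1) | x (Fin.last k) = 1} ×ˢ (Set.univ : Set J) := by
    rintro ⟨x, t⟩ ⟨⟨b, hb, hx⟩, ht⟩
    refine ⟨?_, ht⟩
    change x (Fin.last k) = 1
    have hx' : fc (Fin.last k) 1 b = x := hx
    rw [← hx']
    exact j_last b
  have hDA : ContinuousOn D ((Jk k) ×ˢ (Set.univ : Set J)) :=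
    continuous_fst.continuousOn.congr fun z hz => hDY z.1 hz.1 z.2
  have hDB : ContinuousOn D ((fc (Fin.last k) 1 '' NB) ×ˢ (Set.univ : Set J)) := by
    have hm : Continuous (fun z : Qb (k + 1) × J => (pr (Fin.last k) z.1, z.2)) :=
      ((pr (Fin.last k)).continuous.comp continuous_fst).prodMk continuous_snd
    have h1 : ContinuousOn (fun z : Qb (k + 1) × J => dB (pr (Fin.last k) z.1, z.2))
        ((fc (Fin.last k) 1 '' NB) ×ˢ (Set.univ : Set J)) := by
      refine hd.comp hm.continuousOn ?_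
      rintro ⟨x, t⟩ ⟨⟨b, hb, hx⟩, ht⟩
      refine ⟨?_, Set.mem_univ _⟩
      have hx' : fc (Fin.last k) 1 b = x := hx
      change pr (Fin.last k) x ∈ NB
      rw [← hx', pr_fc]
      exact hb
    have h2 := (fc (Fin.last k) 1).continuous.comp_continuousOn h1
    refine h2.congr ?_
    rintro ⟨x, t⟩ ⟨⟨b, hb, hx⟩, ht⟩
    have hx' : fc (Fin.last k) 1 b = x := hx
    change D (x, t) = fc (Fin.last k) 1 (dB (pr (Fin.last k) x, t))
    rw [← hx', hDj b hb t, pr_fc]
  have hD : ContinuousOn D ((Jk k ∪ fc (Fin.last k) 1 '' NB) ×ˢ Set.univ) := by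
    rw [Set.union_prod]
    rintro z hz
    rw [continuousWithinAt_union]
    constructor
    · by_cases hA : z ∈ (Jk k) ×ˢ (Set.univ : Set J)
      · exact hDA z hA
      · exact continuousWithinAt_of_notMem_closure (by rw [hcl.closure_eq]; exact hA)
    · by_cases hB : z ∈ (fc (Fin.last k) 1 '' NB) ×ˢ (Set.univ : Set J)
      · exact hDB z hB
      · refine continuousWithinAt_of_notMem_closure fun h => hB ?_
        have h1 := closure_minimal hsub hone h
        have h2 : z.1 (Fin.last k) = 1 := h1.1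
        rcases hz with hz | hz
        · refine ⟨⟨pr (Fin.last k) z.1, hAN ?_, j_of_last h2⟩, Set.mem_univ _⟩
          rw [← j_jk, j_of_last h2]
          exact hz.1
        · exact hz
  have hemb : Topology.IsEmbedding (fun b : ((Pool.H93.HU.Bd k)ᶜ : Set (Qb k)) =>
      fc (Fin.last k) 1 (b : Qb k)) := by
    have h1 : Topology.IsEmbedding (fc (Fin.last k) 1 : Qb k → Qb (k + 1)) :=
      Topology.IsEmbedding.of_leftInverse (f := (pr (Fin.last k) : Qb (k + 1) → Qb k))
        (fun b => pr_fc _ _ b) (pr (Fin.last k)).continuous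
        (fc (Fin.last k) 1).continuous
    exact h1.comp Topology.IsEmbedding.subtypeVal
  refine relhom R (fc (Fin.last k) 1) (A := Pool.H93.HU.Bd k) (NB := NB)
    (T := Pool.H93.HU.Bd (k + 1)) (Y := Jk k) (bd_closed k) hNB hAN dB hd hdN hd0 hd1 hdA
    (fun x hx => jk_sub hx) j_bd (fun x hx => cov hx) j_jk hemb
    (O₁ := {x | (1 / 2 : ℝ) < x (Fin.last k)} ∩
      (pr (Fin.last k)) ⁻¹' (Pool.H93.HU.Bd k)ᶜ)
    (O₂ := {x | x (Fin.last k) < 1} ∪ (pr (Fin.last k)) ⁻¹' NB) ?_ ?_ ?_ ?_ D hD hDY hDj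
  · exact (isOpen_lt continuous_const (continuous_subtype_val.comp
      (continuous_apply (Fin.last k)))).inter
      ((bd_closed k).isOpen_compl.preimage (pr (Fin.last k)).continuous)
  · exact (isOpen_lt (continuous_apply (Fin.last k)) continuous_const).union
      (hNB.preimage (pr (Fin.last k)).continuous)
  · ext x
    constructor
    · rintro ⟨⟨h1, h2⟩, h3⟩
      have hl : x (Fin.last k) = 1 := by
        obtain ⟨i, h⟩ := h3
        by_cases hi : i = Fin.last k
        · rw [hi] at h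
          rcases h with h | h
          · have h1' : (1 / 2 : ℝ) < x (Fin.last k) := h1
            rw [h] at h1'
            norm_num at h1'
          · exact h
        · obtain ⟨i', rfl⟩ := Fin.exists_succAbove_eq hi
          exact absurd ⟨i', h⟩ h2
      exact ⟨pr (Fin.last k) x, h2, j_of_last hl⟩
    · rintro ⟨b, hb, rfl⟩
      refine ⟨⟨?_, ?_⟩, j_bd b⟩
      · change (1 / 2 : ℝ) < (fc (Fin.last k) 1 b (Fin.last k) : J)
        rw [j_last]
        norm_num
      · change pr (Fin.last k) (fc (Fin.last k) 1 b) ∈ (Pool.H93.HU.Bd k)ᶜ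
        rw [pr_fc]
        exact hb
  · ext x
    constructor
    · rintro ⟨h1, h3⟩
      rcases cov h3 with h | ⟨b, hb, rfl⟩
      · exact Or.inl h
      · right
        rcases h1 with h1 | h1
        · have h1' : fc (Fin.last k) 1 b (Fin.last k) < 1 := h1
          rw [j_last] at h1'
          exact absurd h1' (lt_irrefl _)
        · have h1' : pr (Fin.last k) (fc (Fin.last k) 1 b) ∈ NB := h1
          rw [pr_fc] at h1'
          exact ⟨b, h1', rfl⟩
    · rintro (h | ⟨b, hb, rfl⟩)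
      · refine ⟨?_, jk_sub h⟩
        by_cases hl : x (Fin.last k) = 1
        · right
          change pr (Fin.last k) x ∈ NB
          apply hAN
          rw [← j_jk, j_of_last hl]
          exact h
        · left
          have hle : x (Fin.last k) ≤ 1 := (x (Fin.last k)).2.2
          exact lt_of_le_of_ne hle hl
      · refine ⟨Or.inr ?_, j_bd b⟩
        change pr (Fin.last k) (fc (Fin.last k) 1 b) ∈ NB
        rw [pr_fc]
        exact hb

end Pool.H93.HM
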