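import Pool.Agent.H93.HM.Cuz
import Pool.Agent.H93.HM.Top

/-!
# [H93 HM CUS] The homology of the cube modulo its boundary

PROOF of `pk_succ` (complete). Write `S = subCF R (Bd k)`, `T = subCF R (Bd (k + 1))`, `JJ = subCF R (Jk k)`, `ι = mapC (fc last 1)`; `S`, `T`, `JJ` are subcomplexes (`sc_subCF`), `JJ ≤ T`, `ι S ≤ JJ` (`fc last 1 (Bd k) ⊆ Jk k`), `ι ⊤ ≤ T`.
Let `x ∈ Ch R (Qb (k + 1)) n`, `d x ∈ T`. If `n = 0`: `jk_acy`. If `n = n' + 1`: `y = d x ∈ T`, `d y = 0`, so `y ∈ Zc T JJ n'`; `(top_qis R k).sur`: `y = ι β + d t + j₀`, `t ∈ T`, `j₀ ∈ JJ`, `β ∈ Zc ⊤ S n'`.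
(1) `n' ≠ k`: `β = d γ + b`, `b ∈ S`: `y = d (ι γ + t) + (j₀ + ι b)`; `x' = x - ι γ - t` has `d x' ∈ JJ`, `jk_acy`: `x' = d w + j₁`. So `x = d w + (j₁ + ι γ + t)`.
(2) `n' = k`: `β = c • gC id + d γ + b`. `dC_gC` for `id` of `Qb (k + 1)`: `d (gC id) = ∑ i, (-1)^i • (gC (ins i 0) - gC (ins i 1))`; all the terms except `gC (ins (last) 1)` are in `JJ` (`gC_mem`), so `d (gC id) = - (-1)^k • ι (gC id) + j₂`, hence
`ι (gC id) = (-1)^(k+1) • d (gC id) + j₃`. So `y = d (c' • gC id + ι γ + t) + j₄`, `c' = c (-1)^(k+1)`, and `x - c' • gC id - ι γ - t ∈ d ⊤ + JJ` by `jk_acy`.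
(3) `c • gC id = d w + t`, `t ∈ T`: apply `d`: `c • d (gC id) = d t`, so `ι ((c (-1)^(k+1)) • gC id) ∈ d T + JJ` up to sign, `(top_qis R k).inj` (`c'' • gC id ∈ Zc ⊤ S k`: its boundary is in `S`: the faces of `id` are in `Bd k`; `k = 0`: nothing) and the induction
hypothesis give `c (-1)^(k+1) = 0`, `c = 0`.
-/

set_option autoImplicit false

namespace Pool.H93.HM

open Pool.Agent.H4.CU

section aux

variable {R : Type} [CommRing R] {Z : Type} [TopologicalSpace Z] {A B : Set Z} {n : ℕ}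

private theorem mem_bdT {x : Ch R Z n} : x ∈ Bd (CC R Z) ⊤ (subCF R A) n ↔
    ∃ (b : Ch R Z (n + 1)) (a : Ch R Z n), a ∈ subC R n A ∧ dC R Z n b + a = x := by
  refine Iff.trans (mem_bd (K := CC R Z) (x := x)) ?_
  constructor
  · rintro ⟨b, -, a, ha, h⟩
    exact ⟨b, a, ha, h⟩
  · rintro ⟨b, a, ha, h⟩
    exact ⟨b, Submodule.mem_top, a, ha, h⟩

private theorem mem_bdS {x : Ch R Z n} : x ∈ Bd (CC R Z) (subCF R B) (subCF R A) n ↔
    ∃ (b : Ch R Z (n + 1)) (a : Ch R Z n), b ∈ subC R (n + 1) B ∧ a ∈ subC R n A ∧ dC R Z n b + a = x := by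
  refine Iff.trans (mem_bd (K := CC R Z) (x := x)) ?_
  constructor
  · rintro ⟨b, hb, a, ha, h⟩
    exact ⟨b, a, hb, ha, h⟩
  · rintro ⟨b, a, hb, ha, h⟩
    exact ⟨b, hb, a, ha, h⟩

private theorem zcT {x : Ch R Z (n + 1)} : x ∈ Zc (CC R Z) ⊤ (subCF R A) (n + 1) ↔
    dC R Z n x ∈ subC R n A :=
  ⟨fun h => h.2, fun h => ⟨Submodule.mem_top, h⟩⟩

private theorem zcS {y : Ch R Z n} (hy : y ∈ subC R n B) (hd : ∃ x : Ch R Z (n + 1), dC R Z n x = y) :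
    y ∈ Zc (CC R Z) (subCF R B) (subCF R A) n := by
  obtain ⟨x, rfl⟩ := hd
  cases n with
  | zero => exact hy
  | succ n =>
    refine ⟨hy, ?_⟩
    have h1 : dC R Z n (dC R Z (n + 1) x) ∈ subC R n A := by
      rw [dC_dC]
      exact Submodule.zero_mem _
    exact h1

private theorem d_mem {x : Ch R Z (n + 1)} (hx : x ∈ subC R (n + 1) A) : dC R Z n x ∈ subC R n A :=
  sc_subCF R A n x hx

end aux

section aux2

variable {R : Type} [CommRing R] {k n : ℕ}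

private theorem i_d (x : Ch R (Qb k) (n + 1)) :
    dC R (Qb (k + 1)) n (mapC R (n + 1) (Pool.H93.HU.fc (Fin.last k) 1) x) =
      mapC R n (Pool.H93.HU.fc (Fin.last k) 1) (dC R (Qb k) n x) :=
  congrArg (fun f => f x) (dC_mapC (R := R) (n := n) (Pool.H93.HU.fc (Fin.last k) 1 : C(Qb k, Qb (k + 1))))

private theorem jk_le : subC R n (Jk k) ≤ subC R n (Pool.H93.HU.Bd (k + 1)) := by
  refine subC_mono ?_
  rintro x ⟨i, b, -, h⟩
  cases b
  · exact ⟨i, Or.inl h⟩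
  · exact ⟨i, Or.inr h⟩

private theorem i_bd {x : Ch R (Qb k) n} (hx : x ∈ subC R n (Pool.H93.HU.Bd k)) :
    mapC R n (Pool.H93.HU.fc (Fin.last k) 1) x ∈ subC R n (Jk k) := by
  have h1 : subC R n (Pool.H93.HU.Bd k) ≤
      (subC R n (Jk k)).comap (mapC R n (Pool.H93.HU.fc (Fin.last k) 1 : C(Qb k, Qb (k + 1)))) := by
    conv_lhs => unfold subC
    rw [Submodule.span_le]
    rintro c ⟨σ, hσ, rfl⟩
    rw [SetLike.mem_coe, Submodule.mem_comap, mapC_gC]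
    refine gC_mem ?_
    rintro z ⟨y, rfl⟩
    obtain ⟨i, hi⟩ := hσ ⟨y, rfl⟩
    have e : ∀ b : Bool, σ y i = Pool.H93.HU.ep b →
        (Pool.H93.HU.fc (Fin.last k) 1 : C(Qb k, Qb (k + 1))) (σ y) ∈ Jk k := by
      intro b hb
      refine ⟨(Fin.last k).succAbove i, b, fun h => Fin.succAbove_ne _ _ h.1, ?_⟩
      rw [Pool.H93.HU.fc_succAbove]
      exact hb
    rcases hi with h | h
    · exact e false h
    · exact e true h
  exact h1 hx

private theorem i_top (x : Ch R (Qb k) n) :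
    mapC R n (Pool.H93.HU.fc (Fin.last k) 1) x ∈ subC R n (Pool.H93.HU.Bd (k + 1)) := by
  have h1 : (⊤ : Submodule R (Ch R (Qb k) n)) ≤ (subC R n (Pool.H93.HU.Bd (k + 1))).comap
      (mapC R n (Pool.H93.HU.fc (Fin.last k) 1 : C(Qb k, Qb (k + 1)))) := by
    rw [← ch_span, Submodule.span_le]
    rintro c ⟨σ, rfl⟩
    rw [SetLike.mem_coe, Submodule.mem_comap, mapC_gC]
    refine gC_mem ?_
    rintro z ⟨y, rfl⟩
    exact ⟨Fin.last k, Or.inr (Pool.H93.HU.fc_same _ _ _)⟩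
  exact h1 Submodule.mem_top

/-- the boundary of the identity cube -/
private theorem d_id : ∃ j ∈ subC R k (Jk k), dC R (Qb (k + 1)) k (gC R (ContinuousMap.id (Qb (k + 1)))) =
    (-1 : R) ^ (k + 1) • mapC R k (Pool.H93.HU.fc (Fin.last k) 1) (gC R (ContinuousMap.id (Qb k))) + j := by
  refine ⟨∑ i : Fin k, (-1 : R) ^ (i : ℕ) • (gC R (face (i.castSucc) 0 (ContinuousMap.id (Qb (k + 1)))) -
    gC R (face (i.castSucc) 1 (ContinuousMap.id (Qb (k + 1))))) +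
    (-1 : R) ^ k • gC R (face (Fin.last k) 0 (ContinuousMap.id (Qb (k + 1)))), ?_, ?_⟩
  · have e : ∀ (i : Fin (k + 1)) (b : Bool), ¬ (i = Fin.last k ∧ b = true) →
        gC R (face i (Pool.H93.HU.ep b) (ContinuousMap.id (Qb (k + 1)))) ∈ subC R k (Jk k) := by
      intro i b hib
      refine gC_mem ?_
      rintro z ⟨y, rfl⟩
      refine ⟨i, b, hib, ?_⟩
      exact Fin.insertNth_apply_same (α := fun _ => J) i _ y
    refine Submodule.add_mem _ (Submodule.sum_mem _ fun i _ => Submodule.smul_mem _ _ (Submodule.sub_mem _ ?_ ?_))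
      (Submodule.smul_mem _ _ ?_)
    · exact e _ false fun h => absurd h.2 (by decide)
    · exact e _ true fun h => absurd h.1 (Fin.castSucc_lt_last i).ne
    · exact e _ false fun h => absurd h.2 (by decide)
  · rw [dC_gC, Fin.sum_univ_castSucc, mapC_gC]
    have e1 : face (Fin.last k) 1 (ContinuousMap.id (Qb (k + 1))) =
        (Pool.H93.HU.fc (Fin.last k) 1 : C(Qb k, Qb (k + 1))).comp (ContinuousMap.id (Qb k)) := rfl
    rw [e1, Fin.val_last]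
    simp only [Fin.val_castSucc]
    rw [smul_sub, pow_succ, mul_neg_one, neg_smul]
    abel

end aux2

theorem id_zc (R : Type) [CommRing R] (k : ℕ) : (gC R (ContinuousMap.id (Qb k)) : Ch R (Qb k) k) ∈
    Zc (CC R (Qb k)) ⊤ (subCF R (Pool.H93.HU.Bd k)) k := by
  cases k with
  | zero =>
    have h1 : (gC R (ContinuousMap.id (Qb 0)) : Ch R (Qb 0) 0) ∈ (⊤ : Submodule R (Ch R (Qb 0) 0)) :=
      Submodule.mem_top
    exact h1
  | succ k =>
    refine zcT.2 ?_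
    obtain ⟨j, hj, h1⟩ := d_id (R := R) (k := k)
    rw [h1]
    exact Submodule.add_mem _ (Submodule.smul_mem _ _ (i_top _)) (jk_le hj)

private theorem keyA {R : Type} [CommRing R] {k n : ℕ} (x : Ch R (Qb (k + 1)) (n + 1))
    (hx : x ∈ Zc (CC R (Qb (k + 1))) ⊤ (subCF R (Pool.H93.HU.Bd (k + 1))) (n + 1)) :
    ∃ (β : Ch R (Qb k) n) (t : Ch R (Qb (k + 1)) (n + 1)) (j : Ch R (Qb (k + 1)) n),
      β ∈ Zc (CC R (Qb k)) ⊤ (subCF R (Pool.H93.HU.Bd k)) n ∧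
      t ∈ subC R (n + 1) (Pool.H93.HU.Bd (k + 1)) ∧ j ∈ subC R n (Jk k) ∧
      dC R (Qb (k + 1)) n x = mapC R n (Pool.H93.HU.fc (Fin.last k) 1) β + dC R (Qb (k + 1)) n t + j := by
  replace hx := zcT.1 hx
  obtain ⟨β, hβ, h1⟩ := (top_qis R k).sur n (dC R (Qb (k + 1)) n x) (zcS hx ⟨x, rfl⟩)
  obtain ⟨t, j, ht, hj, h2⟩ := mem_bdS.1 h1
  refine ⟨β, t, j, hβ, ht, hj, ?_⟩
  rw [add_assoc, h2]
  exact (add_sub_cancel _ _).symm

private theorem keyB {R : Type} [CommRing R] {k n : ℕ} (x y t : Ch R (Qb (k + 1)) n)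
    (hx : y ∈ Zc (CC R (Qb (k + 1))) ⊤ (subCF R (Jk k)) n) (ht : t ∈ subC R n (Pool.H93.HU.Bd (k + 1)))
    (h : x = y + t) : x ∈ Bd (CC R (Qb (k + 1))) ⊤ (subCF R (Pool.H93.HU.Bd (k + 1))) n := by
  obtain ⟨w, j, hj, h1⟩ := mem_bdT.1 (jk_acy R k n hx)
  refine mem_bdT.2 ⟨w, j + t, Submodule.add_mem _ (jk_le hj) ht, ?_⟩
  rw [h, ← h1, add_assoc]

private theorem pkA {R : Type} [CommRing R] {k : ℕ} (h : Pk R k) (n : ℕ) (hn : n ≠ k + 1) (x : Ch R (Qb (k + 1)) n)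
    (hx : x ∈ Zc (CC R (Qb (k + 1))) ⊤ (subCF R (Pool.H93.HU.Bd (k + 1))) n) :
    x ∈ Bd (CC R (Qb (k + 1))) ⊤ (subCF R (Pool.H93.HU.Bd (k + 1))) n := by
  cases n with
  | zero =>
    have h0 : x ∈ (⊤ : Submodule R (Ch R (Qb (k + 1)) 0)) := Submodule.mem_top
    exact keyB x x 0 h0 (Submodule.zero_mem _) (add_zero x).symm
  | succ n =>
    have hn' : n ≠ k := fun h => hn (by rw [h])
    obtain ⟨β, t, j, hβ, ht, hj, e1⟩ := keyA x hx
    obtain ⟨γ, b, hb, e2⟩ := mem_bdT.1 (h.1 n hn' hβ)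
    refine keyB x (x - mapC R (n + 1) (Pool.H93.HU.fc (Fin.last k) 1) γ - t)
      (mapC R (n + 1) (Pool.H93.HU.fc (Fin.last k) 1) γ + t) (zcT.2 ?_) (Submodule.add_mem _ (i_top γ) ht) (by abel)
    rw [map_sub, map_sub, i_d, e1, ← e2, map_add]
    have e3 : mapC R n (Pool.H93.HU.fc (Fin.last k) 1) (dC R (Qb k) n γ) +
        mapC R n (Pool.H93.HU.fc (Fin.last k) 1) b + dC R (Qb (k + 1)) n t + j -
        mapC R n (Pool.H93.HU.fc (Fin.last k) 1) (dC R (Qb k) n γ) - dC R (Qb (k + 1)) n t =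
        mapC R n (Pool.H93.HU.fc (Fin.last k) 1) b + j := by abel
    rw [e3]
    exact Submodule.add_mem _ (i_bd hb) hj

private theorem pkB {R : Type} [CommRing R] {k : ℕ} (h : Pk R k) (x : Ch R (Qb (k + 1)) (k + 1))
    (hx : x ∈ Zc (CC R (Qb (k + 1))) ⊤ (subCF R (Pool.H93.HU.Bd (k + 1))) (k + 1)) :
    ∃ c : R, x - c • gC R (ContinuousMap.id (Qb (k + 1))) ∈
      Bd (CC R (Qb (k + 1))) ⊤ (subCF R (Pool.H93.HU.Bd (k + 1))) (k + 1) := by
  obtain ⟨j₂, hj₂, hid⟩ := d_id (R := R) (k := k)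
  have hs : (-1 : R) ^ (k + 1) * (-1 : R) ^ (k + 1) = 1 := by
    rw [← mul_pow, neg_one_mul, neg_neg, one_pow]
  obtain ⟨s, hsd⟩ : ∃ s, s = (-1 : R) ^ (k + 1) := ⟨_, rfl⟩
  rw [← hsd] at hid hs
  obtain ⟨β, t, j, hβ, ht, hj, e1⟩ := keyA x hx
  obtain ⟨c, hc⟩ := h.2.1 β hβ
  obtain ⟨γ, b, hb, e2⟩ := mem_bdT.1 hc
  have e2' : β = c • gC R (ContinuousMap.id (Qb k)) + (dC R (Qb k) k γ + b) := by
    rw [e2]
    exact (add_sub_cancel _ _).symm
  refine ⟨c * s, ?_⟩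
  refine keyB _ (x - (c * s) • gC R (ContinuousMap.id (Qb (k + 1))) -
    mapC R (k + 1) (Pool.H93.HU.fc (Fin.last k) 1) γ - t)
      (mapC R (k + 1) (Pool.H93.HU.fc (Fin.last k) 1) γ + t) (zcT.2 ?_) (Submodule.add_mem _ (i_top γ) ht) (by abel)
  rw [map_sub, map_sub, map_sub, map_smul, i_d, e1, e2', map_add, map_add, map_smul, hid]
  have e3 : (c * s) • (s • mapC R k (Pool.H93.HU.fc (Fin.last k) 1) (gC R (ContinuousMap.id (Qb k))) + j₂) =
      c • mapC R k (Pool.H93.HU.fc (Fin.last k) 1) (gC R (ContinuousMap.id (Qb k))) + (c * s) • j₂ := by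
    rw [smul_add, smul_smul, mul_assoc, hs, mul_one]
  rw [e3]
  have e4 : c • mapC R k (Pool.H93.HU.fc (Fin.last k) 1) (gC R (ContinuousMap.id (Qb k))) +
      (mapC R k (Pool.H93.HU.fc (Fin.last k) 1) (dC R (Qb k) k γ) +
        mapC R k (Pool.H93.HU.fc (Fin.last k) 1) b) + dC R (Qb (k + 1)) k t + j -
      (c • mapC R k (Pool.H93.HU.fc (Fin.last k) 1) (gC R (ContinuousMap.id (Qb k))) + (c * s) • j₂) -
      mapC R k (Pool.H93.HU.fc (Fin.last k) 1) (dC R (Qb k) k γ) - dC R (Qb (k + 1)) k t =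
      mapC R k (Pool.H93.HU.fc (Fin.last k) 1) b + j - (c * s) • j₂ := by abel
  rw [e4]
  exact Submodule.sub_mem _ (Submodule.add_mem _ (i_bd hb) hj) (Submodule.smul_mem _ _ hj₂)

private theorem pkC {R : Type} [CommRing R] {k : ℕ} (h : Pk R k) (c : R)
    (hc : c • gC R (ContinuousMap.id (Qb (k + 1))) ∈
      Bd (CC R (Qb (k + 1))) ⊤ (subCF R (Pool.H93.HU.Bd (k + 1))) (k + 1)) : c = 0 := by
  obtain ⟨j₂, hj₂, hid⟩ := d_id (R := R) (k := k)
  have hs : (-1 : R) ^ (k + 1) * (-1 : R) ^ (k + 1) = 1 := by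
    rw [← mul_pow, neg_one_mul, neg_neg, one_pow]
  obtain ⟨s, hsd⟩ : ∃ s, s = (-1 : R) ^ (k + 1) := ⟨_, rfl⟩
  rw [← hsd] at hid hs
  obtain ⟨w, t, ht, e1⟩ := mem_bdT.1 hc
  have e2 := congrArg (dC R (Qb (k + 1)) k) e1
  rw [map_add, dC_dC, zero_add, map_smul, hid, smul_add, smul_smul, ← map_smul] at e2
  have e3 : mapC R k (Pool.H93.HU.fc (Fin.last k) 1) ((c * s) • gC R (ContinuousMap.id (Qb k))) ∈
      Bd (CC R (Qb (k + 1))) (subCF R (Pool.H93.HU.Bd (k + 1))) (subCF R (Jk k)) k := by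
    refine mem_bdS.2 ⟨t, -(c • j₂), ht, Submodule.neg_mem _ (Submodule.smul_mem _ _ hj₂), ?_⟩
    rw [e2, add_neg_cancel_right]
  have e4 := h.2.2 _ ((top_qis R k).inj k _ (Submodule.smul_mem _ _ (id_zc R k)) e3)
  have e5 := congrArg (fun z => z * s) e4
  simp only [zero_mul] at e5
  rwa [mul_assoc, hs, mul_one] at e5

theorem pk_succ (R : Type) [CommRing R] (k : ℕ) (h : Pk R k) : Pk R (k + 1) :=
  ⟨fun n hn x hx => pkA h n hn x hx, fun x hx => pkB h x hx, fun c hc => pkC h c hc⟩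

theorem pk (R : Type) [CommRing R] (k : ℕ) : Pk R k := by
  induction k with
  | zero => exact pk_zero R
  | succ k ih => exact pk_succ R k ih

end Pool.H93.HM
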