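import Pool.Agent.H4.CU.ICJ
import Pool.Agent.H93.HU.Cub

/-!
# [H93 HM CUZ] The homology of the cube modulo its boundary: dimension 0

`Pk R k`: `H_n (I ^ k, boundary)` is zero for `n ≠ k` and free with basis the class of the identity cube for `n = k`.

PROOF of `pk_zero` (complete). `Qb 0` is a point, `Bd 0 = ∅` (`Cube.boundary (Fin 0)`), `subC R n ∅ = ⊥` (`subC_empty`). Every cube `C(Qb n, Qb 0)`, `n ≥ 1`, is degenerate, so `Ch R (Qb 0) n = 0` for `n ≥ 1` (`ch_span`, `gC_deg`).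
(1) `n ≥ 1`: `x = 0`. (2) the only cube of dimension `0` is `ContinuousMap.id`; so every `x ∈ Ch R (Qb 0) 0` is `c • gC id` (`ch_span`, `Submodule.mem_span_singleton`). (3) `c • gC id = d w + a`, `a ∈ ⊥`, `w ∈ Ch R (Qb 0) 1 = 0`, so `c • gC id = 0`; apply
`liftC (fun _ => (1 : R))` (no `0`-cube is degenerate: `Deg` asks for `i : Fin 0`).
-/

set_option autoImplicit false

namespace Pool.H93.HM

open Pool.Agent.H4.CU

/-- the homology of `(I ^ k, boundary)` -/
def Pk (R : Type) [CommRing R] (k : ℕ) : Prop :=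
  (∀ n, n ≠ k → Zc (CC R (Qb k)) ⊤ (subCF R (Pool.H93.HU.Bd k)) n ≤
    Bd (CC R (Qb k)) ⊤ (subCF R (Pool.H93.HU.Bd k)) n) ∧
  (∀ x : Ch R (Qb k) k, x ∈ Zc (CC R (Qb k)) ⊤ (subCF R (Pool.H93.HU.Bd k)) k → ∃ c : R,
    x - c • gC R (ContinuousMap.id (Qb k)) ∈
      Bd (CC R (Qb k)) ⊤ (subCF R (Pool.H93.HU.Bd k)) k) ∧
  ∀ c : R, c • gC R (ContinuousMap.id (Qb k)) ∈
    Bd (CC R (Qb k)) ⊤ (subCF R (Pool.H93.HU.Bd k)) k → c = 0

private theorem ch_zero (R : Type) [CommRing R] (n : ℕ) (x : Ch R (Qb 0) (n + 1)) : x = 0 := by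
  have h1 : x ∈ Submodule.span R (Set.range (gC R : Cb (Qb 0) (n + 1) → Ch R (Qb 0) (n + 1))) := by
    rw [ch_span]
    exact Submodule.mem_top
  have h2 : Submodule.span R (Set.range (gC R : Cb (Qb 0) (n + 1) → Ch R (Qb 0) (n + 1))) ≤ ⊥ := by
    rw [Submodule.span_le]
    rintro c ⟨σ, rfl⟩
    rw [SetLike.mem_coe, Submodule.mem_bot]
    exact gC_deg R ⟨0, fun _ _ => Subsingleton.elim _ _⟩
  exact (Submodule.mem_bot R).1 (h2 h1)

private theorem bd_empty : Pool.H93.HU.Bd 0 = ∅ := by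
  rw [Set.eq_empty_iff_forall_notMem]
  rintro y ⟨i, -⟩
  exact i.elim0

theorem pk_zero (R : Type) [CommRing R] : Pk R 0 := by
  refine ⟨?_, ?_, ?_⟩
  · intro n hn x hx
    obtain ⟨m, rfl⟩ := Nat.exists_eq_succ_of_ne_zero hn
    have h1 : x = 0 := ch_zero R m x
    rw [h1]
    exact Submodule.zero_mem _
  · intro x _
    have h1 : x ∈ Submodule.span R (Set.range (gC R : Cb (Qb 0) 0 → Ch R (Qb 0) 0)) := by
      rw [ch_span]
      exact Submodule.mem_top
    have h2 : Set.range (gC R : Cb (Qb 0) 0 → Ch R (Qb 0) 0) = {gC R (ContinuousMap.id (Qb 0))} := by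
      ext c
      constructor
      · rintro ⟨σ, rfl⟩
        rw [Set.mem_singleton_iff]
        congr 1
        exact ContinuousMap.ext fun _ => Subsingleton.elim _ _
      · intro hc
        rw [Set.mem_singleton_iff] at hc
        rw [hc]
        exact ⟨_, rfl⟩
    rw [h2, Submodule.mem_span_singleton] at h1
    obtain ⟨c, hc⟩ := h1
    refine ⟨c, ?_⟩
    rw [hc, sub_self]
    exact Submodule.zero_mem _
  · intro c hc
    obtain ⟨b, -, a, ha, hba⟩ := mem_bd.1 hc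
    have hb : b = 0 := ch_zero R 0 b
    have ha' : a ∈ subC R 0 (Pool.H93.HU.Bd 0) := ha
    rw [bd_empty, subC_empty] at ha'
    have ha0 : a = 0 := (Submodule.mem_bot R).1 ha'
    rw [hb, ha0, map_zero, add_zero] at hba
    have h1 : liftC (R := R) (M := R) (fun _ : Cb (Qb 0) 0 => (1 : R))
        (fun σ hσ => by obtain ⟨i, -⟩ := hσ; exact i.elim0) (c • gC R (ContinuousMap.id (Qb 0))) = 0 := by
      rw [← show (0 : Ch R (Qb 0) 0) = c • gC R (ContinuousMap.id (Qb 0)) from hba, map_zero]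
    rw [map_smul, liftC_gC, smul_eq_mul, mul_one] at h1
    exact h1

end Pool.H93.HM
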