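import Pool.Agent.H93.HM.Qis

/-!
# [H93 HM EXC] Excision, algebra

PROOF (complete; `mem_zc_succ`, `mem_bd`, `Submodule.mem_sup`; in degree `0` there is no condition on `d`). sur: `z ∈ C'`, `d z ∈ Y`. `hE'` (`z ∈ Zc C' (U₁ ⊔ U₂)` since `Y ≤ U₂`): `z = d w + u₁ + u₂`. `u₁ = j v₁` (`lift`).
`j (d v₁) = d u₁ = d z - d u₂ ∈ U₂`, so `d v₁ ∈ V₂` (`back`, `d v₁ ∈ V₁`). `d v₁ ∈ Zc V₂ A`, `hH`: `d v₁ = d x₂ + a`, `x₂ ∈ V₂`, `a ∈ A`.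
`β := v₁ - x₂`, `d β = a ∈ A`. `z - j β = d w + (u₂ + j x₂)`, `u₂ + j x₂ ∈ Zc U₂ Y` (`d (u₂ + j x₂) = d z - j a`), by `hH'` it is in `d U₂ + Y`. (Degree `0`: `β = v₁`.)
inj: `β ∈ Zc C A`, `j β = d w + y`. `hE`: `β = d ω + v₁ + v₂`. `w' = w - j ω`: `d w' = j v₁ + (j v₂ - y) ∈ U₁ + U₂`, `hE'`: `w' = d w'' + u₁ + u₂`, `u₁ = j ν`, `ν ∈ V₁`: `j (v₁ - d ν) = d u₂ + y - j v₂ ∈ U₂`,
so `v₁ - d ν ∈ V₂` (`back`). `β = d (ω + ν) + x₂`, `x₂ = v₁ - d ν + v₂ ∈ V₂`, `d x₂ = d β ∈ A`, by `hH` `x₂ ∈ d V₂ + A`.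
-/

set_option autoImplicit false

namespace Pool.H93.HM

open Pool.Agent.H4.CU

variable {R : Type} [CommRing R]

private theorem zc_dE {K : Cx R} {A B : Fam K} {n : ℕ} {y : K.M (n + 1)} (h : K.d n y ∈ A n) :
    K.d n y ∈ Zc K A B n := by
  cases n with
  | zero => exact h
  | succ n =>
    rw [mem_zc_succ]
    refine ⟨h, ?_⟩
    rw [K.dd]
    exact zero_mem _

private theorem zc_monoE {K : Cx R} {A B D : Fam K} (hAD : A ≤ D) {n : ℕ} {x : K.M n}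
    (h : x ∈ Zc K B A n) : x ∈ Zc K B D n := by
  cases n with
  | zero => exact h
  | succ n =>
    rw [mem_zc_succ] at h ⊢
    exact ⟨h.1, hAD n h.2⟩

private theorem zc_diffE {K : Cx R} {A B D : Fam K} {n : ℕ} {x a : K.M n} {b : K.M (n + 1)}
    (h : x ∈ Zc K B A n) (ha : a ∈ D n) (e : K.d n b + a = x) : a ∈ Zc K D A n := by
  cases n with
  | zero => exact ha
  | succ n =>
    rw [mem_zc_succ] at h ⊢
    refine ⟨ha, ?_⟩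
    have h2 : K.d n a = K.d n x := by
      rw [← e, map_add, K.dd, zero_add]
    rw [h2]
    exact h.2

theorem exc {K K' : Cx R} {j : ∀ n, K.M n →ₗ[R] K'.M n}
    (hj : ∀ n x, j n (K.d n x) = K'.d n (j (n + 1) x))
    {C V₁ V₂ A : Fam K} {C' U₁ U₂ Y : Fam K'}
    (hA : Sc K A) (hV₁ : Sc K V₁) (hV₂ : Sc K V₂) (hC : Sc K C)
    (hY : Sc K' Y) (hU₁ : Sc K' U₁) (hU₂ : Sc K' U₂) (hC' : Sc K' C')
    (hAV : A ≤ V₂) (hV₁C : V₁ ≤ C) (hV₂C : V₂ ≤ C) (hYU : Y ≤ U₂) (hU₁C : U₁ ≤ C') (hU₂C : U₂ ≤ C')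
    (jC : ∀ n, ∀ x ∈ C n, j n x ∈ C' n) (jV₁ : ∀ n, ∀ x ∈ V₁ n, j n x ∈ U₁ n)
    (jV₂ : ∀ n, ∀ x ∈ V₂ n, j n x ∈ U₂ n) (jA : ∀ n, ∀ x ∈ A n, j n x ∈ Y n)
    (lift : ∀ n, ∀ u ∈ U₁ n, ∃ v ∈ V₁ n, j n v = u)
    (back : ∀ n, ∀ v ∈ V₁ n, j n v ∈ U₂ n → v ∈ V₂ n)
    (hE : Acy K C (V₁ ⊔ V₂)) (hH : Acy K V₂ A) (hE' : Acy K' C' (U₁ ⊔ U₂)) (hH' : Acy K' U₂ Y) :
    Qis j C A C' Y := by
  have hV₂s : V₂ ≤ V₁ ⊔ V₂ := le_sup_right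
  have hU₂s : U₂ ≤ U₁ ⊔ U₂ := le_sup_right
  refine ⟨fun n z hz => ?_, fun n β hβ h3 => ?_⟩
  · obtain ⟨w, hw, u, hu, e⟩ := mem_bd.1 (hE' n (zc_monoE (hYU.trans hU₂s) hz))
    obtain ⟨u₁, hu₁, u₂, hu₂, eu⟩ := Submodule.mem_sup.1 hu
    obtain ⟨v₁, hv₁, ev⟩ := lift n u₁ hu₁
    cases n with
    | zero =>
      obtain ⟨u', hu', y, hy, e2⟩ := mem_bd.1 (hH' 0 (show u₂ ∈ Zc K' U₂ Y 0 from hu₂))
      refine ⟨v₁, hV₁C 0 hv₁, mem_bd.2 ⟨w + u', add_mem hw (hU₂C _ hu'), y, hy, ?_⟩⟩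
      calc K'.d 0 (w + u') + y = K'.d 0 w + (K'.d 0 u' + y) := by rw [map_add]; abel
        _ = (K'.d 0 w + (u₁ + u₂)) - u₁ := by rw [e2]; abel
        _ = z - j 0 v₁ := by rw [eu, e, ev]
    | succ n =>
      rw [mem_zc_succ] at hz
      have e1 : K'.d n z = K'.d n u₁ + K'.d n u₂ := by
        rw [← e, map_add, K'.dd, zero_add, ← eu, map_add]
      have e2 : j n (K.d n v₁) = K'.d n u₁ := by rw [hj, ev]
      have h4 : j n (K.d n v₁) ∈ U₂ n := by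
        have h5 : j n (K.d n v₁) = K'.d n z - K'.d n u₂ := by
          rw [e2, e1, add_sub_cancel_right]
        rw [h5]
        exact sub_mem (hYU n hz.2) (hU₂ n _ hu₂)
      have h6 : K.d n v₁ ∈ V₂ n := back n _ (hV₁ n _ hv₁) h4
      obtain ⟨x₂, hx₂, a, ha, e3⟩ := mem_bd.1 (hH n (zc_dE h6))
      have h7 : u₂ + j (n + 1) x₂ ∈ Zc K' U₂ Y (n + 1) := by
        rw [mem_zc_succ]
        refine ⟨add_mem hu₂ (jV₂ _ _ hx₂), ?_⟩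
        have h8 : K'.d n (u₂ + j (n + 1) x₂) = K'.d n z - j n a := by
          have h9 := congrArg (j n) e3
          rw [map_add, e2] at h9
          rw [map_add, ← hj, e1, ← h9]
          abel
        rw [h8]
        exact sub_mem hz.2 (jA _ _ ha)
      obtain ⟨u', hu', y, hy, e4⟩ := mem_bd.1 (hH' (n + 1) h7)
      refine ⟨v₁ - x₂, ?_, mem_bd.2 ⟨w + u', add_mem hw (hU₂C _ hu'), y, hy, ?_⟩⟩
      · rw [mem_zc_succ]
        refine ⟨sub_mem (hV₁C _ hv₁) (hV₂C _ hx₂), ?_⟩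
        rw [map_sub, ← e3, add_sub_cancel_left]
        exact ha
      · calc K'.d (n + 1) (w + u') + y = K'.d (n + 1) w + (K'.d (n + 1) u' + y) := by
              rw [map_add]; abel
          _ = (K'.d (n + 1) w + (u₁ + u₂)) - u₁ + j (n + 1) x₂ := by rw [e4]; abel
          _ = z - j (n + 1) (v₁ - x₂) := by rw [eu, e, map_sub, ev]; abel
  · obtain ⟨w, hw, y, hy, e⟩ := mem_bd.1 h3
    obtain ⟨ω, hω, v, hv, e1⟩ := mem_bd.1 (hE n (zc_monoE (hAV.trans hV₂s) hβ))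
    obtain ⟨v₁, hv₁, v₂, hv₂, ev⟩ := Submodule.mem_sup.1 hv
    have e2 : K'.d n (w - j (n + 1) ω) = j n v₁ + (j n v₂ - y) := by
      have h4 := congrArg (j n) e1
      rw [map_add, ← ev, map_add, ← e] at h4
      rw [map_sub, ← hj]
      have h5 : K'.d n w = j n (K.d n ω) + (j n v₁ + j n v₂) - y := by
        rw [h4, add_sub_cancel_right]
      rw [h5]
      abel
    have h4 : w - j (n + 1) ω ∈ Zc K' C' (U₁ ⊔ U₂) (n + 1) := by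
      rw [mem_zc_succ, e2]
      refine ⟨sub_mem hw (jC _ _ hω), ?_⟩
      exact Submodule.add_mem_sup (jV₁ _ _ hv₁) (sub_mem (jV₂ _ _ hv₂) (hYU _ hy))
    obtain ⟨w'', hw'', u, hu, e3⟩ := mem_bd.1 (hE' (n + 1) h4)
    obtain ⟨u₁, hu₁, u₂, hu₂, eu⟩ := Submodule.mem_sup.1 hu
    obtain ⟨ν, hν, eν⟩ := lift (n + 1) u₁ hu₁
    have e4 : j n (v₁ - K.d n ν) = K'.d n u₂ + y - j n v₂ := by
      have h5 := congrArg (K'.d n) e3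
      rw [map_add, K'.dd, zero_add, ← eu, map_add, e2] at h5
      rw [map_sub, hj, eν]
      have h6 : j n v₁ = K'.d n u₁ + K'.d n u₂ - (j n v₂ - y) := by
        rw [h5, add_sub_cancel_right]
      rw [h6]
      abel
    have h5 : v₁ - K.d n ν ∈ V₂ n := by
      refine back n _ (sub_mem hv₁ (hV₁ n _ hν)) ?_
      rw [e4]
      exact sub_mem (add_mem (hU₂ n _ hu₂) (hYU n hy)) (jV₂ _ _ hv₂)
    have h6 : v₁ - K.d n ν + v₂ ∈ V₂ n := add_mem h5 hv₂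
    have e5 : K.d n (ω + ν) + (v₁ - K.d n ν + v₂) = β := by
      rw [← e1, ← ev, map_add]
      abel
    obtain ⟨x₃, hx₃, a, ha, e6⟩ := mem_bd.1 (hH n (zc_diffE hβ h6 e5))
    refine mem_bd.2 ⟨ω + ν + x₃, add_mem (add_mem hω (hV₁C _ hν)) (hV₂C _ hx₃), a, ha, ?_⟩
    rw [← e5, ← e6, map_add (K.d n) (ω + ν) x₃]
    abel

end Pool.H93.HM
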