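import Pool.Agent.H4.CU.HTP
import Pool.Agent.H93.HU.Cls

/-!
# [H93 HM HHA] Homotopic pointed cubes are homologous; constant cubes

PROOFS (complete). `gC_const`: a constant cube of dimension `≥ 1` is degenerate. `hh_hom`: `HU.hom_of_cl` gives `H : C(Cb (q+1) × I, X)` with `H (y, 0) = s y`, `H (y, 1) = t y`, `H (y, r) = x₀` on the boundary. Let `h : C(J × Qb (q+1), X)`, `h (r, y) = H (y, r)`.
`dC_PC` for `x = gC id`: `d (PC h x) + PC h (d x) = mapC (slice h 0) (gC id) - mapC (slice h 1) (gC id) = gC s - gC t`; `d (gC id)` is a combination of the classes of the faces of the identity (`dC_gC`), `prism h (face i ε id)` is the constant cube `x₀`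
(`face i ε id` has values in the boundary), of dimension `q + 1 ≥ 1`, so `PC h (d x) = 0`.
-/

set_option autoImplicit false

namespace Pool.H93.HM

open Pool.Agent.H4.CU

variable (R : Type) [CommRing R] {X : Type} [TopologicalSpace X] {x₀ : X}

theorem gC_const (n : ℕ) (x₀ : X) : gC R (ContinuousMap.const (Qb (n + 1)) x₀ : Cb X (n + 1)) = 0 :=
  gC_deg R ⟨0, fun _ _ => rfl⟩

theorem hh_hom {q : ℕ} (s t : Cb X (q + 1)) (hs : ∀ y ∈ Pool.H93.HU.Bd (q + 1), s y = x₀)
    (ht : ∀ y ∈ Pool.H93.HU.Bd (q + 1), t y = x₀)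
    (h : Pool.H93.HU.cl s hs = Pool.H93.HU.cl t ht) :
    gC R s - gC R t ∈ LinearMap.range (dC R X (q + 1)) := by
  obtain ⟨H, h0, h1, hB⟩ := Pool.H93.HU.hom_of_cl h
  have hc : Continuous fun p : J × Qb (q + 1) => H (p.2, p.1) :=
    H.continuous.comp (continuous_snd.prodMk continuous_fst)
  let h' : C(J × Qb (q + 1), X) := ⟨fun p => H (p.2, p.1), hc⟩
  have key := dC_PC (R := R) (n := q) h' (gC R (ContinuousMap.id (Qb (q + 1)) : Cb (Qb (q + 1)) (q + 1)))
  have hf : ∀ (i : Fin (q + 1)) (e : J), (e = 0 ∨ e = 1) →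
      gC R (prism h' (face i e (ContinuousMap.id (Qb (q + 1)) : Cb (Qb (q + 1)) (q + 1)))) = 0 := by
    intro i e he
    have h3 : prism h' (face i e (ContinuousMap.id (Qb (q + 1)) : Cb (Qb (q + 1)) (q + 1))) =
        ContinuousMap.const (Qb (q + 1)) x₀ := by
      ext x
      have h4 : (Fin.insertNth (α := fun _ => J) i e fun j => x j.succ) i = e := by
        rw [Fin.insertNth_apply_same]
      refine hB (Fin.insertNth (α := fun _ => J) i e fun j => x j.succ) ⟨i, ?_⟩ (x 0)
      rcases he with rfl | rfl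
      · exact Or.inl h4
      · exact Or.inr h4
    rw [h3]
    exact gC_const R q x₀
  have h2 : PC R q h' (dC R (Qb (q + 1)) q
      (gC R (ContinuousMap.id (Qb (q + 1)) : Cb (Qb (q + 1)) (q + 1)))) = 0 := by
    rw [dC_gC, map_sum]
    refine Finset.sum_eq_zero fun i _ => ?_
    rw [map_smul, map_sub, PC_gC, PC_gC, hf i 0 (Or.inl rfl), hf i 1 (Or.inr rfl), sub_self, smul_zero]
  have h4 : (slice h' 0).comp (ContinuousMap.id (Qb (q + 1))) = s := by
    ext x
    exact h0 x
  have h5 : (slice h' 1).comp (ContinuousMap.id (Qb (q + 1))) = t := by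
    ext x
    exact h1 x
  rw [h2, add_zero, mapC_gC, mapC_gC, h4, h5] at key
  exact ⟨_, key⟩

end Pool.H93.HM
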