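import Pool.Agent.H93.HM.Hha

/-!
# [H93 HM HHB] The product of pointed cubes is homologous to the sum

PROOF (complete). Dimension `q + 1`, coordinate `0`. Let `Q : Cb X (q + 2)`, `Q x = w (update (tail x) 0 (max (x_0 / 2) x_1))`, `tail x = fun i => x i.succ`, `x_0 / 2` = `projIcc` of `(x 0 : ℝ) / 2` (or `half false (x 0)` of `SD.lean`). Faces (`face_apply`, `Fin.insertNth`):
`face 0 0 Q = w`, `face 0 1 Q = w' := (y ↦ w (update y 0 (max (1/2) y_0)))`, `face 1 0 Q = (y ↦ w (update y 0 (y_0 / 2))) = s` (by `h1`: `2 (y_0 / 2) = y_0`), `face 1 1 Q` = constant `x₀` (`w` at a point with coordinate `0` equal to `1`), `face i ε Q` for `i ≥ 2` is constant `x₀`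
(another coordinate of the argument is `0` or `1`). So `d (gC Q) = gC w - gC w' - gC s` (`dC_gC`, `Fin.sum_univ_succ` twice, `gC_const`).
Let `P : Cb X (q + 2)`, `P x = w (update (tail x) 0 (max (1/2) ((1 - x_0) x_1 + x_0 (1 + x_1) / 2)))`: `face 0 0 P = w'`, `face 0 1 P = (y ↦ w (update y 0 ((1 + y_0) / 2))) = t` (by `h2` for `y_0 > 0`; at `y_0 = 0`: `w` at `1/2` is `s` at coordinate `1`, so `x₀`, and `t` at coordinate `0` is `x₀`),
`face 1 0 P`: the argument has coordinate `max (1/2) (x_0 / 2) = 1/2`, so by `h1` the value is `s` at coordinate `1`: constant `x₀`; `face 1 1 P`: coordinate `1`: constant `x₀`; the other faces are constant. So `d (gC P) = gC w' - gC t`. Sum: `gC w - (gC s + gC t) = d (gC Q + gC P)`.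
-/

set_option autoImplicit false

namespace Pool.H93.HM

open Pool.Agent.H4.CU

private def qub {X : Type} [TopologicalSpace X] {q : ℕ} (w : Cb X (q + 1)) (g : C(J × J, J)) :
    Cb X (q + 2) :=
  w.comp ⟨fun x => Function.update (fun i : Fin (q + 1) => x i.succ) 0 (g (x 0, x (Fin.succ 0))),
    Continuous.update (continuous_pi fun i => continuous_apply _) 0
      (g.continuous.comp ((continuous_apply _).prodMk (continuous_apply _)))⟩

private theorem qub_apply {X : Type} [TopologicalSpace X] {q : ℕ} (w : Cb X (q + 1))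
    (g : C(J × J, J)) (x : Qb (q + 2)) : qub w g x =
      w (Function.update (fun i : Fin (q + 1) => x i.succ) 0 (g (x 0, x (Fin.succ 0)))) := rfl

private theorem face_zero {X : Type} [TopologicalSpace X] {q : ℕ} (w : Cb X (q + 1))
    (g : C(J × J, J)) (ε : J) (y : Qb (q + 1)) :
    face 0 ε (qub w g) y = w (Function.update y 0 (g (ε, y 0))) := by
  rw [face_apply, qub_apply]
  have h : ∀ i : Fin (q + 1), (Fin.insertNth 0 ε y : Qb (q + 2)) i.succ = y i := by
    intro i
    have h1 := Fin.insertNth_apply_succAbove (α := fun _ => J) 0 ε y i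
    rw [Fin.zero_succAbove] at h1
    exact h1
  have h0 : (Fin.insertNth 0 ε y : Qb (q + 2)) 0 = ε := Fin.insertNth_apply_same _ _ _
  rw [h0, h 0]
  congr 2

private theorem face_one {X : Type} [TopologicalSpace X] {q : ℕ} (w : Cb X (q + 1))
    (g : C(J × J, J)) (ε : J) (y : Qb (q + 1)) :
    face (Fin.succ 0) ε (qub w g) y = w (Function.update y 0 (g (y 0, ε))) := by
  rw [face_apply, qub_apply]
  have h : ∀ i : Fin (q + 1), (Fin.insertNth (Fin.succ 0) ε y : Qb (q + 2))
      ((Fin.succ 0 : Fin (q + 2)).succAbove i) = y i := fun i =>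
    Fin.insertNth_apply_succAbove (α := fun _ => J) _ ε y i
  have h0 : (Fin.insertNth (Fin.succ 0) ε y : Qb (q + 2)) 0 = y 0 := by
    have h1 := h 0
    rw [Fin.succ_succAbove_zero] at h1
    exact h1
  have h1 : (Fin.insertNth (Fin.succ 0) ε y : Qb (q + 2)) (Fin.succ 0) = ε :=
    Fin.insertNth_apply_same _ _ _
  rw [h0, h1]
  congr 1
  funext j
  refine Fin.cases ?_ (fun k => ?_) j
  · rw [Function.update_self, Function.update_self]
  · rw [Function.update_of_ne (Fin.succ_ne_zero k), Function.update_of_ne (Fin.succ_ne_zero k)]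
    have h2 := h k.succ
    rw [Fin.succ_succAbove_succ, Fin.zero_succAbove] at h2
    exact h2

private theorem face_two {X : Type} [TopologicalSpace X] {x₀ : X} {q : ℕ} (w : Cb X (q + 1))
    (hw : ∀ y ∈ Pool.H93.HU.Bd (q + 1), w y = x₀) (g : C(J × J, J)) (ε : J)
    (hε : ε = 0 ∨ ε = 1) (k : Fin q) (y : Qb (q + 1)) :
    face k.succ.succ ε (qub w g) y = x₀ := by
  rw [face_apply, qub_apply]
  apply hw
  refine ⟨k.succ, ?_⟩
  have h1 : (Fin.insertNth k.succ.succ ε y : Qb (q + 2)) k.succ.succ = ε :=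
    Fin.insertNth_apply_same _ _ _
  rw [Function.update_of_ne (Fin.succ_ne_zero k), h1]
  exact hε

private theorem dC_qub (R : Type) [CommRing R] {X : Type} [TopologicalSpace X] {x₀ : X} {q : ℕ}
    (w : Cb X (q + 1)) (hw : ∀ y ∈ Pool.H93.HU.Bd (q + 1), w y = x₀) (g : C(J × J, J)) :
    dC R X (q + 1) (gC R (qub w g)) =
      (gC R (face 0 0 (qub w g)) - gC R (face 0 1 (qub w g))) -
        (gC R (face (Fin.succ 0) 0 (qub w g)) - gC R (face (Fin.succ 0) 1 (qub w g))) := by
  rw [dC_gC, Fin.sum_univ_succ, Fin.sum_univ_succ]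
  have h : ∑ k : Fin q, (-1 : R) ^ ((k.succ.succ : Fin (q + 2)) : ℕ) •
      (gC R (face k.succ.succ 0 (qub w g)) - gC R (face k.succ.succ 1 (qub w g))) = 0 := by
    refine Finset.sum_eq_zero fun k _ => ?_
    have h1 : face k.succ.succ 0 (qub w g) = face k.succ.succ 1 (qub w g) := by
      ext y
      rw [face_two w hw g 0 (Or.inl rfl), face_two w hw g 1 (Or.inr rfl)]
    rw [h1, sub_self, smul_zero]
  rw [h, add_zero]
  simp only [Fin.val_zero, pow_zero, one_smul, Fin.val_succ, zero_add, pow_one, neg_smul]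
  abel

private noncomputable def pj (f : ℝ × ℝ → ℝ) (hf : Continuous f) : C(J × J, J) :=
  ⟨fun p => Set.projIcc 0 1 zero_le_one (f ((p.1 : ℝ), (p.2 : ℝ))),
    continuous_projIcc.comp (hf.comp ((continuous_subtype_val.comp continuous_fst).prodMk
      (continuous_subtype_val.comp continuous_snd)))⟩

private theorem pj_apply (f : ℝ × ℝ → ℝ) (hf : Continuous f) (a b : J) :
    pj f hf (a, b) = Set.projIcc 0 1 zero_le_one (f ((a : ℝ), (b : ℝ))) := rfl

private theorem prj_val {r : ℝ} (h0 : 0 ≤ r) (h1 : r ≤ 1) :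
    ((Set.projIcc (0 : ℝ) 1 zero_le_one r : J) : ℝ) = r := by
  rw [Set.projIcc_of_mem zero_le_one ⟨h0, h1⟩]

theorem hh_mul (R : Type) [CommRing R] {X : Type} [TopologicalSpace X] {x₀ : X} {q : ℕ}
    (s t w : Cb X (q + 1)) (hs : ∀ y ∈ Pool.H93.HU.Bd (q + 1), s y = x₀)
    (ht : ∀ y ∈ Pool.H93.HU.Bd (q + 1), t y = x₀) (hw : ∀ y ∈ Pool.H93.HU.Bd (q + 1), w y = x₀)
    (h1 : ∀ y : Qb (q + 1), (y 0 : ℝ) ≤ 1 / 2 →
      w y = s (Function.update y 0 (Set.projIcc 0 1 zero_le_one (2 * (y 0 : ℝ)))))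
    (h2 : ∀ y : Qb (q + 1), (1 : ℝ) / 2 < y 0 →
      w y = t (Function.update y 0 (Set.projIcc 0 1 zero_le_one (2 * (y 0 : ℝ) - 1)))) :
    gC R w - (gC R s + gC R t) ∈ LinearMap.range (dC R X (q + 1)) := by
  have hb : ∀ (u : Cb X (q + 1)), (∀ y ∈ Pool.H93.HU.Bd (q + 1), u y = x₀) →
      ∀ (y : Qb (q + 1)) (r : J), (r = 0 ∨ r = 1) → u (Function.update y 0 r) = x₀ := by
    intro u hu y r hr
    apply hu
    refine ⟨0, ?_⟩
    rw [Function.update_self]
    exact hr
  -- lower half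
  have low : ∀ (y : Qb (q + 1)) (r : ℝ), 0 ≤ r → r ≤ 1 / 2 →
      w (Function.update y 0 (Set.projIcc 0 1 zero_le_one r)) =
        s (Function.update y 0 (Set.projIcc 0 1 zero_le_one (2 * r))) := by
    intro y r hr0 hr1
    have e : (((Function.update y 0 (Set.projIcc 0 1 zero_le_one r) : Qb (q + 1)) 0 : J) : ℝ) = r := by
      rw [Function.update_self, prj_val hr0 (by linarith)]
    rw [h1 _ (by rw [e]; exact hr1), e, Function.update_idem]
  have upp : ∀ (y : Qb (q + 1)) (r : ℝ), 1 / 2 < r → r ≤ 1 →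
      w (Function.update y 0 (Set.projIcc 0 1 zero_le_one r)) =
        t (Function.update y 0 (Set.projIcc 0 1 zero_le_one (2 * r - 1))) := by
    intro y r hr0 hr1
    have e : (((Function.update y 0 (Set.projIcc 0 1 zero_le_one r) : Qb (q + 1)) 0 : J) : ℝ) = r := by
      rw [Function.update_self, prj_val (by linarith) hr1]
    rw [h2 _ (by rw [e]; exact hr0), e, Function.update_idem]
  have hone : (Set.projIcc (0 : ℝ) 1 zero_le_one 1 : J) = 1 := by
    apply Subtype.ext
    rw [prj_val zero_le_one le_rfl]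
    rfl
  have hhalf : ∀ y : Qb (q + 1),
      w (Function.update y 0 (Set.projIcc 0 1 zero_le_one (1 / 2))) = x₀ := by
    intro y
    rw [low y (1 / 2) (by norm_num) le_rfl, show (2 : ℝ) * (1 / 2) = 1 by norm_num, hone]
    exact hb s hs y 1 (Or.inr rfl)
  have hcoe : ∀ y : Qb (q + 1), Function.update y 0 (Set.projIcc 0 1 zero_le_one ((y 0 : J) : ℝ)) = y := by
    intro y
    have e : (Set.projIcc (0 : ℝ) 1 zero_le_one ((y 0 : J) : ℝ) : J) = y 0 := by
      apply Subtype.ext
      exact prj_val (y 0).2.1 (y 0).2.2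
    rw [e, Function.update_eq_self]
  have hc0 : ((0 : J) : ℝ) = 0 := rfl
  have hc1 : ((1 : J) : ℝ) = 1 := rfl
  let fQ : ℝ × ℝ → ℝ := fun p => max (p.1 / 2) p.2
  have hfQ : Continuous fQ := by fun_prop
  let fP : ℝ × ℝ → ℝ := fun p => max (1 / 2) ((1 - p.1) * p.2 + p.1 * ((1 + p.2) / 2))
  have hfP : Continuous fP := by fun_prop
  have q00 : face 0 0 (qub w (pj fQ hfQ)) = w := by
    ext y
    rw [face_zero, pj_apply]
    have e : fQ (((0 : J) : ℝ), ((y 0 : J) : ℝ)) = ((y 0 : J) : ℝ) := by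
      simp only [fQ, hc0, zero_div]
      exact max_eq_right (y 0).2.1
    rw [e, hcoe]
  have q10 : face (Fin.succ 0) 0 (qub w (pj fQ hfQ)) = s := by
    ext y
    rw [face_one, pj_apply]
    have hy0 := (y 0).2.1
    have hy1 := (y 0).2.2
    have e : fQ (((y 0 : J) : ℝ), ((0 : J) : ℝ)) = ((y 0 : J) : ℝ) / 2 := by
      simp only [fQ, hc0]
      exact max_eq_left (by linarith)
    rw [e, low y _ (by linarith) (by linarith),
      show (2 : ℝ) * (((y 0 : J) : ℝ) / 2) = ((y 0 : J) : ℝ) by ring, hcoe]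
  have q11 : face (Fin.succ 0) 1 (qub w (pj fQ hfQ)) =
      (ContinuousMap.const (Qb (q + 1)) x₀ : Cb X (q + 1)) := by
    ext y
    rw [face_one, pj_apply]
    have hy1 := (y 0).2.2
    have e : fQ (((y 0 : J) : ℝ), ((1 : J) : ℝ)) = 1 := by
      simp only [fQ, hc1]
      exact max_eq_right (by linarith)
    rw [e, hone]
    exact hb w hw y 1 (Or.inr rfl)
  have qp : face 0 1 (qub w (pj fQ hfQ)) = face 0 0 (qub w (pj fP hfP)) := by
    ext y
    rw [face_zero, face_zero, pj_apply, pj_apply]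
    have e : fQ (((1 : J) : ℝ), ((y 0 : J) : ℝ)) = fP (((0 : J) : ℝ), ((y 0 : J) : ℝ)) := by
      simp only [fQ, fP, hc0, hc1, sub_zero, one_mul, zero_mul, add_zero]
    rw [e]
  have p01 : face 0 1 (qub w (pj fP hfP)) = t := by
    ext y
    rw [face_zero, pj_apply]
    have hy0 := (y 0).2.1
    have hy1 := (y 0).2.2
    have e : fP (((1 : J) : ℝ), ((y 0 : J) : ℝ)) = (1 + ((y 0 : J) : ℝ)) / 2 := by
      simp only [fP, hc1, sub_self, zero_mul, zero_add, one_mul]
      exact max_eq_right (by linarith)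
    rw [e]
    rcases hy0.lt_or_eq with h3 | h3
    · rw [upp y _ (by linarith) (by linarith),
        show (2 : ℝ) * ((1 + ((y 0 : J) : ℝ)) / 2) - 1 = ((y 0 : J) : ℝ) by ring, hcoe]
    · rw [← h3, add_zero, hhalf]
      refine (ht y ⟨0, Or.inl ?_⟩).symm
      apply Subtype.ext
      exact h3.symm
  have p10 : face (Fin.succ 0) 0 (qub w (pj fP hfP)) =
      (ContinuousMap.const (Qb (q + 1)) x₀ : Cb X (q + 1)) := by
    ext y
    rw [face_one, pj_apply]
    have hy1 := (y 0).2.2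
    have e : fP (((y 0 : J) : ℝ), ((0 : J) : ℝ)) = 1 / 2 := by
      simp only [fP, hc0, mul_zero, zero_add, add_zero]
      refine max_eq_left ?_
      linarith
    rw [e, hhalf]
    rfl
  have p11 : face (Fin.succ 0) 1 (qub w (pj fP hfP)) =
      (ContinuousMap.const (Qb (q + 1)) x₀ : Cb X (q + 1)) := by
    ext y
    rw [face_one, pj_apply]
    have e : fP (((y 0 : J) : ℝ), ((1 : J) : ℝ)) = 1 := by
      simp only [fP, hc1]
      rw [show (1 - ((y 0 : J) : ℝ)) * 1 + ((y 0 : J) : ℝ) * ((1 + 1) / 2) = 1 by ring]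
      exact max_eq_right (by norm_num)
    rw [e, hone]
    exact hb w hw y 1 (Or.inr rfl)
  have dQ := dC_qub R w hw (pj fQ hfQ)
  have dP := dC_qub R w hw (pj fP hfP)
  rw [q00, q10, q11, qp] at dQ
  rw [p01, p10, p11] at dP
  have hcst : gC R (ContinuousMap.const (Qb (q + 1)) x₀ : Cb X (q + 1)) = 0 := gC_const R q x₀
  rw [hcst] at dQ dP
  refine ⟨gC R (qub w (pj fQ hfQ)) + gC R (qub w (pj fP hfP)), ?_⟩
  rw [map_add, dQ, dP]
  abel

end Pool.H93.HM
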