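import Pool.Agent.H4.CU.FHC

/-!
# [H93 HM HTS] Homotopies on subsets

PROOF (complete). `acy_of_htp` (A8) with `B := subCF R B`, `A := subCF R A`, `P (gC σ) = gC (x ↦ D (σ (x_1, …), x_0))` if `range σ ⊆ B`, else `0`, and `e (gC σ) = gC (x ↦ D (σ x, 1))` if
`range σ ⊆ B`, else `0` (`liftC` with `if`; the cubes are continuous by `ContinuousOn.comp_continuous`; degenerate cubes go to degenerate cubes).
Faces of the prism `p σ = (x ↦ D (σ (tail x), x 0))`: `face 0 ε (p σ) = D (σ ·, ε)`, `face i.succ ε (p σ) = p (face i ε σ)` (the same pointwise identities as in `HTP.lean`; the faces of `σ` are again in `B`), so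
`d P x = x - e x - P d x` for `x = gC σ`, `range σ ⊆ B` (`dC_gC`, `Fin.sum_univ_succ`), and by span induction for all `x ∈ subC R n B`; in degree `0` `d P x = x - e x`.
`P` maps `subC B` into `subC B` and `subC A` into `subC A`, `e` maps `subC B` into `subC A` (span induction). (Compare `FH.lean`, `FHC.lean`.)
-/

set_option autoImplicit false

namespace Pool.H93.HM

open Pool.Agent.H4.CU

section aux

variable {R : Type} [CommRing R] {Z : Type} [TopologicalSpace Z] {B : Set Z} {D : Z × J → Z}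

/-- the prism of a cube in `B` -/
private def prB (hD : ContinuousOn D (B ×ˢ Set.univ)) {n : ℕ} (σ : Cb Z n)
    (hσ : Set.range σ ⊆ B) : Cb Z (n + 1) where
  toFun x := D (σ (fun i => x i.succ), x 0)
  continuous_toFun := by
    have h1 : Continuous (fun x : Qb (n + 1) => (σ (fun i => x i.succ), x 0)) := by fun_prop
    exact hD.comp_continuous h1 fun x => ⟨hσ ⟨_, rfl⟩, Set.mem_univ _⟩

/-- the cube `D (σ, t)` -/
private def slB (hD : ContinuousOn D (B ×ˢ Set.univ)) {n : ℕ} (t : J) (σ : Cb Z n)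
    (hσ : Set.range σ ⊆ B) : Cb Z n where
  toFun x := D (σ x, t)
  continuous_toFun := by
    have h1 : Continuous (fun x : Qb n => (σ x, t)) := by fun_prop
    exact hD.comp_continuous h1 fun x => ⟨hσ ⟨_, rfl⟩, Set.mem_univ _⟩

private theorem prB_apply (hD : ContinuousOn D (B ×ˢ Set.univ)) {n : ℕ}
    (σ : Cb Z n) (hσ : Set.range σ ⊆ B) (x : Qb (n + 1)) :
    prB hD σ hσ x = D (σ (fun i => x i.succ), x 0) := rfl

private theorem slB_apply (hD : ContinuousOn D (B ×ˢ Set.univ)) {n : ℕ}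
    (t : J) (σ : Cb Z n) (hσ : Set.range σ ⊆ B) (x : Qb n) : slB hD t σ hσ x = D (σ x, t) := rfl

private theorem face_range {n : ℕ} {σ : Cb Z (n + 1)} (hσ : Set.range σ ⊆ B) (i : Fin (n + 1))
    (ε : J) : Set.range (face i ε σ) ⊆ B := by
  rintro z ⟨x, rfl⟩
  rw [face_apply]
  exact hσ ⟨_, rfl⟩

private theorem prB_face_zero (hD : ContinuousOn D (B ×ˢ Set.univ))
    {n : ℕ} (σ : Cb Z n) (hσ : Set.range σ ⊆ B) (ε : J) :
    face 0 ε (prB hD σ hσ) = slB hD ε σ hσ := by
  ext x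
  rw [face_apply, prB_apply, slB_apply, Fin.insertNth_zero', Fin.cons_zero]
  congr 3

private theorem prB_face_succ (hD : ContinuousOn D (B ×ˢ Set.univ))
    {n : ℕ} (σ : Cb Z (n + 1)) (hσ : Set.range σ ⊆ B) (i : Fin (n + 1)) (ε : J) :
    face i.succ ε (prB hD σ hσ) = prB hD (face i ε σ) (face_range hσ i ε) := by
  ext x
  rw [face_apply, prB_apply, prB_apply, face_apply]
  have e1 : (i.succ.insertNth ε x : Qb (n + 2)) 0 = x 0 := by
    have h1 : (0 : Fin (n + 2)) = i.succ.succAbove 0 := by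
      rw [Fin.succ_succAbove_zero]
    rw [h1, Fin.insertNth_apply_succAbove]
  have e2 : (fun j : Fin (n + 1) => (i.succ.insertNth ε x : Qb (n + 2)) j.succ) =
      i.insertNth ε fun k => x k.succ := by
    funext j
    refine i.succAboveCases ?_ (fun k => ?_) j
    · rw [Fin.insertNth_apply_same, Fin.insertNth_apply_same]
    · rw [Fin.insertNth_apply_succAbove, ← Fin.succ_succAbove_succ,
        Fin.insertNth_apply_succAbove]
  rw [e1, e2]

private theorem prB_deg (hD : ContinuousOn D (B ×ˢ Set.univ)) {n : ℕ}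
    {σ : Cb Z n} (hσ : Set.range σ ⊆ B) (hd : Deg σ) : Deg (prB hD σ hσ) := by
  obtain ⟨i, hi⟩ := hd
  refine ⟨i.succ, fun x t => ?_⟩
  rw [prB_apply, prB_apply, Function.update_of_ne (Fin.succ_ne_zero i).symm]
  have e : (fun j : Fin n => Function.update x i.succ t j.succ) =
      Function.update (fun j : Fin n => x j.succ) i t := by
    funext j
    by_cases hj : j = i
    · subst hj
      rw [Function.update_self, Function.update_self]
    · rw [Function.update_of_ne hj, Function.update_of_ne fun h1 => hj (Fin.succ_injective _ h1)]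
  rw [e, hi]

private theorem slB_deg (hD : ContinuousOn D (B ×ˢ Set.univ)) {n : ℕ}
    (t : J) {σ : Cb Z n} (hσ : Set.range σ ⊆ B) (hd : Deg σ) : Deg (slB hD t σ hσ) := by
  obtain ⟨i, hi⟩ := hd
  refine ⟨i, fun x s => ?_⟩
  rw [slB_apply, slB_apply, hi]

open Classical in
/-- the homotopy operator -/
private noncomputable def PB (R : Type) [CommRing R] (hD : ContinuousOn D (B ×ˢ Set.univ)) (n : ℕ) :
    Ch R Z n →ₗ[R] Ch R Z (n + 1) :=
  liftC (fun σ => if hσ : Set.range σ ⊆ B then gC R (prB hD σ hσ) else 0)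
    (fun σ hd => by
      by_cases hσ : Set.range σ ⊆ B
      · rw [dif_pos hσ]
        exact gC_deg R (prB_deg hD hσ hd)
      · rw [dif_neg hσ])

open Classical in
/-- the end of the homotopy -/
private noncomputable def EB (R : Type) [CommRing R] (hD : ContinuousOn D (B ×ˢ Set.univ)) (n : ℕ) :
    Ch R Z n →ₗ[R] Ch R Z n :=
  liftC (fun σ => if hσ : Set.range σ ⊆ B then gC R (slB hD 1 σ hσ) else 0)
    (fun σ hd => by
      by_cases hσ : Set.range σ ⊆ B
      · rw [dif_pos hσ]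
        exact gC_deg R (slB_deg hD 1 hσ hd)
      · rw [dif_neg hσ])

private theorem PB_gC (hD : ContinuousOn D (B ×ˢ Set.univ)) {n : ℕ} (σ : Cb Z n)
    (hσ : Set.range σ ⊆ B) : PB R hD n (gC R σ) = gC R (prB hD σ hσ) := by
  unfold PB
  rw [liftC_gC, dif_pos hσ]

private theorem EB_gC (hD : ContinuousOn D (B ×ˢ Set.univ)) {n : ℕ} (σ : Cb Z n)
    (hσ : Set.range σ ⊆ B) : EB R hD n (gC R σ) = gC R (slB hD 1 σ hσ) := by
  unfold EB
  rw [liftC_gC, dif_pos hσ]

private theorem d_prB (hD : ContinuousOn D (B ×ˢ Set.univ))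
    (h0 : ∀ z ∈ B, D (z, 0) = z) {n : ℕ} (σ : Cb Z n) (hσ : Set.range σ ⊆ B) :
    dC R Z n (gC R (prB hD σ hσ)) = (gC R σ - gC R (slB hD 1 σ hσ)) +
      ∑ i : Fin n, (-1 : R) ^ ((i : ℕ) + 1) •
        (gC R (face i.succ 0 (prB hD σ hσ)) - gC R (face i.succ 1 (prB hD σ hσ))) := by
  rw [dC_gC, Fin.sum_univ_succ]
  have e0 : slB hD 0 σ hσ = σ := by
    ext x
    exact h0 _ (hσ ⟨_, rfl⟩)
  congr 1
  rw [Fin.val_zero, pow_zero, one_smul, prB_face_zero, prB_face_zero, e0]

private theorem htp_zero (hD : ContinuousOn D (B ×ˢ Set.univ)) (h0 : ∀ z ∈ B, D (z, 0) = z)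
    (x : Ch R Z 0) (hx : x ∈ subC R 0 B) :
    dC R Z 0 (PB R hD 0 x) = x - EB R hD 0 x := by
  have key : Set.EqOn (dC R Z 0 ∘ₗ PB R hD 0 : Ch R Z 0 →ₗ[R] Ch R Z 0)
      (LinearMap.id - EB R hD 0 : Ch R Z 0 →ₗ[R] Ch R Z 0)
      {c | ∃ σ : Cb Z 0, Set.range σ ⊆ B ∧ c = gC R σ} := by
    rintro c ⟨σ, hσ, rfl⟩
    rw [LinearMap.comp_apply, PB_gC hD σ hσ, d_prB hD h0 σ hσ, LinearMap.sub_apply,
      LinearMap.id_apply, EB_gC hD σ hσ, Fin.sum_univ_zero, add_zero]
  exact LinearMap.eqOn_span key hx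

private theorem htp_succ (hD : ContinuousOn D (B ×ˢ Set.univ)) (h0 : ∀ z ∈ B, D (z, 0) = z)
    (n : ℕ) (x : Ch R Z (n + 1)) (hx : x ∈ subC R (n + 1) B) :
    dC R Z (n + 1) (PB R hD (n + 1) x) + PB R hD n (dC R Z n x) = x - EB R hD (n + 1) x := by
  have key : Set.EqOn (dC R Z (n + 1) ∘ₗ PB R hD (n + 1) +
        PB R hD n ∘ₗ dC R Z n : Ch R Z (n + 1) →ₗ[R] Ch R Z (n + 1))
      (LinearMap.id - EB R hD (n + 1) : Ch R Z (n + 1) →ₗ[R] Ch R Z (n + 1))
      {c | ∃ σ : Cb Z (n + 1), Set.range σ ⊆ B ∧ c = gC R σ} := by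
    rintro c ⟨σ, hσ, rfl⟩
    have e1 : PB R hD n (dC R Z n (gC R σ)) = ∑ i : Fin (n + 1), (-1 : R) ^ (i : ℕ) •
        (gC R (face i.succ 0 (prB hD σ hσ)) - gC R (face i.succ 1 (prB hD σ hσ))) := by
      rw [dC_gC, map_sum]
      refine Finset.sum_congr rfl fun i _ => ?_
      rw [map_smul, map_sub, PB_gC hD _ (face_range hσ i 0),
        PB_gC hD _ (face_range hσ i 1), prB_face_succ, prB_face_succ]
    have e2 : ∑ i : Fin (n + 1), (-1 : R) ^ ((i : ℕ) + 1) •
        (gC R (face i.succ 0 (prB hD σ hσ)) - gC R (face i.succ 1 (prB hD σ hσ))) =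
        -∑ i : Fin (n + 1), (-1 : R) ^ (i : ℕ) •
        (gC R (face i.succ 0 (prB hD σ hσ)) - gC R (face i.succ 1 (prB hD σ hσ))) := by
      rw [← Finset.sum_neg_distrib]
      refine Finset.sum_congr rfl fun i _ => ?_
      rw [pow_succ, mul_neg_one, neg_smul]
    rw [LinearMap.add_apply, LinearMap.comp_apply, LinearMap.comp_apply,
      PB_gC hD σ hσ, d_prB hD h0 σ hσ, e1, e2, LinearMap.sub_apply,
      LinearMap.id_apply, EB_gC hD σ hσ, neg_add_cancel_right]
  exact LinearMap.eqOn_span key hx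

end aux

theorem hts (R : Type) [CommRing R] {Z : Type} [TopologicalSpace Z] {A B : Set Z} (hAB : A ⊆ B) (D : Z × J → Z)
    (hD : ContinuousOn D (B ×ˢ Set.univ)) (hB : ∀ z ∈ B, ∀ t, D (z, t) ∈ B)
    (hA : ∀ z ∈ A, ∀ t, D (z, t) ∈ A) (h0 : ∀ z ∈ B, D (z, 0) = z) (h1 : ∀ z ∈ B, D (z, 1) ∈ A) :
    Acy (CC R Z) (subCF R B) (subCF R A) := by
  refine acy_of_htp (K := CC R Z) (fun n => EB R hD n) (fun n => PB R hD n)
    ?_ ?_ ?_ (fun x hx => htp_zero hD h0 x hx)
    (fun n x hx => htp_succ hD h0 n x hx)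
  · intro n
    have key : subC R n B ≤ (subC R n A).comap (EB R hD n) := by
      conv_lhs => unfold subC
      rw [Submodule.span_le]
      rintro c ⟨σ, hσ, rfl⟩
      rw [SetLike.mem_coe, Submodule.mem_comap, EB_gC hD σ hσ]
      refine gC_mem ?_
      rintro z ⟨x, rfl⟩
      exact h1 _ (hσ ⟨x, rfl⟩)
    exact key
  · intro n
    have key : subC R n B ≤ (subC R (n + 1) B).comap (PB R hD n) := by
      conv_lhs => unfold subC
      rw [Submodule.span_le]
      rintro c ⟨σ, hσ, rfl⟩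
      rw [SetLike.mem_coe, Submodule.mem_comap, PB_gC hD σ hσ]
      refine gC_mem ?_
      rintro z ⟨x, rfl⟩
      exact hB _ (hσ ⟨_, rfl⟩) _
    exact key
  · intro n
    have key : subC R n A ≤ (subC R (n + 1) A).comap (PB R hD n) := by
      conv_lhs => unfold subC
      rw [Submodule.span_le]
      rintro c ⟨σ, hσ, rfl⟩
      rw [SetLike.mem_coe, Submodule.mem_comap, PB_gC hD σ (hσ.trans hAB)]
      refine gC_mem ?_
      rintro z ⟨x, rfl⟩
      exact hA _ (hσ ⟨_, rfl⟩) _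
    exact key

end Pool.H93.HM
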