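import Pool.Agent.H93.HM.Hts
import Pool.Agent.H93.HU.Ret

/-!
# [H93 HM JKA] The cube and the union of all faces but one

`Jk k ⊆ I ^ (k + 1)`: the union of all the faces except `x_last = 1`.

PROOF (complete). `hts` with `B = univ` (`subC_univ`), `A = Jk k`, `D (x, t) i = (1 - t) x_i + t r(x)_i` (convex combination in the interval), where `r x = fc last (r' (pr last x, x last)).2 (r' (pr last x, x last)).1` and `r'` is the retraction of
`Pool.H93.HU.ret k`: the values of `r` are in `Jk k` (`fc_same`, `fc_succAbove`), and `r x = x` for `x ∈ Jk k` (`fc_pr`; if `x i = ep b` with `i ≠ last` then `pr last x` is in the boundary; if `i = last`, `b = false` then `x last = 0`).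
-/

set_option autoImplicit false

namespace Pool.H93.HM

open Pool.Agent.H4.CU

/-- all faces of the cube except `x_last = 1` -/
def Jk (k : ℕ) : Set (Qb (k + 1)) :=
  {x | ∃ (i : Fin (k + 1)) (b : Bool), ¬ (i = Fin.last k ∧ b = true) ∧ x i = Pool.H93.HU.ep b}

private theorem mem_seg (a b t : J) : (1 - (t : ℝ)) * a + t * b ∈ unitInterval := by
  have h0 := t.2.1
  have h1 := t.2.2
  have ha0 := a.2.1
  have ha1 := a.2.2
  have hb0 := b.2.1
  have hb1 := b.2.2
  constructor
  · have e1 : 0 ≤ (1 - (t : ℝ)) * a := mul_nonneg (by linarith) ha0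
    have e2 : 0 ≤ (t : ℝ) * b := mul_nonneg h0 hb0
    linarith
  · have e1 : (1 - (t : ℝ)) * a ≤ (1 - (t : ℝ)) * 1 := mul_le_mul_of_nonneg_left ha1 (by linarith)
    have e2 : (t : ℝ) * b ≤ t * 1 := mul_le_mul_of_nonneg_left hb1 h0
    linarith

/-- the straight homotopy -/
private noncomputable def seg {n : ℕ} (G : C(Qb n, Qb n)) (z : Qb n × J) : Qb n :=
  fun i => ⟨_, mem_seg (z.1 i) (G z.1 i) z.2⟩

private theorem seg_cont {n : ℕ} (G : C(Qb n, Qb n)) : Continuous (seg G) := by
  refine continuous_pi fun i => Continuous.subtype_mk ?_ _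
  have h1 : Continuous fun z : Qb n × J => ((G z.1 i : J) : ℝ) :=
    continuous_subtype_val.comp ((continuous_apply i).comp (G.continuous.comp continuous_fst))
  have h2 : Continuous fun z : Qb n × J => ((z.2 : J) : ℝ) :=
    continuous_subtype_val.comp continuous_snd
  have h3 : Continuous fun z : Qb n × J => ((z.1 i : J) : ℝ) :=
    continuous_subtype_val.comp ((continuous_apply i).comp continuous_fst)
  exact ((continuous_const.sub h2).mul h3).add (h2.mul h1)

private theorem seg_zero {n : ℕ} (G : C(Qb n, Qb n)) (z : Qb n) : seg G (z, 0) = z := by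
  funext i
  apply Subtype.ext
  change (1 - ((0 : J) : ℝ)) * z i + ((0 : J) : ℝ) * G z i = z i
  simp

private theorem seg_one {n : ℕ} (G : C(Qb n, Qb n)) (z : Qb n) : seg G (z, 1) = G z := by
  funext i
  apply Subtype.ext
  change (1 - ((1 : J) : ℝ)) * z i + ((1 : J) : ℝ) * G z i = G z i
  simp

private theorem seg_fix {n : ℕ} (G : C(Qb n, Qb n)) (z : Qb n) (t : J) (h : G z = z) :
    seg G (z, t) = z := by
  funext i
  apply Subtype.ext
  change (1 - (t : ℝ)) * z i + (t : ℝ) * G z i = z i
  rw [h]
  ring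

private theorem exists_G (k : ℕ) : ∃ G : C(Qb (k + 1), Qb (k + 1)), (∀ x, G x ∈ Jk k) ∧
    ∀ x ∈ Jk k, G x = x := by
  obtain ⟨r, hr, hr'⟩ := Pool.H93.HU.ret k
  have hl : ∀ (y : Qb k) (t : J), (Fin.snoc (α := fun _ => J) y t : Qb (k + 1)) (Fin.last k) = t :=
    fun y t => Fin.snoc_last (α := fun _ => J) t y
  have hc : ∀ (y : Qb k) (t : J) (i : Fin k),
      (Fin.snoc (α := fun _ => J) y t : Qb (k + 1)) i.castSucc = y i :=
    fun y t i => Fin.snoc_castSucc (α := fun _ => J) t y i
  have hcont : Continuous fun x : Qb (k + 1) => r ((Fin.init x : Qb k), x (Fin.last k)) :=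
    r.continuous.comp ((Continuous.finInit continuous_id).prodMk (continuous_apply _))
  refine ⟨⟨fun x => Fin.snoc (α := fun _ => J) (r ((Fin.init x : Qb k), x (Fin.last k))).1
    (r ((Fin.init x : Qb k), x (Fin.last k))).2,
    Continuous.finSnoc (continuous_fst.comp hcont) (continuous_snd.comp hcont)⟩, ?_, ?_⟩
  · intro x
    rcases hr ((Fin.init x : Qb k), x (Fin.last k)) with h | ⟨i, h⟩
    · exact ⟨Fin.last k, false, by simp, (hl _ _).trans h⟩
    · rcases h with h | h
      · exact ⟨i.castSucc, false, by simp, (hc _ _ i).trans h⟩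
      · exact ⟨i.castSucc, true, fun h' => (Fin.castSucc_lt_last i).ne h'.1, (hc _ _ i).trans h⟩
  · rintro x ⟨i, b, hib, hx⟩
    have h1 : ((Fin.init x : Qb k), x (Fin.last k)).2 = 0 ∨
        ((Fin.init x : Qb k), x (Fin.last k)).1 ∈ Pool.H93.HU.Bd k := by
      induction i using Fin.lastCases with
      | last =>
        left
        cases b with
        | true => exact absurd ⟨rfl, rfl⟩ hib
        | false => exact hx
      | cast i =>
        right
        cases b with
        | true => exact ⟨i, Or.inr hx⟩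
        | false => exact ⟨i, Or.inl hx⟩
    change (Fin.snoc (α := fun _ => J) (r ((Fin.init x : Qb k), x (Fin.last k))).1
      (r ((Fin.init x : Qb k), x (Fin.last k))).2 : Qb (k + 1)) = x
    rw [hr' _ h1]
    exact Fin.snoc_init_self (α := fun _ => J) x

theorem jk_acy (R : Type) [CommRing R] (k : ℕ) : Acy (CC R (Qb (k + 1))) ⊤ (subCF R (Jk k)) := by
  obtain ⟨G, hG, hG'⟩ := exists_G k
  have h := hts R (Z := Qb (k + 1)) (A := Jk k) (B := Set.univ) (Set.subset_univ _) (seg G)
    (seg_cont G).continuousOn (fun _ _ _ => Set.mem_univ _)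
    (fun z hz t => by rw [seg_fix G z t (hG' z hz)]; exact hz)
    (fun z _ => seg_zero G z) (fun z _ => by rw [seg_one]; exact hG z)
  have e : subCF R (Set.univ : Set (Qb (k + 1))) = ⊤ := by
    funext n
    exact subC_univ R n
  rwa [e] at h

end Pool.H93.HM
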