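import Pool.Agent.H4.CU.DD

/-!
# [H93 HM LFT] Chains on a subset on which the map is an embedding

PROOFS (complete). Let `r : Z' → Z` be the inverse of `j` on `j '' V` (for `τ : C(Qb n, Z')` with `range τ ⊆ j '' V` there is a unique `σ : C(Qb n, Z)` with `range σ ⊆ V`, `j ∘ σ = τ`:
`hemb.toHomeomorph.symm` or `Topology.IsEmbedding` and `continuous_iff`). Let `π : Ch R Z' n → Ch R Z n`, `gC τ ↦ gC σ` if `range τ ⊆ j '' V`, else `0` (`liftC`; if `τ` is degenerate so is `σ`, `j` is injective on `V`).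
Then `π (mapC j v) = v` for `v ∈ subC V`, `mapC j (π u) = u` for `u ∈ subC (j '' V)`, `π u ∈ subC V`, and `π u ∈ subC (V ∩ j ⁻¹' U)` for `u ∈ subC U` (span inductions).
`lift`: `v = π u`. `back`: `v = π (mapC j v)`. `inj`: `v = π (mapC j v) = 0`.
-/

set_option autoImplicit false

namespace Pool.H93.HM

open Pool.Agent.H4.CU

variable (R : Type) [CommRing R] {Z Z' : Type} [TopologicalSpace Z] [TopologicalSpace Z']

private theorem pull_exists {j : C(Z, Z')} {V : Set Z}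
    (hemb : Topology.IsEmbedding (fun v : V => j v)) {n : ℕ} (τ : Cb Z' n)
    (h : Set.range τ ⊆ j '' V) : ∃ σ : Cb Z n, Set.range σ ⊆ V ∧ j.comp σ = τ := by
  have h1 : ∀ x, ∃ v : V, j v = τ x := by
    intro x
    obtain ⟨v, hv, hx⟩ := h ⟨x, rfl⟩
    exact ⟨⟨v, hv⟩, hx⟩
  choose g hg using h1
  have hgc : Continuous g := by
    rw [hemb.continuous_iff]
    have h2 : (fun v : V => j v) ∘ g = τ := funext hg
    rw [h2]
    exact τ.continuous
  refine ⟨⟨fun x => (g x : Z), continuous_subtype_val.comp hgc⟩, ?_, ?_⟩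
  · rintro _ ⟨x, rfl⟩
    exact (g x).2
  · ext x
    exact hg x

private theorem pull_unique {j : C(Z, Z')} {V : Set Z}
    (hemb : Topology.IsEmbedding (fun v : V => j v)) {n : ℕ} {σ σ' : Cb Z n}
    (h : Set.range σ ⊆ V) (h' : Set.range σ' ⊆ V) (hh : j.comp σ = j.comp σ') : σ = σ' := by
  ext x
  have h1 : j (σ x) = j (σ' x) := congrArg (fun f : Cb Z' n => f x) hh
  have h2 : (⟨σ x, h ⟨x, rfl⟩⟩ : V) = ⟨σ' x, h' ⟨x, rfl⟩⟩ := hemb.injective h1
  exact congrArg Subtype.val h2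

private theorem exists_pi (j : C(Z, Z')) (V : Set Z)
    (hemb : Topology.IsEmbedding (fun v : V => j v)) (n : ℕ) :
    ∃ π : Ch R Z' n →ₗ[R] Ch R Z n,
      (∀ σ : Cb Z n, Set.range σ ⊆ V → π (gC R (j.comp σ)) = gC R σ) ∧
      (∀ τ : Cb Z' n, ¬ Set.range τ ⊆ j '' V → π (gC R τ) = 0) := by
  classical
  let v : Cb Z' n → Ch R Z n := fun τ =>
    if h : Set.range τ ⊆ j '' V then gC R (pull_exists hemb τ h).choose else 0
  have hv : ∀ τ, Deg τ → v τ = 0 := by
    rintro τ ⟨i, hi⟩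
    by_cases h : Set.range τ ⊆ j '' V
    · have h0 : v τ = gC R (pull_exists hemb τ h).choose := dif_pos h
      rw [h0]
      refine gC_deg R ⟨i, fun x t => ?_⟩
      obtain ⟨h1, h2⟩ := (pull_exists hemb τ h).choose_spec
      have h3 : ∀ y, j ((pull_exists hemb τ h).choose y) = τ y := fun y =>
        congrArg (fun f : Cb Z' n => f y) h2
      have h4 : (⟨(pull_exists hemb τ h).choose (Function.update x i t), h1 ⟨_, rfl⟩⟩ : V) =
          ⟨(pull_exists hemb τ h).choose x, h1 ⟨_, rfl⟩⟩ := by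
        apply hemb.injective
        change j _ = j _
        rw [h3, h3, hi]
      exact congrArg Subtype.val h4
    · exact dif_neg h
  refine ⟨liftC v hv, fun σ hσ => ?_, fun τ h => ?_⟩
  · rw [liftC_gC]
    have h : Set.range (j.comp σ) ⊆ j '' V := by
      rintro _ ⟨x, rfl⟩
      exact ⟨σ x, hσ ⟨x, rfl⟩, rfl⟩
    have h0 : v (j.comp σ) = gC R (pull_exists hemb (j.comp σ) h).choose := dif_pos h
    rw [h0]
    obtain ⟨h1, h2⟩ := (pull_exists hemb (j.comp σ) h).choose_spec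
    rw [pull_unique hemb h1 hσ h2]
  · rw [liftC_gC]
    exact dif_neg h

private theorem pi_mapC {j : C(Z, Z')} {V : Set Z} {n : ℕ} {π : Ch R Z' n →ₗ[R] Ch R Z n}
    (h1 : ∀ σ : Cb Z n, Set.range σ ⊆ V → π (gC R (j.comp σ)) = gC R σ) {v : Ch R Z n}
    (hv : v ∈ subC R n V) : π (mapC R n j v) = v := by
  unfold subC at hv
  induction hv using Submodule.span_induction with
  | mem x hx =>
    obtain ⟨σ, hσ, rfl⟩ := hx
    rw [mapC_gC, h1 σ hσ]
  | zero => rw [map_zero, map_zero]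
  | add x y _ _ hx hy => rw [map_add, map_add, hx, hy]
  | smul a x _ hx => rw [map_smul, map_smul, hx]

private theorem pi_mem {j : C(Z, Z')} {V : Set Z}
    (hemb : Topology.IsEmbedding (fun v : V => j v)) {n : ℕ} {π : Ch R Z' n →ₗ[R] Ch R Z n}
    (h1 : ∀ σ : Cb Z n, Set.range σ ⊆ V → π (gC R (j.comp σ)) = gC R σ)
    (h2 : ∀ τ : Cb Z' n, ¬ Set.range τ ⊆ j '' V → π (gC R τ) = 0) {U : Set Z'} {u : Ch R Z' n}
    (hu : u ∈ subC R n U) : π u ∈ subC R n (V ∩ j ⁻¹' U) := by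
  unfold subC at hu
  induction hu using Submodule.span_induction with
  | mem x hx =>
    obtain ⟨τ, hτ, rfl⟩ := hx
    by_cases h : Set.range τ ⊆ j '' V
    · obtain ⟨σ, hσ, rfl⟩ := pull_exists hemb τ h
      rw [h1 σ hσ]
      refine gC_mem ?_
      rintro _ ⟨x, rfl⟩
      exact ⟨hσ ⟨x, rfl⟩, hτ ⟨x, rfl⟩⟩
    · rw [h2 τ h]
      exact zero_mem _
  | zero =>
    rw [map_zero]
    exact zero_mem _
  | add x y _ _ hx hy =>
    rw [map_add]
    exact add_mem hx hy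
  | smul a x _ hx =>
    rw [map_smul]
    exact Submodule.smul_mem _ _ hx

theorem lift (j : C(Z, Z')) (V : Set Z) (hemb : Topology.IsEmbedding (fun v : V => j v)) (n : ℕ)
    (u : Ch R Z' n) (hu : u ∈ subC R n (j '' V)) : ∃ v ∈ subC R n V, mapC R n j v = u := by
  unfold subC at hu
  induction hu using Submodule.span_induction with
  | mem x hx =>
    obtain ⟨τ, hτ, rfl⟩ := hx
    obtain ⟨σ, hσ, rfl⟩ := pull_exists hemb τ hτ
    exact ⟨gC R σ, gC_mem hσ, mapC_gC _ _⟩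
  | zero => exact ⟨0, zero_mem _, map_zero _⟩
  | add x y _ _ hx hy =>
    obtain ⟨a, ha, rfl⟩ := hx
    obtain ⟨b, hb, rfl⟩ := hy
    exact ⟨a + b, add_mem ha hb, map_add _ _ _⟩
  | smul c x _ hx =>
    obtain ⟨a, ha, rfl⟩ := hx
    exact ⟨c • a, Submodule.smul_mem _ _ ha, map_smul _ _ _⟩

theorem back (j : C(Z, Z')) (V : Set Z) (hemb : Topology.IsEmbedding (fun v : V => j v)) (n : ℕ)
    (U : Set Z') (v : Ch R Z n) (hv : v ∈ subC R n V) (hU : mapC R n j v ∈ subC R n U) :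
    v ∈ subC R n (V ∩ j ⁻¹' U) := by
  obtain ⟨π, h1, h2⟩ := exists_pi R j V hemb n
  rw [← pi_mapC R h1 hv]
  exact pi_mem R hemb h1 h2 hU

theorem inj (j : C(Z, Z')) (V : Set Z) (hemb : Topology.IsEmbedding (fun v : V => j v)) (n : ℕ)
    (v : Ch R Z n) (hv : v ∈ subC R n V) (h : mapC R n j v = 0) : v = 0 := by
  obtain ⟨π, h1, h2⟩ := exists_pi R j V hemb n
  rw [← pi_mapC R h1 hv, h, map_zero]

end Pool.H93.HM
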