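import Pool.Agent.H93.HM.Poq
import Pool.Agent.H93.HM.Cel

/-!
# [H93 HM PCH] Attaching cells

PROOFS (complete). `q = po_qis R hD hY hB hc`, `hc : Collar (bF F k)` from `collar_prod (collar_cube k)`; `mapC (jBc ..) (gC (inD f)) = gC (chr φ f)` (`mapC_gC`); `mapC (jBc ..)` maps `Bd (CC R (F × Qb k)) ⊤ (subCF (bF F k))` into `Bd (CC R (PO ..)) ⊤ (subCF (range jY))`
(`dC_mapC`; `jB` maps `bF F k` into `range jY`: `PO.jB_mem`). `pc_ne`: `q.sur`, `cells_ne`. `pc_eq`: `q.sur`, `cells_eq`, `map_finsuppSum`. `pc_inj`: the chain `∑ c_f gC (inD f)` is in `Zc ⊤ (subCF (bF F k)) k` (each `gC (inD f) = mapC (inD f) (gC id)`, `id_zc`), so `q.inj` and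
`cells_inj`.
-/

set_option autoImplicit false
set_option linter.unusedSectionVars false

namespace Pool.H93.HM

open Pool.Agent.H4.CU Pool.Agent.H18.AR

variable (R : Type) [CommRing R] {F Y : Type} [TopologicalSpace F] [DiscreteTopology F]
  [TopologicalSpace Y] {k : ℕ} {φ : F × Qb k → Y}

/-- the characteristic cube of the cell `f` -/
noncomputable def chr (φ : F × Qb k → Y) (f : F) : Cb (PO (bF F k) φ) k :=
  (jBc (bF F k) φ).comp (inD f)

private theorem pch_sub {B Z : Type} [TopologicalSpace B]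
    [TopologicalSpace Z] {j : C(B, Z)} {S : Set B} {S' : Set Z} (h : j '' S ⊆ S') {n : ℕ}
    {x : Ch R B n} (hx : x ∈ subC R n S) : mapC R n j x ∈ subC R n S' := by
  have h1 : subC R n S ≤ (subC R n S').comap (mapC R n j) := by
    unfold subC
    rw [Submodule.span_le]
    rintro c ⟨σ, hσ, rfl⟩
    rw [SetLike.mem_coe, Submodule.mem_comap, mapC_gC]
    refine Submodule.subset_span ⟨j.comp σ, ?_, rfl⟩
    rintro _ ⟨y, rfl⟩
    exact h ⟨σ y, hσ ⟨y, rfl⟩, rfl⟩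
  exact h1 hx

private theorem pch_bd {B Z : Type} [TopologicalSpace B]
    [TopologicalSpace Z] {j : C(B, Z)} {S : Set B} {S' : Set Z} (h : j '' S ⊆ S') {n : ℕ}
    {x : Ch R B n} (hx : x ∈ Bd (CC R B) ⊤ (subCF R S) n) :
    mapC R n j x ∈ Bd (CC R Z) ⊤ (subCF R S') n := by
  obtain ⟨w, a, ha, e2⟩ : ∃ (w : Ch R B (n + 1)) (a : Ch R B n), a ∈ subC R n S ∧
      dC R B n w + a = x := by
    obtain ⟨w, -, a, ha, e⟩ := mem_bd.1 hx
    exact ⟨w, a, ha, e⟩
  refine mem_bd.2 ⟨mapC R (n + 1) j w, trivial, mapC R n j a, pch_sub R h ha, ?_⟩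
  have e1 : dC R Z n (mapC R (n + 1) j w) = mapC R n j (dC R B n w) :=
    congrArg (fun f => f w) (dC_mapC j)
  show dC R Z n (mapC R (n + 1) j w) + mapC R n j a = mapC R n j x
  rw [e1, ← map_add, e2]

private theorem pch_jY : (jBc (bF F k) φ) '' (bF F k) ⊆ Set.range (PO.jY (bF F k) φ) := by
  rintro _ ⟨b, hb, rfl⟩
  exact ⟨φ b, (PO.jB_mem hb).symm⟩

private theorem pch_q (hD : POData (bF F k) φ) (hY : LCS Y) (hB : LCS (F × Qb k)) :
    Qis (K := CC R (F × Qb k)) (K' := CC R (PO (bF F k) φ)) (fun n => mapC R n (jBc (bF F k) φ)) ⊤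
      (subCF R (bF F k)) ⊤ (subCF R (Set.range (PO.jY (bF F k) φ))) :=
  po_qis R hD hY hB (collar_prod (collar_cube k))

private theorem pch_map (c : F →₀ R) :
    mapC R k (jBc (bF F k) φ) (c.sum fun f a => a • gC R (inD f : Cb (F × Qb k) k)) =
      c.sum fun f a => a • gC R (chr φ f) := by
  rw [Finsupp.sum, map_sum]
  refine Finset.sum_congr rfl fun f _ => ?_
  rw [map_smul, mapC_gC]
  rfl

theorem pc_ne (hD : POData (bF F k) φ) (hY : LCS Y) (hB : LCS (F × Qb k)) (n : ℕ) (h : n ≠ k) :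
    Zc (CC R (PO (bF F k) φ)) ⊤ (subCF R (Set.range (PO.jY (bF F k) φ))) n ≤
      Bd (CC R (PO (bF F k) φ)) ⊤ (subCF R (Set.range (PO.jY (bF F k) φ))) n := by
  intro x hx
  obtain ⟨β, hβ, h1⟩ := (pch_q R hD hY hB).sur n x hx
  have h2 := pch_bd R (pch_jY (φ := φ)) (cells_ne R k n h hβ)
  have h3 := add_mem h1 h2
  have e : ∀ u v : Ch R (PO (bF F k) φ) n, (u - v) + v = u := fun u v => sub_add_cancel u v
  have h4 := e x (mapC R n (jBc (bF F k) φ) β)
  rw [← h4]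
  exact h3

theorem pc_eq (hD : POData (bF F k) φ) (hY : LCS Y) (hB : LCS (F × Qb k))
    (x : Ch R (PO (bF F k) φ) k)
    (hx : x ∈ Zc (CC R (PO (bF F k) φ)) ⊤ (subCF R (Set.range (PO.jY (bF F k) φ))) k) :
    ∃ c : F →₀ R, x - (c.sum fun f a => a • gC R (chr φ f)) ∈
      Bd (CC R (PO (bF F k) φ)) ⊤ (subCF R (Set.range (PO.jY (bF F k) φ))) k := by
  obtain ⟨β, hβ, h1⟩ : ∃ β : Ch R (F × Qb k) k,
      β ∈ Zc (CC R (F × Qb k)) ⊤ (subCF R (bF F k)) k ∧
      x - mapC R k (jBc (bF F k) φ) β ∈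
        Bd (CC R (PO (bF F k) φ)) ⊤ (subCF R (Set.range (PO.jY (bF F k) φ))) k :=
    (pch_q R hD hY hB).sur k x hx
  obtain ⟨c, hc⟩ := cells_eq R k β hβ
  refine ⟨c, ?_⟩
  have h2 := pch_bd R (pch_jY (φ := φ)) hc
  have h3 := add_mem h1 h2
  have e1 : mapC R k (jBc (bF F k) φ) (β - (c.sum fun f a => a • gC R (inD f : Cb (F × Qb k) k))) =
      mapC R k (jBc (bF F k) φ) β - c.sum fun f a => a • gC R (chr φ f) := by
    rw [← pch_map R (φ := φ) c]
    exact map_sub _ _ _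
  have e : ∀ u v w : Ch R (PO (bF F k) φ) k, u - w = (u - v) + (v - w) := fun u v w =>
    (sub_add_sub_cancel u v w).symm
  rw [e x (mapC R k (jBc (bF F k) φ) β), ← e1]
  exact h3

theorem pc_inj (hD : POData (bF F k) φ) (hY : LCS Y) (hB : LCS (F × Qb k)) (c : F →₀ R)
    (h : (c.sum fun f a => a • gC R (chr φ f)) ∈
      Bd (CC R (PO (bF F k) φ)) ⊤ (subCF R (Set.range (PO.jY (bF F k) φ))) k) : c = 0 := by
  have hz : ∀ f : F, (gC R (inD f : Cb (F × Qb k) k)) ∈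
      Zc (CC R (F × Qb k)) ⊤ (subCF R (bF F k)) k := by
    intro f
    have e1 : gC R (inD f : Cb (F × Qb k) k) =
        mapC R k (inD f : C(Qb k, F × Qb k)) (gC R (ContinuousMap.id (Qb k))) := by
      rw [mapC_gC, ContinuousMap.comp_id]
    have h1 := id_zc R k
    rw [e1]
    cases k with
    | zero => exact mem_zc_zero.2 trivial
    | succ k =>
      have h2 := (mem_zc_succ (K := CC R (Qb (k + 1)))).1 h1
      refine mem_zc_succ.2 ⟨trivial, ?_⟩
      have e2 : dC R (F × Qb (k + 1)) k (mapC R (k + 1) (inD f : C(Qb (k + 1), F × Qb (k + 1)))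
          (gC R (ContinuousMap.id (Qb (k + 1))))) =
          mapC R k (inD f) (dC R (Qb (k + 1)) k (gC R (ContinuousMap.id (Qb (k + 1))))) :=
        congrArg (fun g => g (gC R (ContinuousMap.id (Qb (k + 1))))) (dC_mapC (inD f))
      show dC R (F × Qb (k + 1)) k (mapC R (k + 1) (inD f : C(Qb (k + 1), F × Qb (k + 1)))
          (gC R (ContinuousMap.id (Qb (k + 1))))) ∈ subC R k (bF F (k + 1))
      rw [e2]
      refine pch_sub R ?_ h2.2
      rintro _ ⟨b, hb, rfl⟩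
      exact hb
  have hs : (c.sum fun f a => a • gC R (inD f : Cb (F × Qb k) k)) ∈
      Zc (CC R (F × Qb k)) ⊤ (subCF R (bF F k)) k :=
    sum_mem fun f _ => Submodule.smul_mem _ _ (hz f)
  have h1 := (pch_q R hD hY hB).inj k _ hs
  have h2 : mapC R k (jBc (bF F k) φ) (c.sum fun f a => a • gC R (inD f : Cb (F × Qb k) k)) ∈
      Bd (CC R (PO (bF F k) φ)) ⊤ (subCF R (Set.range (PO.jY (bF F k) φ))) k := by
    rw [pch_map R (φ := φ) c]
    exact h
  exact cells_inj R k c (h1 h2)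

end Pool.H93.HM
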