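import Pool.Agent.H93.HM.Rlh
import Pool.Agent.H18.AR.PoN

/-!
# [H93 HM POQ] The homology of a collared pushout

PROOF (complete). `relhom` with `Z = PO A φ`, `j = jB` (`PO.jB_continuous`), `T = univ` (`subC_univ`), `Y = range jY`: `hcov` is `PO.cases_mk`; `hjA`: `PO.jB_mem`, `PO.jB_ne_jY`; `hemb`: `(PO.compl_openEmbedding hD hY hB).isEmbedding`
(the subtype `{b // b ∉ A}` is `(Aᶜ : Set B)`); `O₁ = jB '' Aᶜ`, open (`compl_openEmbedding`); `O₂ = range jY ∪ jB '' NB`, open: see the proof of `PO.ane_po` in `PoN.lean` (`hNo`, copy it), also the homotopy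
`D (x, t) = PO.desc (fun y => jY y) (fun b => jB (dB (b, t))) x` and its continuity on `O₂ ×ˢ univ` by `PO.continuousOn_param` (there: `d`, `dY`, `dBB`, `hdc`).
-/

set_option autoImplicit false

namespace Pool.H93.HM

open Pool.Agent.H4.CU Pool.Agent.H18.AR

variable {Y B : Type} [TopologicalSpace Y] [TopologicalSpace B] {A : Set B} {φ : B → Y}

/-- the characteristic map as a continuous map -/
noncomputable def jBc (A : Set B) (φ : B → Y) : C(B, PO A φ) := ⟨PO.jB A φ, PO.jB_continuous⟩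

/-- the inclusion as a continuous map -/
noncomputable def jYc (A : Set B) (φ : B → Y) : C(Y, PO A φ) := ⟨PO.jY A φ, PO.jY_continuous⟩

theorem po_qis (R : Type) [CommRing R] (hD : POData A φ) (hY : LCS Y) (hB : LCS B) (hc : Collar A) :
    Qis (K := CC R B) (K' := CC R (PO A φ)) (fun n => mapC R n (jBc A φ)) ⊤ (subCF R A) ⊤
      (subCF R (Set.range (PO.jY A φ))) := by
  obtain ⟨NB, dB, hN, hAN, hd, hdN, hd0, hd1, hdA⟩ := hc
  have hT : (⊤ : Fam (CC R (PO A φ))) = subCF R (Set.univ : Set (PO A φ)) := by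
    funext n
    exact (subC_univ R n).symm
  have hjY : PO.jY A φ ⁻¹' (Set.range (PO.jY A φ) ∪ PO.jB A φ '' NB) = Set.univ := by
    ext y
    exact ⟨fun _ => Set.mem_univ _, fun _ => Or.inl ⟨y, rfl⟩⟩
  have hjB : PO.jB A φ ⁻¹' (Set.range (PO.jY A φ) ∪ PO.jB A φ '' NB) = NB := by
    ext b
    constructor
    · intro hb
      by_cases hbA : b ∈ A
      · exact hAN hbA
      · rcases hb with ⟨y, hy⟩ | ⟨b', hb', e⟩
        · exact absurd hy.symm (PO.jB_ne_jY hbA y)
        · by_cases hb'A : b' ∈ A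
          · rw [PO.jB_mem hb'A] at e
            exact absurd e.symm (PO.jB_ne_jY hbA _)
          · rw [← PO.jB_inj hb'A hbA e]
            exact hb'
    · intro hb
      exact Or.inr ⟨b, hb, rfl⟩
  have hNo : IsOpen (Set.range (PO.jY A φ) ∪ PO.jB A φ '' NB) := by
    rw [PO.isOpen_iff, hjY, hjB]
    exact ⟨isOpen_univ, hN⟩
  have hdesc : ∀ t : J, ∀ a ∈ A, PO.jB A φ (dB (a, t)) = PO.jY A φ (φ a) := by
    intro t a ha
    rw [hdA a ha t, PO.jB_mem ha]
  let d : PO A φ × J → PO A φ := fun z =>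
    PO.desc (A := A) (φ := φ) (fun y => PO.jY A φ y) (fun b => PO.jB A φ (dB (b, z.2))) z.1
  have dY : ∀ y t, d (PO.jY A φ y, t) = PO.jY A φ y := fun y t => rfl
  have dBB : ∀ b t, d (PO.jB A φ b, t) = PO.jB A φ (dB (b, t)) := fun b t =>
    PO.desc_jB _ _ (hdesc t) b
  have hdc : ContinuousOn d ((Set.range (PO.jY A φ) ∪ PO.jB A φ '' NB) ×ˢ Set.univ) := by
    refine PO.continuousOn_param hD hY hB _ hNo d ?_ ?_
    · exact (PO.jY_continuous.comp continuous_fst).continuousOn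
    · rw [hjB]
      exact (PO.jB_continuous.comp_continuousOn hd).congr fun z _ => dBB z.1 z.2
  have hoe := PO.compl_openEmbedding hD hY hB
  have hr : Set.range (fun b : {b : B // b ∉ A} => PO.jB A φ b.1) = PO.jB A φ '' Aᶜ := by
    ext x
    constructor
    · rintro ⟨b, rfl⟩
      exact ⟨b.1, b.2, rfl⟩
    · rintro ⟨b, hb, rfl⟩
      exact ⟨⟨b, hb⟩, rfl⟩
  have hO₁ : IsOpen (PO.jB A φ '' Aᶜ) := by
    rw [← hr]
    exact hoe.isOpen_range
  rw [hT]
  exact relhom R (jBc A φ) (T := Set.univ) (Y := Set.range (PO.jY A φ)) hD.closed hN hAN dB hd hdN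
    hd0 hd1 hdA (Set.subset_univ _) (fun b => Set.mem_univ _)
    (by
      intro x _
      rcases PO.cases_mk x with ⟨y, rfl⟩ | ⟨b, hb, rfl⟩
      · exact Or.inl ⟨y, rfl⟩
      · exact Or.inr ⟨b, hb, rfl⟩)
    (by
      intro b
      constructor
      · rintro ⟨y, hy⟩
        by_contra hb
        exact PO.jB_ne_jY hb y hy.symm
      · intro hb
        exact ⟨φ b, (PO.jB_mem hb).symm⟩)
    hoe.isEmbedding hO₁ hNo (Set.inter_univ _) (Set.inter_univ _) d hdc
    (by
      rintro _ ⟨y, rfl⟩ t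
      exact dY y t)
    (fun b _ t => dBB b t)

end Pool.H93.HM
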