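import Pool.Agent.H4.CU.Alg

/-!
# [H93 HM QIS] Chain maps which induce isomorphisms on relative homology

`Qis j C A C' A'`: the chain map `j` induces a bijection `H(C, A) → H(C', A')`.

PROOF of `Qis.comp` (complete; `mem_zc_succ`, `mem_bd`; degree `0`: no condition on `d`). sur: `z` in `C''`; `β' ∈ Zc C' A'` with `z - j' β' = d w + a`; `β ∈ Zc C A` with `β' - j β = d w' + a'`; then
`z - j' (j β) = d (w + j' w') + (a + j' a')`. inj: `j β ∈ Zc C' A'` (`jC`, `jA`, `hj`), so `h'.inj` and then `h.inj`.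
-/

set_option autoImplicit false

namespace Pool.H93.HM

open Pool.Agent.H4.CU

variable {R : Type} [CommRing R]

/-- `j` induces an isomorphism `H(C, A) → H(C', A')` -/
structure Qis {K K' : Cx R} (j : ∀ n, K.M n →ₗ[R] K'.M n) (C A : Fam K) (C' A' : Fam K') : Prop where
  sur : ∀ n, ∀ z ∈ Zc K' C' A' n, ∃ β ∈ Zc K C A n, z - j n β ∈ Bd K' C' A' n
  inj : ∀ n, ∀ β ∈ Zc K C A n, j n β ∈ Bd K' C' A' n → β ∈ Bd K C A n

private theorem zc_map {K K' : Cx R} {j : ∀ n, K.M n →ₗ[R] K'.M n}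
    (hj : ∀ n x, j n (K.d n x) = K'.d n (j (n + 1) x)) {C A : Fam K} {C' A' : Fam K'}
    (jC : ∀ n, ∀ x ∈ C n, j n x ∈ C' n) (jA : ∀ n, ∀ x ∈ A n, j n x ∈ A' n) (n : ℕ) (β : K.M n)
    (hβ : β ∈ Zc K C A n) : j n β ∈ Zc K' C' A' n := by
  cases n with
  | zero => exact jC 0 β hβ
  | succ n =>
    rw [mem_zc_succ] at hβ ⊢
    refine ⟨jC _ β hβ.1, ?_⟩
    rw [← hj]
    exact jA _ _ hβ.2

theorem Qis.comp {K K' K'' : Cx R} {j : ∀ n, K.M n →ₗ[R] K'.M n} {j' : ∀ n, K'.M n →ₗ[R] K''.M n}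
    (hj' : ∀ n x, j' n (K'.d n x) = K''.d n (j' (n + 1) x))
    {C A : Fam K} {C' A' : Fam K'} {C'' A'' : Fam K''}
    (jC' : ∀ n, ∀ x ∈ C' n, j' n x ∈ C'' n) (jA' : ∀ n, ∀ x ∈ A' n, j' n x ∈ A'' n)
    (jC : ∀ n, ∀ x ∈ C n, j n x ∈ C' n) (jA : ∀ n, ∀ x ∈ A n, j n x ∈ A' n)
    (hj : ∀ n x, j n (K.d n x) = K'.d n (j (n + 1) x))
    (h : Qis j C A C' A') (h' : Qis j' C' A' C'' A'') :
    Qis (fun n => j' n ∘ₗ j n) C A C'' A'' := by
  refine ⟨fun n z hz => ?_, fun n β hβ h1 => ?_⟩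
  · obtain ⟨β', hβ', h1⟩ := h'.sur n z hz
    obtain ⟨w, hw, a, ha, e1⟩ := mem_bd.1 h1
    obtain ⟨β, hβ, h2⟩ := h.sur n β' hβ'
    obtain ⟨w', hw', a', ha', e2⟩ := mem_bd.1 h2
    refine ⟨β, hβ, mem_bd.2 ⟨w + j' (n + 1) w', add_mem hw (jC' _ _ hw'), a + j' n a',
      add_mem ha (jA' _ _ ha'), ?_⟩⟩
    have e3 := congrArg (j' n) e2
    rw [map_add, map_sub, hj'] at e3
    calc K''.d n (w + j' (n + 1) w') + (a + j' n a')
        = (K''.d n w + a) + (K''.d n (j' (n + 1) w') + j' n a') := by rw [map_add]; abel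
      _ = (z - j' n β') + (j' n β' - j' n (j n β)) := by rw [e1, e3]
      _ = z - (j' n ∘ₗ j n) β := by rw [LinearMap.comp_apply]; abel
  · exact h.inj n β hβ (h'.inj n (j n β) (zc_map hj jC jA n β hβ) h1)

end Pool.H93.HM
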