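import Pool.Agent.H93.HM.Exc
import Pool.Agent.H93.HM.Hts
import Pool.Agent.H93.HM.Lft
import Pool.Agent.H4.CU.FEC

/-!
# [H93 HM RLH] The relative homology of a space obtained by attaching a collared pair

PROOF (complete). `exc` with `K = CC R B`, `K' = CC R Z`, `j n = mapC R n j` (`dC_mapC`), `C = ⊤`, `C' = subCF R T`, `V₁ = subCF R Aᶜ`, `V₂ = subCF R NB`, `U₁ = subCF R (j '' Aᶜ)`,
`U₂ = subCF R (Y ∪ j '' NB)`; all are subcomplexes (`sc_subCF`; `⊤` trivially), inclusions by `subC_mono`, `mapC j` maps `subC S` into `subC (j '' S)` (span induction, `mapC_gC`, `gC_mem`).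
* `hE`: `factEC` with `U = Aᶜ`, `V = NB` (open sets, `U ∪ V = univ` because `A ⊆ NB`; `subC_univ`). * `hH`: `hts` with `dB`.
* `hE'`: `factEC` with `O = O₁`, `O' = O₂`, `U = j '' Aᶜ`, `V = Y ∪ j '' NB`: `U ∪ V = T` by `hcov`. * `hH'`: `hts` with `D`.
* `lift`: `Pool.H93.HM.lift`. * `back`: `Pool.H93.HM.back` gives `v ∈ subC (Aᶜ ∩ j ⁻¹' (Y ∪ j '' NB))`, and this set is contained in `NB`: `b ∉ A` so `j b ∉ Y`, `j b = j b'` with `b' ∈ NB`; `b' ∉ A` (otherwise `j b' ∈ Y`), so `b = b'`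
(`hemb.injective`).
-/

set_option autoImplicit false

namespace Pool.H93.HM

open Pool.Agent.H4.CU

/-- `A` has an open neighbourhood in `B` which deforms onto `A` in itself, `A` being fixed -/
def Collar {B : Type} [TopologicalSpace B] (A : Set B) : Prop :=
  ∃ (NB : Set B) (dB : B × J → B), IsOpen NB ∧ A ⊆ NB ∧ ContinuousOn dB (NB ×ˢ Set.univ) ∧
    (∀ b ∈ NB, ∀ t, dB (b, t) ∈ NB) ∧ (∀ b ∈ NB, dB (b, 0) = b) ∧ (∀ b ∈ NB, dB (b, 1) ∈ A) ∧
    ∀ a ∈ A, ∀ t, dB (a, t) = a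

private theorem mapC_sub (R : Type) [CommRing R] {B Z : Type} [TopologicalSpace B]
    [TopologicalSpace Z] {j : C(B, Z)} {S : Set B} {S' : Set Z} (h : j '' S ⊆ S') {n : ℕ}
    {x : Ch R B n} (hx : x ∈ subC R n S) : mapC R n j x ∈ subC R n S' := by
  have h1 : subC R n S ≤ (subC R n S').comap (mapC R n j) := by
    conv_lhs => unfold subC
    rw [Submodule.span_le]
    rintro c ⟨σ, hσ, rfl⟩
    rw [SetLike.mem_coe, Submodule.mem_comap, mapC_gC]
    refine gC_mem ?_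
    rintro _ ⟨y, rfl⟩
    exact h ⟨σ y, hσ ⟨y, rfl⟩, rfl⟩
  exact h1 hx

theorem relhom (R : Type) [CommRing R] {B Z : Type} [TopologicalSpace B] [TopologicalSpace Z] (j : C(B, Z)) {A NB : Set B}
    {T Y : Set Z} (hAc : IsClosed A) (hNB : IsOpen NB) (hAN : A ⊆ NB) (dB : B × J → B)
    (hd : ContinuousOn dB (NB ×ˢ Set.univ)) (hdN : ∀ b ∈ NB, ∀ t, dB (b, t) ∈ NB)
    (hd0 : ∀ b ∈ NB, dB (b, 0) = b) (hd1 : ∀ b ∈ NB, dB (b, 1) ∈ A)
    (hdA : ∀ a ∈ A, ∀ t, dB (a, t) = a) (hYT : Y ⊆ T) (hjT : ∀ b, j b ∈ T)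
    (hcov : ∀ x ∈ T, x ∈ Y ∨ ∃ b, b ∉ A ∧ j b = x) (hjA : ∀ b, j b ∈ Y ↔ b ∈ A)
    (hemb : Topology.IsEmbedding (fun b : (Aᶜ : Set B) => j b)) {O₁ O₂ : Set Z} (hO₁ : IsOpen O₁)
    (hO₂ : IsOpen O₂) (h₁ : O₁ ∩ T = j '' Aᶜ) (h₂ : O₂ ∩ T = Y ∪ j '' NB) (D : Z × J → Z)
    (hD : ContinuousOn D ((Y ∪ j '' NB) ×ˢ Set.univ)) (hDY : ∀ y ∈ Y, ∀ t, D (y, t) = y)
    (hDj : ∀ b ∈ NB, ∀ t, D (j b, t) = j (dB (b, t))) :
    Qis (K := CC R B) (K' := CC R Z) (fun n => mapC R n j) ⊤ (subCF R A) (subCF R T)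
      (subCF R Y) := by
  have hUV : Aᶜ ∪ NB = Set.univ := by
    rw [Set.eq_univ_iff_forall]
    intro b
    by_cases hb : b ∈ A
    · exact Or.inr (hAN hb)
    · exact Or.inl hb
  have hT : j '' Aᶜ ∪ (Y ∪ j '' NB) = T := by
    refine Set.Subset.antisymm ?_ ?_
    · rintro _ (⟨b, -, rfl⟩ | hy | ⟨b, -, rfl⟩)
      · exact hjT b
      · exact hYT hy
      · exact hjT b
    · intro x hx
      rcases hcov x hx with h | ⟨b, hb, rfl⟩
      · exact Or.inr (Or.inl h)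
      · exact Or.inl ⟨b, hb, rfl⟩
  refine exc (K := CC R B) (K' := CC R Z) (j := fun n => mapC R n j) (C := ⊤)
    (V₁ := subCF R Aᶜ) (V₂ := subCF R NB) (A := subCF R A) (C' := subCF R T)
    (U₁ := subCF R (j '' Aᶜ)) (U₂ := subCF R (Y ∪ j '' NB)) (Y := subCF R Y)
    ?_ (sc_subCF R _) (sc_subCF R _) (sc_subCF R _) ?_ (sc_subCF R _) (sc_subCF R _)
    (sc_subCF R _) (sc_subCF R _) (fun n => subC_mono hAN) le_top le_top
    (fun n => subC_mono Set.subset_union_left) (fun n => subC_mono ?_) (fun n => subC_mono ?_)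
    ?_ ?_ ?_ ?_ ?_ ?_ ?_ ?_ ?_ ?_
  · intro n x
    exact (LinearMap.congr_fun (dC_mapC (R := R) (n := n) j) x).symm
  · intro n x _
    exact Submodule.mem_top
  · rw [← hT]
    exact Set.subset_union_left
  · rw [← hT]
    exact Set.subset_union_right
  · intro n x _
    refine mapC_sub R (S := Set.univ) (S' := T) ?_ ?_
    · rintro _ ⟨b, -, rfl⟩
      exact hjT b
    · rw [subC_univ]
      exact Submodule.mem_top
  · intro n x hx
    exact mapC_sub R subset_rfl hx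
  · intro n x hx
    exact mapC_sub R Set.subset_union_right hx
  · intro n x hx
    refine mapC_sub R ?_ hx
    rintro _ ⟨b, hb, rfl⟩
    exact (hjA b).2 hb
  · intro n u hu
    exact lift R j Aᶜ hemb n u hu
  · intro n v hv hU
    have h := back R j Aᶜ hemb n _ v hv hU
    refine subC_mono ?_ h
    rintro b ⟨hb, hy | ⟨b', hb', hbb⟩⟩
    · exact absurd ((hjA b).1 hy) hb
    · have hb'A : b' ∉ A := by
        intro h3
        have h4 := (hjA b').2 h3
        rw [hbb] at h4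
        exact hb ((hjA b).1 h4)
      have h5 : (⟨b', hb'A⟩ : (Aᶜ : Set B)) = ⟨b, hb⟩ := hemb.injective hbb
      have h6 : b' = b := congrArg Subtype.val h5
      rw [← h6]
      exact hb'
  · have h := factEC R (U := Aᶜ) (V := NB) hAc.isOpen_compl hNB
      (by rw [hUV, Set.inter_univ]) (by rw [hUV, Set.inter_univ])
    have h7 : (subCF R (Aᶜ ∪ NB) : Fam (CC R B)) = ⊤ := by
      rw [hUV]
      funext n
      exact subC_univ R n
    rw [h7] at h
    exact h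
  · exact hts R hAN dB hd hdN (fun a ha t => by rw [hdA a ha t]; exact ha) hd0 hd1
  · have h := factEC R (U := j '' Aᶜ) (V := Y ∪ j '' NB) hO₁ hO₂
      (by rw [hT, h₁]) (by rw [hT, h₂])
    rw [hT] at h
    exact h
  · refine hts R Set.subset_union_left D hD ?_ ?_ ?_ ?_
    · rintro z (hz | ⟨b, hb, rfl⟩) t
      · rw [hDY z hz t]
        exact Or.inl hz
      · rw [hDj b hb t]
        exact Or.inr ⟨_, hdN b hb t, rfl⟩
    · intro z hz t
      rw [hDY z hz t]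
      exact hz
    · rintro z (hz | ⟨b, hb, rfl⟩)
      · exact hDY z hz 0
      · rw [hDj b hb 0, hd0 b hb]
    · rintro z (hz | ⟨b, hb, rfl⟩)
      · rw [hDY z hz 1]
        exact hz
      · rw [hDj b hb 1]
        exact (hjA _).2 (hd1 b hb)

end Pool.H93.HM
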